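import Mathlib

set_option autoImplicit false

namespace Pool.Agent.Lib.MP_2b1ae8_co

open Finset

/-- A finite tree, rooted at `ρ`, is described by a parent function. -/
theorem exists_parent {α : Type} [Fintype α] [DecidableEq α] (T : SimpleGraph α)
    (hT : T.IsTree) (ρ : α) :
    ∃ (par : α → α) (d : α → ℕ), (∀ w, w ≠ ρ → d (par w) < d w) ∧
      (∀ a b, T.Adj a b → (a ≠ ρ ∧ b = par a) ∨ (b ≠ ρ ∧ a = par b)) := by
  classical
  have h1 : ∀ w, ∃ u, w ≠ ρ → (T.Adj w u ∧ T.dist u ρ < T.dist w ρ) := by
    intro w
    by_cases hw : w = ρ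
    · exact ⟨w, fun h => absurd hw h⟩
    · obtain ⟨p, hp⟩ := hT.connected.exists_walk_length_eq_dist w ρ
      cases p with
      | nil => exact absurd rfl hw
      | cons h q =>
        refine ⟨_, fun _ => ⟨h, ?_⟩⟩
        have := SimpleGraph.dist_le q
        simp only [SimpleGraph.Walk.length_cons] at hp
        omega
  choose par hpar using h1
  refine ⟨par, fun w => T.dist w ρ, fun w hw => (hpar w hw).2, ?_⟩
  have hsub : (univ.erase ρ).image (fun w => s(w, par w)) ⊆ T.edgeFinset := by
    intro e he
    obtain ⟨w, hw, rfl⟩ := mem_image.1 he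
    exact SimpleGraph.mem_edgeFinset.2 (hpar w (ne_of_mem_erase hw)).1
  have hinj : Set.InjOn (fun w => s(w, par w)) (↑(univ.erase ρ) : Set α) := by
    intro w hw w' hw' h
    have hw1 : w ≠ ρ := ne_of_mem_erase (mem_coe.1 hw)
    have hw2 : w' ≠ ρ := ne_of_mem_erase (mem_coe.1 hw')
    rcases Sym2.eq_iff.1 h with ⟨h1, _⟩ | ⟨h1, h2⟩
    · exact h1
    · have a1 := (hpar w hw1).2
      have a2 := (hpar w' hw2).2
      rw [h2] at a1
      rw [← h1] at a2
      omega
  have hcard : ((univ.erase ρ).image (fun w => s(w, par w))).card = Fintype.card α - 1 := by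
    rw [card_image_of_injOn hinj, card_erase_of_mem (mem_univ _), card_univ]
  have hc2 := hT.card_edgeFinset
  have heq : (univ.erase ρ).image (fun w => s(w, par w)) = T.edgeFinset :=
    eq_of_subset_of_card_le hsub (by omega)
  intro a b hab
  have : s(a, b) ∈ T.edgeFinset := SimpleGraph.mem_edgeFinset.2 hab
  rw [← heq] at this
  obtain ⟨w, hw, h⟩ := mem_image.1 this
  have hw1 : w ≠ ρ := ne_of_mem_erase hw
  rcases Sym2.eq_iff.1 h with ⟨h1, h2⟩ | ⟨h1, h2⟩
  · left; subst h1; exact ⟨hw1, h2.symm⟩
  · right; subst h1; exact ⟨hw1, h2.symm⟩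

/-- The root, or a vertex with a child. -/
def Inner {α : Type} (ρ : α) (par : α → α) (x : α) : Prop :=
  x = ρ ∨ ∃ c, c ≠ ρ ∧ par c = x

/-- No vertex of `J` has its parent in `J`. -/
def Indep {α : Type} (ρ : α) (par : α → α) (J : Finset α) : Prop :=
  ∀ x ∈ J, x ≠ ρ → par x ∉ J

/-- Greedy embedding, inner vertices first. -/
theorem embed {α V : Type} [Fintype α] [DecidableEq α] [Fintype V] [DecidableEq V]
    (G : SimpleGraph V) [DecidableRel G.Adj] (ρ : α) (par : α → α) (d : α → ℕ)
    (hd : ∀ w, w ≠ ρ → d (par w) < d w)
    (tri : Prop) (htri : tri → ∀ x y z, G.Adj x y → G.Adj y z → ¬ G.Adj x z)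
    (H : Finset V) (hH : H.Nonempty) (r1 r2 : ℕ)
    (h1 : ∀ v ∈ H, r1 ≤ (H.filter (G.Adj v)).card)
    (h2 : ∀ v ∈ H, r2 ≤ (univ.filter (G.Adj v)).card)
    (b1 : ∀ J : Finset α, J ≠ univ → (tri → Indep ρ par J) → (∀ x ∈ J, Inner ρ par x) →
      J.card ≤ r1)
    (b2 : ∀ J : Finset α, J ≠ univ → (tri → Indep ρ par J) → J.card ≤ r2) :
    ∃ f : α → V, Function.Injective f ∧ ∀ w, w ≠ ρ → G.Adj (f w) (f (par w)) := by
  classical
  set M : ℕ := univ.sup d + 1 with hM
  have hdM : ∀ x, d x < M := fun x => Nat.lt_succ_of_le (le_sup (f := d) (mem_univ x))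
  let key : α → ℕ := fun x => if Inner ρ par x then d x else M
  have main : ∀ S : Finset α, (∀ w ∈ S, w ≠ ρ) → (∀ w ∈ S, par w = ρ ∨ par w ∈ S) →
      ∃ f : α → V, Set.InjOn f (↑(insert ρ S) : Set α) ∧ (∀ w ∈ S, G.Adj (f w) (f (par w))) ∧
        ∀ x ∈ insert ρ S, Inner ρ par x → f x ∈ H := by
    intro S
    induction S using Finset.induction_on_max_value key with
    | empty =>
      intro _ _
      obtain ⟨v, hv⟩ := hH
      refine ⟨fun _ => v, ?_, by simp, fun _ _ _ => hv⟩
      intro x hx y hy _
      simp at hx hy
      rw [hx, hy]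
    | insert w S hwS hmax ih =>
      intro hne hcl
      have hwρ : w ≠ ρ := hne w (mem_insert_self _ _)
      have hne' : ∀ x ∈ S, x ≠ ρ := fun x hx => hne x (mem_insert_of_mem hx)
      have hpw : ∀ x ∈ S, par x ≠ w := by
        intro x hx hxw
        have hin : Inner ρ par w := Or.inr ⟨x, hne' x hx, hxw⟩
        have k1 := hmax x hx
        have k2 := hd x (hne' x hx)
        have k3 := hdM w
        rw [hxw] at k2
        simp only [key, if_pos hin] at k1
        split_ifs at k1 <;> omega
      have hcl' : ∀ x ∈ S, par x = ρ ∨ par x ∈ S := by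
        intro x hx
        rcases hcl x (mem_insert_of_mem hx) with h | h
        · exact Or.inl h
        · rcases mem_insert.1 h with h | h
          · exact absurd h (hpw x hx)
          · exact Or.inr h
      obtain ⟨f, finj, fadj, fH⟩ := ih hne' hcl'
      have huw : par w ≠ w := by
        intro h
        have := hd w hwρ
        rw [h] at this
        exact lt_irrefl _ this
      have huS : par w ∈ insert ρ S := by
        rcases hcl w (mem_insert_self _ _) with h | h
        · rw [h]; exact mem_insert_self _ _
        · rcases mem_insert.1 h with h | h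
          · exact absurd h huw
          · exact mem_insert_of_mem h
      have huH : f (par w) ∈ H := fH _ huS (Or.inr ⟨w, hwρ, rfl⟩)
      have hwS' : w ∉ insert ρ S := by
        intro h
        rcases mem_insert.1 h with h | h
        · exact hwρ h
        · exact hwS h
      set J : Finset α := (insert ρ S).filter (fun x => G.Adj (f (par w)) (f x)) with hJ
      have hwJ : w ∉ J := fun h => hwS' (mem_filter.1 h).1
      have huJ : par w ∉ insert w J := by
        intro h
        rcases mem_insert.1 h with h | h
        · exact huw h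
        · exact G.irrefl (mem_filter.1 h).2
      have hJne : insert w J ≠ univ := by
        intro h
        apply huJ
        rw [h]; exact mem_univ _
      have hJind : tri → Indep ρ par (insert w J) := by
        intro ht x hx hxρ hpx
        rcases mem_insert.1 hx with rfl | hx
        · exact huJ hpx
        · have hx1 := mem_filter.1 hx
          have hxS : x ∈ S := by
            rcases mem_insert.1 hx1.1 with h | h
            · exact absurd h hxρ
            · exact h
          rcases mem_insert.1 hpx with h | h
          · exact hpw x hxS h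
          · exact htri ht _ _ _ hx1.2 (fadj x hxS) (mem_filter.1 h).2
      have hcardJ : (insert w J).card = J.card + 1 := card_insert_of_notMem hwJ
      have hex : ∃ y, G.Adj (f (par w)) y ∧ (Inner ρ par w → y ∈ H) ∧ y ∉ J.image f := by
        by_cases hin : Inner ρ par w
        · have hall : ∀ x ∈ insert w J, Inner ρ par x := by
            intro x hx
            rcases mem_insert.1 hx with rfl | hx
            · exact hin
            · rcases mem_insert.1 (mem_filter.1 hx).1 with h | h
              · exact Or.inl h
              · by_contra hn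
                have k1 := hmax x h
                have k3 := hdM w
                simp only [key, if_pos hin, if_neg hn] at k1
                omega
          have e1 := b1 _ hJne hJind hall
          have e2 := h1 _ huH
          have e3 : (J.image f).card < (H.filter (G.Adj (f (par w)))).card :=
            lt_of_le_of_lt card_image_le (by omega)
          obtain ⟨y, hy, hy'⟩ := exists_mem_notMem_of_card_lt_card e3
          exact ⟨y, (mem_filter.1 hy).2, fun _ => (mem_filter.1 hy).1, hy'⟩
        · have e1 := b2 _ hJne hJind
          have e2 := h2 _ huH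
          have e3 : (J.image f).card < (univ.filter (G.Adj (f (par w)))).card :=
            lt_of_le_of_lt card_image_le (by omega)
          obtain ⟨y, hy, hy'⟩ := exists_mem_notMem_of_card_lt_card e3
          exact ⟨y, (mem_filter.1 hy).2, fun h => absurd h hin, hy'⟩
      obtain ⟨y, hy1, hy2, hy3⟩ := hex
      have hynew : ∀ x ∈ insert ρ S, f x ≠ y := by
        intro x hx h
        apply hy3
        refine mem_image.2 ⟨x, mem_filter.2 ⟨hx, ?_⟩, h⟩
        rw [h]; exact hy1
      have hupd : ∀ x ∈ insert ρ S, Function.update f w y x = f x := by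
        intro x hx
        apply Function.update_of_ne
        rintro rfl
        exact hwS' hx
      have hmem : ∀ x, x ∈ insert ρ (insert w S) → x = w ∨ x ∈ insert ρ S := by
        intro x hx
        rcases mem_insert.1 hx with h | h
        · right; rw [h]; exact mem_insert_self _ _
        · rcases mem_insert.1 h with h | h
          · exact Or.inl h
          · exact Or.inr (mem_insert_of_mem h)
      refine ⟨Function.update f w y, ?_, ?_, ?_⟩
      · intro x hx x' hx' h
        rcases hmem x (mem_coe.1 hx) with g | g <;>
          rcases hmem x' (mem_coe.1 hx') with g' | g'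
        · rw [g, g']
        · rw [g, Function.update_self, hupd x' g'] at h
          exact absurd h.symm (hynew x' g')
        · rw [g', Function.update_self, hupd x g] at h
          exact absurd h (hynew x g)
        · rw [hupd x g, hupd x' g'] at h
          exact finj (mem_coe.2 g) (mem_coe.2 g') h
      · intro x hx
        rcases mem_insert.1 hx with rfl | hx
        · rw [Function.update_self, hupd _ huS]
          exact hy1.symm
        · have hp : par x ∈ insert ρ S := by
            rcases hcl' x hx with h | h
            · rw [h]; exact mem_insert_self _ _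
            · exact mem_insert_of_mem h
          rw [hupd x (mem_insert_of_mem hx), hupd _ hp]
          exact fadj x hx
      · intro x hx hin
        rcases hmem x hx with rfl | hx
        · rw [Function.update_self]; exact hy2 hin
        · rw [hupd x hx]; exact fH x hx hin
  obtain ⟨f, finj, fadj, -⟩ := main (univ.erase ρ) (fun w hw => ne_of_mem_erase hw) (by
    intro w _
    by_cases h : par w = ρ
    · exact Or.inl h
    · exact Or.inr (mem_erase.2 ⟨h, mem_univ _⟩))
  refine ⟨f, ?_, fun w hw => fadj w (mem_erase.2 ⟨hw, mem_univ _⟩)⟩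
  intro x y h
  have hall : ∀ x : α, x ∈ insert ρ (univ.erase ρ) := by
    intro x
    rw [insert_erase (mem_univ _)]
    exact mem_univ _
  exact finj (mem_coe.2 (hall x)) (mem_coe.2 (hall y)) h

/-- The size `a` of a largest independent set of inner vertices. -/
theorem exists_param {α : Type} [Fintype α] [DecidableEq α] (ρ : α) (par : α → α)
    (hρ : ∃ c, c ≠ ρ ∧ par c = ρ) :
    ∃ a : ℕ, 1 ≤ a ∧ 2 * a ≤ Fintype.card α ∧
      (∀ J : Finset α, Indep ρ par J → (∀ x ∈ J, Inner ρ par x) → J.card ≤ a) ∧
      (∀ J : Finset α, Indep ρ par J → J.card + a ≤ Fintype.card α) := by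
  classical
  obtain ⟨A, hA, hmax⟩ := exists_max_image
    ((univ : Finset (Finset α)).filter (fun J => Indep ρ par J ∧ ∀ x ∈ J, Inner ρ par x))
    Finset.card ⟨∅, by simp [Indep]⟩
  have hA' := (mem_filter.1 hA).2
  have hch : ∀ y, ∃ c, Inner ρ par y → (c ≠ ρ ∧ par c = y) := by
    intro y
    by_cases h : Inner ρ par y
    · rcases h with h | ⟨c, hc⟩
      · obtain ⟨c, hc⟩ := hρ
        exact ⟨c, fun _ => by rw [h]; exact hc⟩
      · exact ⟨c, fun _ => hc⟩
    · exact ⟨y, fun h' => absurd h' h⟩
  choose ch hch using hch
  have key : ∀ J : Finset α, Indep ρ par J → J.card + A.card ≤ Fintype.card α := by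
    intro J hJ
    have h1 : A.card ≤ (univ \ J).card := by
      apply card_le_card_of_injOn (fun y => if y ∈ J then ch y else y)
      · intro y hy
        have hy' := hch y (hA'.2 y (mem_coe.1 hy))
        refine mem_coe.2 (mem_sdiff.2 ⟨mem_univ _, ?_⟩)
        dsimp only
        split_ifs with h
        · intro h'
          apply hJ _ h' hy'.1
          rw [hy'.2]; exact h
        · exact h
      · intro y hy y' hy' h
        have e1 := hch y (hA'.2 y (mem_coe.1 hy))
        have e2 := hch y' (hA'.2 y' (mem_coe.1 hy'))
        dsimp only at h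
        split_ifs at h with g1 g2 g2
        · rw [← e1.2, ← e2.2, h]
        · exfalso
          apply hA'.1 y' (mem_coe.1 hy') (h ▸ e1.1)
          rw [← h, e1.2]; exact mem_coe.1 hy
        · exfalso
          apply hA'.1 y (mem_coe.1 hy) (h ▸ e2.1)
          rw [h, e2.2]; exact mem_coe.1 hy'
        · exact h
    rw [card_sdiff_of_subset (subset_univ _), card_univ] at h1
    have := card_le_univ J
    omega
  refine ⟨A.card, ?_, ?_, ?_, key⟩
  · have := hmax {ρ} (mem_filter.2 ⟨mem_univ _, ?_, ?_⟩)
    · simpa using this
    · intro x hx hx'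
      exact absurd (mem_singleton.1 hx) hx'
    · intro x hx
      exact Or.inl (mem_singleton.1 hx)
  · have := key A hA'.1
    omega
  · intro J h1 h2
    exact hmax J (mem_filter.2 ⟨mem_univ _, h1, h2⟩)

end Pool.Agent.Lib.MP_2b1ae8_co
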