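import Mathlib

set_option autoImplicit false

namespace Pool.Agent.Lib.MP_2b1ae8_co

open Finset

variable {V : Type} [Fintype V] [DecidableEq V]

/-- Neighbours inside `A`. -/
def bk (N : V → Finset V) (A : Finset V) (x : V) : ℕ := ((N x).filter (· ∈ A)).card

/-- Small neighbours outside `A`. -/
def fs (N : V → Finset V) (d : ℕ) (A : Finset V) (x : V) : ℕ :=
  ((N x).filter (fun y => y ∉ A ∧ (N y).card < 8 * d)).card

/-- Big neighbours outside `A`. -/
def fb (N : V → Finset V) (d : ℕ) (A : Finset V) (x : V) : ℕ :=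
  ((N x).filter (fun y => y ∉ A ∧ ¬ (N y).card < 8 * d)).card

/-- Weight of a vertex. -/
def wt (N : V → Finset V) (d : ℕ) (y : V) : ℕ := if (N y).card < 8 * d then 6 else 1

/-- Weighted boundary. -/
def Phi (N : V → Finset V) (d : ℕ) (A : Finset V) : ℕ :=
  ∑ y ∈ univ \ A, wt N d y * bk N A y

/-- The potential. -/
def pot (N : V → Finset V) (d : ℕ) (A : Finset V) : ℕ := 2 * Phi N d A + d * A.card

omit [Fintype V] in
theorem card_split (N : V → Finset V) (d : ℕ) (A : Finset V) (x : V) :
    (N x).card = fs N d A x + fb N d A x + bk N A x := by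
  unfold fs fb bk
  rw [card_filter, card_filter, card_filter, ← sum_add_distrib, ← sum_add_distrib,
    card_eq_sum_ones]
  apply sum_congr rfl
  intro y _
  by_cases h1 : y ∈ A <;> by_cases h2 : (N y).card < 8 * d <;> simp [h1, h2]

theorem Phi_insert (N : V → Finset V) (hs : ∀ x y, y ∈ N x → x ∈ N y) (hi : ∀ x, x ∉ N x)
    (d : ℕ) (A : Finset V) (x : V) (hx : x ∉ A) :
    Phi N d (insert x A) + wt N d x * bk N A x =
      Phi N d A + (6 * fs N d A x + fb N d A x) := by
  have h1 : univ \ A = insert x (univ \ insert x A) := by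
    ext y
    by_cases h : y = x
    · simp [h, hx]
    · simp [h]
  have hx' : x ∉ univ \ insert x A := by simp
  have h2 : ∀ y ∈ univ \ insert x A, wt N d y * bk N (insert x A) y =
      wt N d y * bk N A y + if y ∈ N x then wt N d y else 0 := by
    intro y _
    unfold bk
    by_cases h : y ∈ N x
    · have : (N y).filter (· ∈ insert x A) = insert x ((N y).filter (· ∈ A)) := by
        ext z
        by_cases hz : z = x
        · simp [hz, hs x y h]
        · simp [hz]
      rw [this, card_insert_of_notMem (by simp [hx]), if_pos h]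
      ring
    · have : (N y).filter (· ∈ insert x A) = (N y).filter (· ∈ A) := by
        ext z
        by_cases hz : z = x
        · have : x ∉ N y := fun h' => h (hs y x h')
          simp [hz, this]
        · simp [hz]
      rw [this, if_neg h, add_zero]
  have h3 : ∑ y ∈ univ \ insert x A, (if y ∈ N x then wt N d y else 0) =
      6 * fs N d A x + fb N d A x := by
    rw [← sum_filter]
    have : (univ \ insert x A).filter (· ∈ N x) = (N x).filter (· ∉ A) := by
      ext z
      by_cases hz : z = x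
      · simp [hz, hi x]
      · simp [hz, and_comm]
    rw [this]
    unfold fs fb wt
    rw [sum_filter, card_filter, card_filter, mul_sum, ← sum_add_distrib]
    apply sum_congr rfl
    intro y _
    by_cases g1 : y ∈ A <;> by_cases g2 : (N y).card < 8 * d <;> simp [g1, g2]
  unfold Phi
  rw [sum_congr rfl h2, sum_add_distrib, h3]
  conv_rhs => rw [h1, sum_insert hx']
  ring

theorem pot_union (N : V → Finset V) (hs : ∀ x y, y ∈ N x → x ∈ N y) (hi : ∀ x, x ∉ N x)
    (d c : ℕ) (A S : Finset V) (hS : ∀ x ∈ S, (N x).card ≤ c) :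
    pot N d (A ∪ S) ≤ pot N d A + (d + 12 * c) * S.card := by
  induction S using Finset.induction_on with
  | empty => simp
  | insert x S hx ih =>
    have h1 := ih (fun y hy => hS y (mem_insert_of_mem hy))
    rw [card_insert_of_notMem hx, union_insert]
    by_cases h : x ∈ A ∪ S
    · rw [insert_eq_of_mem h]
      nlinarith
    · have h2 := Phi_insert N hs hi d (A ∪ S) x h
      have h3 := card_split N d (A ∪ S) x
      have h4 := hS x (mem_insert_self _ _)
      unfold pot at h1 ⊢
      rw [card_insert_of_notMem h]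
      nlinarith [Nat.zero_le (wt N d x * bk N (A ∪ S) x)]

/-- Vertices outside a closed set have many neighbours outside it. -/
def Closed (N : V → Finset V) (d : ℕ) (A : Finset V) : Prop :=
  ∀ x, x ∉ A → ((N x).card < 8 * d → 2 * fb N d A x < d → d ≤ 3 * fs N d A x + fb N d A x) ∧
    (¬ (N x).card < 8 * d → d ≤ fs N d A x)

theorem exists_closed (N : V → Finset V) (hs : ∀ x y, y ∈ N x → x ∈ N y) (hi : ∀ x, x ∉ N x)
    (d : ℕ) (hbig : ∀ x y, y ∈ N x → (N x).card < 8 * d ∨ (N y).card < 8 * d)
    (A : Finset V) (hA : ∀ x, x ∉ A → d ≤ (N x).card) :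
    ∃ B, A ⊆ B ∧ Closed N d B ∧ pot N d B ≤ pot N d A := by
  obtain ⟨B, hB, hmin⟩ := exists_min_image ((univ : Finset (Finset V)).filter (A ⊆ ·))
    (pot N d) ⟨A, by simp⟩
  have hAB : A ⊆ B := (mem_filter.1 hB).2
  refine ⟨B, hAB, ?_, hmin A (by simp)⟩
  intro x hx
  have h1 := hmin (insert x B) (mem_filter.2 ⟨mem_univ _, hAB.trans (subset_insert _ _)⟩)
  have h2 := Phi_insert N hs hi d B x hx
  have h3 := card_split N d B x
  have h4 := hA x (fun h => hx (hAB h))
  unfold pot at h1
  rw [card_insert_of_notMem hx, mul_add, mul_one] at h1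
  constructor
  · intro g1 g2
    rw [wt, if_pos g1] at h2
    omega
  · intro g1
    have g2 : fb N d B x = 0 := by
      unfold fb
      rw [card_eq_zero, filter_eq_empty_iff]
      rintro y hy ⟨-, hy'⟩
      rcases hbig x y hy with h | h
      · exact g1 h
      · exact hy' h
    rw [wt, if_neg g1] at h2
    omega

/-- One round: add the cheaply endangered vertices, then all small neighbours, then close. -/
theorem exists_next (N : V → Finset V) (hs : ∀ x y, y ∈ N x → x ∈ N y) (hi : ∀ x, x ∉ N x)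
    (d : ℕ) (hd : 1 ≤ d) (hbig : ∀ x y, y ∈ N x → (N x).card < 8 * d ∨ (N y).card < 8 * d)
    (A : Finset V) (hA : ∀ x, x ∉ A → d ≤ (N x).card) :
    ∃ B, A ⊆ B ∧ Closed N d B ∧ pot N d B ≤ 500 * d * pot N d A ∧
      (∀ x ∈ A, ∀ y ∈ N x, (N y).card < 8 * d → y ∈ B) ∧
      (∀ x, (N x).card < 8 * d → d < 6 * bk N A x → ∀ y ∈ N x, (N y).card < 8 * d → y ∈ B) := by
  have key : ∀ (C : Finset V) (t : ℕ) (S : Finset V),
      (∀ y ∈ S, y ∉ C ∧ (N y).card < 8 * d ∧ t ≤ 6 * bk N C y) → t * S.card ≤ Phi N d C := by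
    intro C t S hS
    unfold Phi
    calc t * S.card = ∑ _y ∈ S, t := by rw [sum_const, smul_eq_mul, mul_comm]
      _ ≤ ∑ y ∈ S, wt N d y * bk N C y := by
          apply sum_le_sum
          intro y hy
          rw [wt, if_pos (hS y hy).2.1]
          exact (hS y hy).2.2
      _ ≤ _ := by
          apply sum_le_sum_of_subset
          intro y hy
          exact mem_sdiff.2 ⟨mem_univ _, (hS y hy).1⟩
  set S1 := univ.filter (fun y => y ∉ A ∧ (N y).card < 8 * d ∧ d ≤ 6 * bk N A y) with hS1
  have k1 := key A d S1 (fun y hy => (mem_filter.1 hy).2)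
  have p1 := pot_union N hs hi d (8 * d) A S1 (fun y hy => (mem_filter.1 hy).2.2.1.le)
  set A1 := A ∪ S1 with hA1
  set S2 := univ.filter (fun y => y ∉ A1 ∧ (N y).card < 8 * d ∧ 6 ≤ 6 * bk N A1 y) with hS2
  have k2 := key A1 6 S2 (fun y hy => (mem_filter.1 hy).2)
  have p2 := pot_union N hs hi d (8 * d) A1 S2 (fun y hy => (mem_filter.1 hy).2.2.1.le)
  have hsub : A ⊆ A1 ∪ S2 := subset_union_left.trans subset_union_left
  obtain ⟨B, hB, hcl, hp⟩ := exists_closed N hs hi d hbig (A1 ∪ S2)
    (fun x hx => hA x (fun h => hx (hsub h)))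
  have hnb : ∀ x ∈ A1, ∀ y ∈ N x, (N y).card < 8 * d → y ∈ B := by
    intro x hx y hy hy'
    apply hB
    by_cases g : y ∈ A1
    · exact mem_union_left _ g
    · refine mem_union_right _ (mem_filter.2 ⟨mem_univ _, g, hy', ?_⟩)
      have : 0 < bk N A1 y := card_pos.2 ⟨x, mem_filter.2 ⟨hs x y hy, hx⟩⟩
      omega
  refine ⟨B, hsub.trans hB, hcl, ?_, fun x hx => hnb x (mem_union_left _ hx), ?_⟩
  · have q1 : 2 * Phi N d A ≤ pot N d A := Nat.le_add_right _ _
    have q2 : 2 * Phi N d A1 ≤ pot N d A1 := Nat.le_add_right _ _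
    have q3 : pot N d A1 ≤ 50 * pot N d A := by nlinarith
    have q4 : 12 * S2.card ≤ pot N d A1 := by omega
    have q5 : 12 * pot N d (A1 ∪ S2) ≤ 12 * pot N d A1 + 97 * d * pot N d A1 := by
      have := Nat.mul_le_mul_left (97 * d) q4
      nlinarith
    have q6 : pot N d (A1 ∪ S2) ≤ 10 * d * pot N d A1 := by
      have := Nat.mul_le_mul_right (pot N d A1) hd
      nlinarith
    have := Nat.mul_le_mul_left (10 * d) q3
    nlinarith
  · intro x h1 h2
    apply hnb
    by_cases g : x ∈ A
    · exact mem_union_left _ g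
    · exact mem_union_right _ (mem_filter.2 ⟨mem_univ _, g, h1, h2.le⟩)

end Pool.Agent.Lib.MP_2b1ae8_co
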