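import Mathlib

set_option autoImplicit false

namespace Pool.Agent.Lib.MP_2b1ae8_co

open Finset

variable {V : Type} [Fintype V] [DecidableEq V]

/-- Number of edges of `U` that meet `X`. -/
def touch (U : Finset (Sym2 V)) (X : Finset V) : ℕ :=
  (U.filter (fun e => ∃ x ∈ X, x ∈ e)).card

/-- Twice the number of edges of `G` inside `W`. -/
def dsum (G : SimpleGraph V) [DecidableRel G.Adj] (W : Finset V) : ℕ :=
  ∑ x ∈ W, (W.filter (G.Adj x)).card

omit [Fintype V] in
theorem touch_le (U : Finset (Sym2 V)) (X : Finset V) : touch U X ≤ U.card :=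
  card_filter_le _ _

omit [Fintype V] in
theorem touch_mono (U : Finset (Sym2 V)) {X Y : Finset V} (h : X ⊆ Y) : touch U X ≤ touch U Y := by
  apply card_le_card
  intro e he
  obtain ⟨h1, x, hx, hxe⟩ := mem_filter.1 he
  exact mem_filter.2 ⟨h1, x, h hx, hxe⟩

omit [Fintype V] in
theorem touch_insert (U : Finset (Sym2 V)) (X B : Finset V) (v : V) (hv : v ∉ X)
    (hB : ∀ y ∈ B, y ∉ X ∧ s(v, y) ∈ U) : touch U X + B.card ≤ touch U (insert v X) := by
  have hinj : Set.InjOn (fun y => s(v, y)) (↑B : Set V) := by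
    intro y _ y' _ h
    exact Sym2.congr_right.1 h
  rw [← card_image_of_injOn hinj]
  unfold touch
  rw [← card_union_of_disjoint]
  · apply card_le_card
    intro e he
    rcases mem_union.1 he with he | he
    · obtain ⟨h1, x, hx, hxe⟩ := mem_filter.1 he
      exact mem_filter.2 ⟨h1, x, mem_insert_of_mem hx, hxe⟩
    · obtain ⟨y, hy, rfl⟩ := mem_image.1 he
      exact mem_filter.2 ⟨(hB y hy).2, v, mem_insert_self _ _, Sym2.mem_mk_left _ _⟩
  · rw [disjoint_left]
    intro e he he'
    obtain ⟨_, x, hx, hxe⟩ := mem_filter.1 he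
    obtain ⟨y, hy, rfl⟩ := mem_image.1 he'
    rcases Sym2.mem_iff.1 hxe with rfl | rfl
    · exact hv hx
    · exact (hB x hy).1 hx

omit [Fintype V] in
theorem dsum_insert (G : SimpleGraph V) [DecidableRel G.Adj] (W : Finset V) (v : V)
    (hv : v ∉ W) : dsum G (insert v W) = dsum G W + 2 * (W.filter (G.Adj v)).card := by
  unfold dsum
  rw [sum_insert hv]
  have h1 : (insert v W).filter (G.Adj v) = W.filter (G.Adj v) := by
    rw [filter_insert, if_neg G.irrefl]
  have h2 : ∀ x ∈ W, ((insert v W).filter (G.Adj x)).card =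
      (W.filter (G.Adj x)).card + if G.Adj v x then 1 else 0 := by
    intro x _
    rw [filter_insert]
    by_cases h : G.Adj x v
    · rw [if_pos h, if_pos h.symm, card_insert_of_notMem (fun h' => hv (mem_filter.1 h').1)]
    · rw [if_neg h, if_neg (fun h' => h h'.symm), add_zero]
  rw [h1, sum_congr rfl h2, sum_add_distrib, ← card_filter]
  ring

omit [Fintype V] in
theorem dsum_le (G : SimpleGraph V) [DecidableRel G.Adj] (W : Finset V) :
    dsum G W + W.card ≤ W.card * W.card := by
  induction W using Finset.induction_on with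
  | empty => simp [dsum]
  | insert v W hv ih =>
    rw [dsum_insert G W v hv, card_insert_of_notMem hv]
    have := card_filter_le W (G.Adj v)
    nlinarith

omit [Fintype V] in
/-- Mantel's bound inside `W`. -/
theorem dsum_le_of_tri (G : SimpleGraph V) [DecidableRel G.Adj]
    (htri : ∀ x y z, G.Adj x y → G.Adj y z → ¬ G.Adj x z) (W : Finset V) :
    2 * dsum G W ≤ W.card * W.card := by
  rcases W.eq_empty_or_nonempty with rfl | hW
  · simp [dsum]
  obtain ⟨v, _, hmax⟩ := exists_max_image W (fun x => (W.filter (G.Adj x)).card) hW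
  set N := W.filter (G.Adj v) with hN
  have hNW : N ⊆ W := filter_subset _ _
  have hc : (W \ N).card + N.card = W.card := card_sdiff_add_card_eq_card hNW
  have h1 : ∑ x ∈ N, (W.filter (G.Adj x)).card ≤ N.card * (W \ N).card := by
    rw [← smul_eq_mul]
    apply sum_le_card_nsmul
    intro x hx
    apply card_le_card
    intro y hy
    refine mem_sdiff.2 ⟨(mem_filter.1 hy).1, fun h => ?_⟩
    exact htri v x y (mem_filter.1 hx).2 (mem_filter.1 hy).2 (mem_filter.1 h).2
  have h2 : ∑ x ∈ W \ N, (W.filter (G.Adj x)).card ≤ (W \ N).card * N.card := by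
    rw [← smul_eq_mul]
    apply sum_le_card_nsmul
    intro x hx
    exact hmax x (mem_sdiff.1 hx).1
  have h3 : dsum G W = ∑ x ∈ W \ N, (W.filter (G.Adj x)).card +
      ∑ x ∈ N, (W.filter (G.Adj x)).card := (sum_sdiff hNW).symm
  rw [h3, ← hc]
  nlinarith [sq_nonneg (((W \ N).card : ℤ) - N.card)]

/-- If no nonempty set outside `Z` has large free minimum degree, peeling exhibits many used
edges. -/
theorem peel (G : SimpleGraph V) [DecidableRel G.Adj] (U : Finset (Sym2 V)) (k : ℕ)
    (hdeg : ∀ v, k ≤ (univ.filter (G.Adj v)).card + 1)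
    (Z : Finset V) (r1 r : ℕ) (hr : ∀ v, (Z.filter (G.Adj v)).card ≤ r)
    (hno : ∀ H : Finset V, H.Nonempty → Disjoint H Z →
      ∃ v ∈ H, (H.filter (fun y => G.Adj v y ∧ s(v, y) ∉ U)).card < r1) :
    ∀ τ : ℕ, τ + Z.card ≤ Fintype.card V → ∃ W : Finset V, Disjoint W Z ∧ W.card = τ ∧
      2 * touch U Z + 2 * k * τ ≤ 2 * touch U (Z ∪ W) + 2 * (r1 + r) * τ + dsum G W := by
  intro τ
  induction τ with
  | zero => intro _; exact ⟨∅, by simp, rfl, by simp [dsum]⟩
  | succ τ ih =>
    intro hτ
    obtain ⟨W, hWZ, hW, hin⟩ := ih (by omega)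
    set H : Finset V := univ \ (Z ∪ W) with hH
    have hHne : H.Nonempty := by
      rw [← card_pos, hH, card_sdiff_of_subset (subset_univ _), card_univ]
      have := card_union_le Z W
      omega
    have hHZ : Disjoint H Z := by
      rw [disjoint_left]
      intro x hx hx'
      exact (mem_sdiff.1 hx).2 (mem_union_left _ hx')
    obtain ⟨v, hv, hvc⟩ := hno H hHne hHZ
    have hv' : v ∉ Z ∪ W := (mem_sdiff.1 hv).2
    have hvW : v ∉ W := fun h => hv' (mem_union_right _ h)
    have hvZ : v ∉ Z := fun h => hv' (mem_union_left _ h)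
    set B := H.filter (fun y => s(v, y) ∈ U) with hB
    have ht := touch_insert U (Z ∪ W) B v hv' (fun y hy =>
      ⟨(mem_sdiff.1 (mem_filter.1 hy).1).2, (mem_filter.1 hy).2⟩)
    have hsub : univ.filter (G.Adj v) ⊆ ((Z.filter (G.Adj v) ∪ W.filter (G.Adj v)) ∪
        H.filter (fun y => G.Adj v y ∧ s(v, y) ∉ U)) ∪ B := by
      intro y hy
      have hy' := (mem_filter.1 hy).2
      simp only [mem_union, mem_filter, hB, hH, mem_sdiff, mem_univ, true_and]
      by_cases g1 : y ∈ Z <;> by_cases g2 : y ∈ W <;> by_cases g3 : s(v, y) ∈ U <;> simp_all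
    have hc := card_le_card hsub
    have c1 := card_union_le ((Z.filter (G.Adj v) ∪ W.filter (G.Adj v)) ∪
        H.filter (fun y => G.Adj v y ∧ s(v, y) ∉ U)) B
    have c2 := card_union_le (Z.filter (G.Adj v) ∪ W.filter (G.Adj v))
        (H.filter (fun y => G.Adj v y ∧ s(v, y) ∉ U))
    have c3 := card_union_le (Z.filter (G.Adj v)) (W.filter (G.Adj v))
    have c4 := hr v
    have c5 := hdeg v
    refine ⟨insert v W, ?_, by rw [card_insert_of_notMem hvW, hW], ?_⟩
    · rw [disjoint_insert_left]; exact ⟨hvZ, hWZ⟩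
    · rw [dsum_insert G W v hvW, union_insert]
      have c6 : k ≤ r1 + r + (W.filter (G.Adj v)).card + B.card := by omega
      nlinarith

omit [Fintype V] in
/-- An independent set each of whose vertices meets `p` used edges of `G`. -/
theorem touch_indep (G : SimpleGraph V) [DecidableRel G.Adj] (U : Finset (Sym2 V)) (p : ℕ)
    (I : Finset V) (hI : ∀ x ∈ I, ∀ y ∈ I, ¬ G.Adj x y)
    (hp : ∀ z ∈ I, ∃ B : Finset V, p ≤ B.card ∧ ∀ y ∈ B, G.Adj z y ∧ s(z, y) ∈ U) :
    p * I.card ≤ touch U I := by
  induction I using Finset.induction_on with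
  | empty => simp
  | insert v I hv ih =>
    have h1 := ih (fun x hx y hy => hI x (mem_insert_of_mem hx) y (mem_insert_of_mem hy))
      (fun z hz => hp z (mem_insert_of_mem hz))
    obtain ⟨B, hB, hB'⟩ := hp v (mem_insert_self _ _)
    have h2 := touch_insert U I B v hv (fun y hy =>
      ⟨fun h => hI v (mem_insert_self _ _) y (mem_insert_of_mem h) (hB' y hy).1, (hB' y hy).2⟩)
    rw [card_insert_of_notMem hv]
    nlinarith

end Pool.Agent.Lib.MP_2b1ae8_co
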