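import Mathlib
import Pool.Agent.Lib.MP_2b1ae8_co.Embed
import Pool.Agent.Lib.MP_2b1ae8_co.Peel

set_option autoImplicit false

namespace Pool.Agent.Lib.MP_2b1ae8_co

open Finset

variable {V : Type} [Fintype V] [DecidableEq V]

omit [Fintype V] [DecidableEq V] in
theorem edges_of_parent {α : Type} (T : SimpleGraph α) (G : SimpleGraph V) (U : Finset (Sym2 V))
    (ρ : α) (par : α → α)
    (hT : ∀ a b, T.Adj a b → (a ≠ ρ ∧ b = par a) ∨ (b ≠ ρ ∧ a = par b)) (f : α → V)
    (hf : ∀ w, w ≠ ρ → (G.deleteEdges (↑U : Set (Sym2 V))).Adj (f w) (f (par w))) :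
    ∀ a b, T.Adj a b → G.Adj (f a) (f b) ∧ s(f a, f b) ∉ U := by
  intro a b hab
  have : (G.deleteEdges (↑U : Set (Sym2 V))).Adj (f a) (f b) := by
    rcases hT a b hab with ⟨h1, h2⟩ | ⟨h1, h2⟩
    · rw [h2]; exact hf a h1
    · rw [h2]; exact (hf b h1).symm
  rw [SimpleGraph.deleteEdges_adj] at this
  exact ⟨this.1, fun h => this.2 (mem_coe.2 h)⟩

/-- One more tree fits, in an arbitrary host, when few edges are used. -/
theorem step_general [Nonempty V] (G : SimpleGraph V) [DecidableRel G.Adj] (k : ℕ)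
    (hdeg : ∀ v, k ≤ (univ.filter (G.Adj v)).card + 1) (i : ℕ) (hi : 1 ≤ i) (hik : i ≤ k)
    (T : SimpleGraph (Fin i)) (hT : T.IsTree) (U : Finset (Sym2 V))
    (hU : 2 * U.card < (k + 1 - i) * (k + 2 - i)) :
    ∃ g : Fin i → V, Function.Injective g ∧
      ∀ a b, T.Adj a b → G.Adj (g a) (g b) ∧ s(g a, g b) ∉ U := by
  classical
  let ρ : Fin i := ⟨0, hi⟩
  obtain ⟨par, d, hd, hpar⟩ := exists_parent T hT ρ
  by_cases hex : ∃ H : Finset V, H.Nonempty ∧
      ∀ v ∈ H, i - 1 ≤ (H.filter (fun y => G.Adj v y ∧ s(v, y) ∉ U)).card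
  · obtain ⟨H, hH, hH'⟩ := hex
    have hb : ∀ J : Finset (Fin i), J ≠ univ → J.card ≤ i - 1 := by
      intro J hJ
      have := card_lt_card (ssubset_univ_iff.2 hJ)
      rw [card_univ, Fintype.card_fin] at this
      omega
    have h1 : ∀ v ∈ H, i - 1 ≤ (H.filter ((G.deleteEdges (↑U : Set (Sym2 V))).Adj v)).card := by
      intro v hv
      refine (hH' v hv).trans (card_le_card ?_)
      intro y hy
      have := mem_filter.1 hy
      exact mem_filter.2 ⟨this.1, SimpleGraph.deleteEdges_adj.2 ⟨this.2.1, fun h => this.2.2 h⟩⟩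
    obtain ⟨f, hf1, hf2⟩ := embed (G.deleteEdges (↑U : Set (Sym2 V))) ρ par d hd False
      (fun h => h.elim) H hH (i - 1) (i - 1) h1
      (fun v hv => (h1 v hv).trans (card_le_card (filter_subset_filter _ (subset_univ _))))
      (fun J hJ _ _ => hb J hJ) (fun J hJ _ => hb J hJ)
    exact ⟨f, hf1, edges_of_parent T G U ρ par hpar f hf2⟩
  · exfalso
    have hno : ∀ H : Finset V, H.Nonempty → Disjoint H ∅ →
        ∃ v ∈ H, (H.filter (fun y => G.Adj v y ∧ s(v, y) ∉ U)).card < i - 1 := by
      intro H hH _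
      by_contra hc
      push Not at hc
      exact hex ⟨H, hH, hc⟩
    obtain ⟨v0⟩ := ‹Nonempty V›
    have hn : k ≤ Fintype.card V := by
      have h1 := hdeg v0
      have h2 : (univ.filter (G.Adj v0)).card < (univ : Finset V).card := by
        apply card_lt_card
        refine ssubset_univ_iff.2 (fun h => ?_)
        have : v0 ∈ univ.filter (G.Adj v0) := by rw [h]; exact mem_univ _
        exact G.irrefl (mem_filter.1 this).2
      rw [card_univ] at h2
      omega
    obtain ⟨W, -, hW, hin⟩ := peel G U k hdeg ∅ (i - 1) 0 (by simp) hno (k + 1 - i)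
      (by simp; omega)
    have h1 := touch_le U (∅ ∪ W)
    have h2 := dsum_le G W
    rw [hW] at h2
    obtain ⟨j, rfl⟩ : ∃ j, i = j + 1 := ⟨i - 1, by omega⟩
    obtain ⟨q, rfl⟩ : ∃ q, k = j + q := ⟨k - j, by omega⟩
    have e1 : j + q + 1 - (j + 1) = q := by omega
    have e2 : j + q + 2 - (j + 1) = q + 1 := by omega
    have e3 : j + 1 - 1 + 0 = j := by omega
    rw [e1] at hin h2 hU
    rw [e2] at hU
    rw [e3] at hin
    nlinarith

/-- One more tree fits in a triangle-free host. -/
theorem step_tri [Nonempty V] (G : SimpleGraph V) [DecidableRel G.Adj]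
    (htri : ∀ x y z, G.Adj x y → G.Adj y z → ¬ G.Adj x z) (k : ℕ)
    (hdeg : ∀ v, k ≤ (univ.filter (G.Adj v)).card + 1) (i : ℕ) (hi : 2 ≤ i) (hik : i ≤ k)
    (T : SimpleGraph (Fin i)) (hT : T.IsTree) (U : Finset (Sym2 V))
    (hU : 2 * U.card + i * (i - 1) ≤ k * (k - 1)) :
    ∃ g : Fin i → V, Function.Injective g ∧
      ∀ a b, T.Adj a b → G.Adj (g a) (g b) ∧ s(g a, g b) ∉ U := by
  classical
  let ρ : Fin i := ⟨0, by omega⟩
  obtain ⟨par, d, hd, hpar⟩ := exists_parent T hT ρ
  have hρ : ∃ c, c ≠ ρ ∧ par c = ρ := by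
    have hne : (⟨1, by omega⟩ : Fin i) ≠ ρ := by simp [ρ, Fin.ext_iff]
    obtain ⟨p⟩ := hT.connected.preconnected ρ ⟨1, by omega⟩
    obtain ⟨b, hb⟩ : ∃ b, T.Adj ρ b := by
      generalize (⟨1, by omega⟩ : Fin i) = w at p hne
      cases p with
      | nil => exact absurd rfl hne
      | cons h _ => exact ⟨_, h⟩
    rcases hpar ρ b hb with ⟨h, _⟩ | ⟨h1, h2⟩
    · exact absurd rfl h
    · exact ⟨b, h1, h2.symm⟩
  obtain ⟨a, ha1, ha2, hb1, hb2⟩ := exists_param ρ par hρ
  rw [Fintype.card_fin] at ha2 hb2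
  set Z : Finset V := univ.filter
    (fun v => (univ.filter (fun y => G.Adj v y ∧ s(v, y) ∉ U)).card < i - a) with hZ
  by_cases hex : ∃ H : Finset V, H.Nonempty ∧ Disjoint H Z ∧
      ∀ v ∈ H, a ≤ (H.filter (fun y => G.Adj v y ∧ s(v, y) ∉ U)).card
  · obtain ⟨H, hH, hHZ, hH'⟩ := hex
    have hsub : ∀ (X : Finset V) v, X.filter (fun y => G.Adj v y ∧ s(v, y) ∉ U) ⊆
        X.filter ((G.deleteEdges (↑U : Set (Sym2 V))).Adj v) := by
      intro X v y hy
      have := mem_filter.1 hy
      exact mem_filter.2 ⟨this.1, SimpleGraph.deleteEdges_adj.2 ⟨this.2.1, fun h => this.2.2 h⟩⟩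
    obtain ⟨f, hf1, hf2⟩ := embed (G.deleteEdges (↑U : Set (Sym2 V))) ρ par d hd True
      (fun _ x y z h1 h2 h3 => htri x y z (SimpleGraph.deleteEdges_adj.1 h1).1
        (SimpleGraph.deleteEdges_adj.1 h2).1 (SimpleGraph.deleteEdges_adj.1 h3).1)
      H hH a (i - a) (fun v hv => (hH' v hv).trans (card_le_card (hsub H v)))
      (fun v hv => by
        refine le_trans ?_ (card_le_card (hsub univ v))
        by_contra hc
        exact disjoint_left.1 hHZ hv (mem_filter.2 ⟨mem_univ _, by omega⟩))
      (fun J _ hJ hJ' => hb1 J (hJ trivial) hJ')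
      (fun J _ hJ => by have := hb2 J (hJ trivial); omega)
    exact ⟨f, hf1, edges_of_parent T G U ρ par hpar f hf2⟩
  · exfalso
    have hno : ∀ H : Finset V, H.Nonempty → Disjoint H Z →
        ∃ v ∈ H, (H.filter (fun y => G.Adj v y ∧ s(v, y) ∉ U)).card < a := by
      intro H hH hHZ
      by_contra hc
      push Not at hc
      exact hex ⟨H, hH, hHZ, hc⟩
    obtain ⟨v0, -, hmax⟩ := exists_max_image (univ : Finset V)
      (fun v => (Z.filter (G.Adj v)).card) univ_nonempty
    set r := (Z.filter (G.Adj v0)).card with hr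
    have hI : (k - i + a) * r ≤ touch U Z := by
      refine le_trans (touch_indep G U (k - i + a) (Z.filter (G.Adj v0)) ?_ ?_)
        (touch_mono U (filter_subset _ _))
      · intro x hx y hy h
        exact htri v0 x y (mem_filter.1 hx).2 h (mem_filter.1 hy).2
      · intro z hz
        have hz' := (mem_filter.1 (mem_filter.1 hz).1).2
        refine ⟨univ.filter (fun y => G.Adj z y ∧ s(z, y) ∈ U), ?_,
          fun y hy => (mem_filter.1 hy).2⟩
        have h1 := hdeg z
        have h2 : univ.filter (G.Adj z) ⊆ univ.filter (fun y => G.Adj z y ∧ s(z, y) ∈ U) ∪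
            univ.filter (fun y => G.Adj z y ∧ s(z, y) ∉ U) := by
          intro y hy
          have := (mem_filter.1 hy).2
          by_cases g : s(z, y) ∈ U
          · exact mem_union_left _ (mem_filter.2 ⟨mem_univ _, this, g⟩)
          · exact mem_union_right _ (mem_filter.2 ⟨mem_univ _, this, g⟩)
        have h3 := (card_le_card h2).trans (card_union_le _ _)
        omega
    have hZU := touch_le U Z
    obtain ⟨x, rfl⟩ : ∃ x, k = i + x := ⟨k - i, by omega⟩
    obtain ⟨b, rfl⟩ : ∃ b, i = 2 * a + b := ⟨i - 2 * a, by omega⟩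
    obtain ⟨c, rfl⟩ : ∃ c, a = c + 1 := ⟨a - 1, by omega⟩
    have e1 : 2 * (c + 1) + b + x - (2 * (c + 1) + b) + (c + 1) = x + c + 1 := by omega
    have e2 : 2 * (c + 1) + b - 1 = 2 * c + 1 + b := by omega
    have e3 : 2 * (c + 1) + b + x - 1 = 2 * c + 1 + b + x := by omega
    rw [e1] at hI
    rw [e2, e3] at hU
    by_cases hrq : c + 1 + b + x ≤ r
    · have := Nat.mul_le_mul_left (x + c + 1) hrq
      nlinarith
    · obtain ⟨y, hy⟩ : ∃ y, c + 1 + b + x = r + y := ⟨c + 1 + b + x - r, by omega⟩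
      have hroom : 2 * y + Z.card ≤ Fintype.card V := by
        obtain ⟨v1, hv1⟩ : (univ.filter (G.Adj v0)).Nonempty := by
          rw [← card_pos]
          have := hdeg v0
          omega
        have hadj : G.Adj v0 v1 := (mem_filter.1 hv1).2
        have hN : ∀ v, y ≤ ((univ \ Z).filter (G.Adj v)).card := by
          intro v
          have h1 := hdeg v
          have h2 := hmax v (mem_univ _)
          have h3 : univ.filter (G.Adj v) ⊆ Z.filter (G.Adj v) ∪ (univ \ Z).filter (G.Adj v) := by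
            intro w hw
            have := (mem_filter.1 hw).2
            by_cases g : w ∈ Z
            · exact mem_union_left _ (mem_filter.2 ⟨g, this⟩)
            · exact mem_union_right _ (mem_filter.2 ⟨mem_sdiff.2 ⟨mem_univ _, g⟩, this⟩)
          have h4 := (card_le_card h3).trans (card_union_le _ _)
          omega
        have hdisj : Disjoint ((univ \ Z).filter (G.Adj v0)) ((univ \ Z).filter (G.Adj v1)) := by
          rw [disjoint_left]
          intro w h1 h2
          exact htri v0 v1 w hadj (mem_filter.1 h2).2 (mem_filter.1 h1).2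
        have h5 : ((univ \ Z).filter (G.Adj v0) ∪ (univ \ Z).filter (G.Adj v1)).card ≤
            (univ \ Z).card :=
          card_le_card (union_subset (filter_subset _ _) (filter_subset _ _))
        rw [card_union_of_disjoint hdisj, card_sdiff_of_subset (subset_univ _), card_univ] at h5
        have h6 := hN v0
        have h7 := hN v1
        have h8 := card_le_univ Z
        omega
      obtain ⟨W, -, hW, hin⟩ := peel G U _ hdeg Z (c + 1) r (fun v => hmax v (mem_univ _)) hno
        (2 * y) hroom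
      have h1 := touch_le U (Z ∪ W)
      have h2 := dsum_le_of_tri G htri W
      rw [hW] at h2
      have h3 : 2 * (c + 1) + b + x = c + 1 + r + y := by omega
      rw [h3] at hin
      have h4 : (x + c + 1) * r + y * y ≤ U.card := by nlinarith
      have h5 : (r : ℤ) = c + 1 + b + x - y := by omega
      zify at h4 hU
      rw [h5] at h4
      nlinarith [sq_nonneg (2 * (y : ℤ) - (x + c + 1)), sq_nonneg ((x : ℤ) - (c + 1)),
        Int.natCast_nonneg c, Int.natCast_nonneg b, Int.natCast_nonneg x,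
        mul_nonneg (Int.natCast_nonneg c) (Int.natCast_nonneg b),
        mul_nonneg (Int.natCast_nonneg c) (Int.natCast_nonneg c)]

omit [Fintype V] in
/-- Packing the trees one at a time, largest first. -/
theorem pack [Nonempty V] (G : SimpleGraph V) (s : ℕ) (T : (i : ℕ) → SimpleGraph (Fin i))
    (hT : ∀ i, 2 ≤ i → i ≤ s → (T i).IsTree)
    (hstep : ∀ i, 2 ≤ i → i ≤ s → ∀ U : Finset (Sym2 V), 2 * U.card + i * (i - 1) ≤ s * (s - 1) →
      ∃ g : Fin i → V, Function.Injective g ∧
        ∀ a b, (T i).Adj a b → G.Adj (g a) (g b) ∧ s(g a, g b) ∉ U) :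
    ∃ f : (i : ℕ) → Fin i → V,
      (∀ i, 2 ≤ i → i ≤ s → Function.Injective (f i) ∧
          ∀ a b : Fin i, (T i).Adj a b → G.Adj (f i a) (f i b)) ∧
      (∀ i j, 2 ≤ i → i ≤ s → 2 ≤ j → j ≤ s → i ≠ j →
          ∀ (a b : Fin i) (c d : Fin j), (T i).Adj a b → (T j).Adj c d →
            s(f i a, f i b) ≠ s(f j c, f j d)) := by
  classical
  have main : ∀ t m : ℕ, m + t = s → 1 ≤ m → ∃ (f : (i : ℕ) → Fin i → V) (U : Finset (Sym2 V)),
      2 * U.card + m * (m - 1) ≤ s * (s - 1) ∧
      (∀ i, m < i → i ≤ s → Function.Injective (f i) ∧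
          ∀ a b : Fin i, (T i).Adj a b → G.Adj (f i a) (f i b) ∧ s(f i a, f i b) ∈ U) ∧
      (∀ i j, m < i → i ≤ s → m < j → j ≤ s → i ≠ j →
          ∀ (a b : Fin i) (c d : Fin j), (T i).Adj a b → (T j).Adj c d →
            s(f i a, f i b) ≠ s(f j c, f j d)) := by
    intro t
    induction t with
    | zero =>
      intro m hm _
      obtain ⟨v⟩ := ‹Nonempty V›
      refine ⟨fun _ _ => v, ∅, by simp [← hm], fun i h1 h2 => by omega,
        fun i j h1 h2 => by omega⟩
    | succ t ih =>
      intro m hm h1m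
      obtain ⟨f, U, hU, hf, hdis⟩ := ih (m + 1) (by omega) (by omega)
      obtain ⟨g, hg1, hg2⟩ := hstep (m + 1) (by omega) (by omega) U hU
      have hc := (hT (m + 1) (by omega) (by omega)).card_edgeFinset
      rw [Fintype.card_fin] at hc
      refine ⟨Function.update f (m + 1) g, U ∪ (T (m + 1)).edgeFinset.image (Sym2.map g),
        ?_, ?_, ?_⟩
      · have h1 := card_union_le U ((T (m + 1)).edgeFinset.image (Sym2.map g))
        have h2 : ((T (m + 1)).edgeFinset.image (Sym2.map g)).card ≤ m :=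
          card_image_le.trans (by omega)
        obtain ⟨n, rfl⟩ : ∃ n, m = n + 1 := ⟨m - 1, by omega⟩
        simp only [Nat.add_sub_cancel] at hU ⊢
        nlinarith
      · intro i hi1 hi2
        by_cases h : i = m + 1
        · subst h
          rw [Function.update_self]
          refine ⟨hg1, fun a b hab => ⟨(hg2 a b hab).1, mem_union_right _ ?_⟩⟩
          exact mem_image.2 ⟨s(a, b), SimpleGraph.mem_edgeFinset.2 hab, rfl⟩
        · rw [Function.update_of_ne h]
          obtain ⟨k1, k2⟩ := hf i (by omega) hi2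
          exact ⟨k1, fun a b hab => ⟨(k2 a b hab).1, mem_union_left _ (k2 a b hab).2⟩⟩
      · intro i j hi1 hi2 hj1 hj2 hij a b c d hab hcd
        by_cases h : i = m + 1
        · subst h
          have hj : j ≠ m + 1 := fun h => hij h.symm
          rw [Function.update_self, Function.update_of_ne hj]
          intro e
          apply (hg2 a b hab).2
          rw [e]
          exact ((hf j (by omega) hj2).2 c d hcd).2
        · by_cases h' : j = m + 1
          · subst h'
            rw [Function.update_self, Function.update_of_ne h]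
            intro e
            apply (hg2 c d hcd).2
            rw [← e]
            exact ((hf i (by omega) hi2).2 a b hab).2
          · rw [Function.update_of_ne h, Function.update_of_ne h']
            exact hdis i j (by omega) hi2 (by omega) hj2 hij a b c d hab hcd
  by_cases hs : 1 ≤ s
  · obtain ⟨f, U, -, hf, hdis⟩ := main (s - 1) 1 (by omega) le_rfl
    exact ⟨f, fun i h1 h2 => ⟨(hf i (by omega) h2).1, fun a b hab =>
      ((hf i (by omega) h2).2 a b hab).1⟩,
      fun i j h1 h2 h3 h4 => hdis i j (by omega) h2 (by omega) h4⟩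
  · obtain ⟨v⟩ := ‹Nonempty V›
    exact ⟨fun _ _ => v, fun i h1 h2 => by omega, fun i j h1 h2 => by omega⟩

end Pool.Agent.Lib.MP_2b1ae8_co
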