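import Mathlib
import Pool.Agent.Lib.MP_2b1ae8_co.Embed
import Pool.Agent.Lib.MP_2b1ae8_co.Danger

set_option autoImplicit false

namespace Pool.Agent.Lib.MP_2b1ae8_co

open Finset

/-- Greedy embedding, inner vertices first, steered by an invariant of the set of images of the
inner vertices. -/
theorem embed_inv {α V : Type} [Fintype α] [DecidableEq α] [DecidableEq V]
    (N : V → Finset V) (hi : ∀ x, x ∉ N x) (ρ : α) (par : α → α) (dp : α → ℕ)
    (hd : ∀ w, w ≠ ρ → dp (par w) < dp w) (d : ℕ) (hα : Fintype.card α ≤ d + 1)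
    (hind : ∀ J : Finset α, Indep ρ par J → (∀ x ∈ J, Inner ρ par x) → 2 * J.card ≤ d + 1)
    (hleaf : ∃ l, ¬ Inner ρ par l)
    (big : V → Prop) [DecidablePred big] (hbig : ∀ x y, y ∈ N x → big x → ¬ big y)
    (Inv : Finset V → Prop) (v0 : V) (h0 : Inv {v0})
    (hdeg : ∀ X, Inv X → ∀ x ∈ X, d ≤ (N x).card)
    (hstep : ∀ X, Inv X → X.card < d → ∀ x ∈ X, (¬ big x → 2 * (X.filter big).card < d) →
      ∃ y ∈ N x, y ∉ X ∧ Inv (insert y X)) :
    ∃ f : α → V, Function.Injective f ∧ ∀ w, w ≠ ρ → f w ∈ N (f (par w)) := by
  classical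
  set M : ℕ := univ.sup dp + 1 with hM
  have hdM : ∀ x, dp x < M := fun x => Nat.lt_succ_of_le (le_sup (f := dp) (mem_univ x))
  let key : α → ℕ := fun x => if Inner ρ par x then dp x else M
  have main : ∀ S : Finset α, (∀ w ∈ S, w ≠ ρ) → (∀ w ∈ S, par w = ρ ∨ par w ∈ S) →
      ∃ f : α → V, Set.InjOn f (↑(insert ρ S) : Set α) ∧ (∀ w ∈ S, f w ∈ N (f (par w))) ∧
        Inv (((insert ρ S).filter (Inner ρ par)).image f) := by
    intro S
    induction S using Finset.induction_on_max_value key with
    | empty =>
      intro _ _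
      refine ⟨fun _ => v0, ?_, by simp, ?_⟩
      · intro x hx y hy _
        simp at hx hy
        rw [hx, hy]
      · have : Inner ρ par ρ := Or.inl rfl
        simpa [filter_singleton, this] using h0
    | insert w S hwS hmax ih =>
      intro hne hcl
      have hwρ : w ≠ ρ := hne w (mem_insert_self _ _)
      have hne' : ∀ x ∈ S, x ≠ ρ := fun x hx => hne x (mem_insert_of_mem hx)
      have hpw : ∀ x ∈ S, par x ≠ w := by
        intro x hx hxw
        have hin : Inner ρ par w := Or.inr ⟨x, hne' x hx, hxw⟩
        have k1 := hmax x hx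
        have k2 := hd x (hne' x hx)
        have k3 := hdM w
        rw [hxw] at k2
        simp only [key, if_pos hin] at k1
        split_ifs at k1 <;> omega
      have hcl' : ∀ x ∈ S, par x = ρ ∨ par x ∈ S := by
        intro x hx
        rcases hcl x (mem_insert_of_mem hx) with h | h
        · exact Or.inl h
        · rcases mem_insert.1 h with h | h
          · exact absurd h (hpw x hx)
          · exact Or.inr h
      obtain ⟨f, finj, fadj, fI⟩ := ih hne' hcl'
      have huw : par w ≠ w := by
        intro h
        have := hd w hwρ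
        rw [h] at this
        exact lt_irrefl _ this
      have huS : par w ∈ insert ρ S := by
        rcases hcl w (mem_insert_self _ _) with h | h
        · rw [h]; exact mem_insert_self _ _
        · rcases mem_insert.1 h with h | h
          · exact absurd h huw
          · exact mem_insert_of_mem h
      have huX : f (par w) ∈ ((insert ρ S).filter (Inner ρ par)).image f :=
        mem_image_of_mem f (mem_filter.2 ⟨huS, Or.inr ⟨w, hwρ, rfl⟩⟩)
      have hwS' : w ∉ insert ρ S := by
        intro h
        rcases mem_insert.1 h with h | h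
        · exact hwρ h
        · exact hwS h
      have hex : ∃ y ∈ N (f (par w)), y ∉ (insert ρ S).image f ∧
          (Inner ρ par w → Inv (insert y (((insert ρ S).filter (Inner ρ par)).image f))) := by
        by_cases hin : Inner ρ par w
        · have hall : ∀ x ∈ insert ρ S, Inner ρ par x := by
            intro x hx
            rcases mem_insert.1 hx with h | h
            · exact Or.inl h
            · by_contra hn
              have k1 := hmax x h
              have k3 := hdM w
              simp only [key, if_pos hin, if_neg hn] at k1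
              omega
          have hfil : (insert ρ S).filter (Inner ρ par) = insert ρ S := filter_true_of_mem hall
          rw [hfil] at fI huX ⊢
          obtain ⟨l, hl⟩ := hleaf
          have hc : ((insert ρ S).image f).card < d := by
            have h1 : (insert l (insert w (insert ρ S))).card ≤ Fintype.card α := card_le_univ _
            have hl1 : l ∉ insert w (insert ρ S) := by
              intro h
              rcases mem_insert.1 h with h | h
              · exact hl (h ▸ hin)
              · exact hl (hall l h)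
            rw [card_insert_of_notMem hl1, card_insert_of_notMem hwS'] at h1
            have := card_image_le (s := insert ρ S) (f := f)
            omega
          obtain ⟨y, hy1, hy2, hy3⟩ := hstep _ fI hc _ huX (by
            intro hnb
            set J := (insert ρ S).filter (fun x => big (f x)) with hJ
            have hwJ : w ∉ J := fun h => hwS' (mem_filter.1 h).1
            have h1 := hind (insert w J) (by
              intro x hx hxρ hpx
              rcases mem_insert.1 hx with rfl | hx
              · rcases mem_insert.1 hpx with h | h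
                · exact huw h
                · exact hnb (mem_filter.1 h).2
              · have hx1 := mem_filter.1 hx
                have hxS : x ∈ S := by
                  rcases mem_insert.1 hx1.1 with h | h
                  · exact absurd h hxρ
                  · exact h
                rcases mem_insert.1 hpx with h | h
                · exact hpw x hxS h
                · exact hbig _ _ (fadj x hxS) (mem_filter.1 h).2 hx1.2) (by
              intro x hx
              rcases mem_insert.1 hx with rfl | hx
              · exact hin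
              · exact hall x (mem_filter.1 hx).1)
            rw [card_insert_of_notMem hwJ] at h1
            have h2 : (((insert ρ S).image f).filter big).card ≤ J.card := by
              rw [filter_image]
              exact card_image_le
            omega)
          exact ⟨y, hy1, hy2, fun _ => hy3⟩
        · have e1 := hdeg _ fI _ huX
          have e2 : (insert w (insert ρ S)).card ≤ Fintype.card α := card_le_univ _
          rw [card_insert_of_notMem hwS'] at e2
          have e3 : (((insert ρ S).erase (par w)).image f).card < (N (f (par w))).card := by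
            refine lt_of_le_of_lt card_image_le ?_
            rw [card_erase_of_mem huS]
            have := card_pos.2 ⟨_, huS⟩
            omega
          obtain ⟨y, hy, hy'⟩ := exists_mem_notMem_of_card_lt_card e3
          refine ⟨y, hy, ?_, fun h => absurd h hin⟩
          intro h
          obtain ⟨x, hx, rfl⟩ := mem_image.1 h
          by_cases g : x = par w
          · rw [g] at hy; exact hi _ hy
          · exact hy' (mem_image_of_mem f (mem_erase.2 ⟨g, hx⟩))
      obtain ⟨y, hy1, hy3, hy2⟩ := hex
      have hynew : ∀ x ∈ insert ρ S, f x ≠ y := by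
        intro x hx h
        exact hy3 (mem_image.2 ⟨x, hx, h⟩)
      have hupd : ∀ x ∈ insert ρ S, Function.update f w y x = f x := by
        intro x hx
        apply Function.update_of_ne
        rintro rfl
        exact hwS' hx
      have hmem : ∀ x, x ∈ insert ρ (insert w S) → x = w ∨ x ∈ insert ρ S := by
        intro x hx
        rcases mem_insert.1 hx with h | h
        · right; rw [h]; exact mem_insert_self _ _
        · rcases mem_insert.1 h with h | h
          · exact Or.inl h
          · exact Or.inr (mem_insert_of_mem h)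
      refine ⟨Function.update f w y, ?_, ?_, ?_⟩
      · intro x hx x' hx' h
        rcases hmem x (mem_coe.1 hx) with g | g <;>
          rcases hmem x' (mem_coe.1 hx') with g' | g'
        · rw [g, g']
        · rw [g, Function.update_self, hupd x' g'] at h
          exact absurd h.symm (hynew x' g')
        · rw [g', Function.update_self, hupd x g] at h
          exact absurd h (hynew x g)
        · rw [hupd x g, hupd x' g'] at h
          exact finj (mem_coe.2 g) (mem_coe.2 g') h
      · intro x hx
        rcases mem_insert.1 hx with rfl | hx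
        · rw [Function.update_self, hupd _ huS]
          exact hy1
        · have hp : par x ∈ insert ρ S := by
            rcases hcl' x hx with h | h
            · rw [h]; exact mem_insert_self _ _
            · exact mem_insert_of_mem h
          rw [hupd x (mem_insert_of_mem hx), hupd _ hp]
          exact fadj x hx
      · have e0 : ((insert ρ S).filter (Inner ρ par)).image (Function.update f w y) =
            ((insert ρ S).filter (Inner ρ par)).image f :=
          image_congr (fun x hx => hupd x (mem_filter.1 (mem_coe.1 hx)).1)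
        rw [insert_comm, filter_insert]
        by_cases hin : Inner ρ par w
        · rw [if_pos hin, image_insert, Function.update_self, e0]
          exact hy2 hin
        · rw [if_neg hin, e0]
          exact fI
  obtain ⟨f, finj, fadj, -⟩ := main (univ.erase ρ) (fun w hw => ne_of_mem_erase hw) (by
    intro w _
    by_cases h : par w = ρ
    · exact Or.inl h
    · exact Or.inr (mem_erase.2 ⟨h, mem_univ _⟩))
  refine ⟨f, ?_, fun w hw => fadj w (mem_erase.2 ⟨hw, mem_univ _⟩)⟩
  intro x y h
  have hall : ∀ x : α, x ∈ insert ρ (univ.erase ρ) := by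
    intro x
    rw [insert_erase (mem_univ _)]
    exact mem_univ _
  exact finj (mem_coe.2 (hall x)) (mem_coe.2 (hall y)) h

variable {V : Type} [Fintype V] [DecidableEq V]

/-- The invariant of the steered embedding. -/
def Safe (N : V → Finset V) (d : ℕ) (E0 E1 E2 X : Finset V) : Prop :=
  (∀ x ∈ X, x ∉ E0) ∧
  ((∃ x ∈ X, x ∈ E1) → 2 * d ≤ 3 * (X.filter (fun y => y ∉ E1 ∧ (N y).card < 8 * d)).card +
    2 * (X.filter (fun y => ¬ (N y).card < 8 * d)).card) ∧
  ((∃ x ∈ X, x ∈ E2) → d ≤ 3 * (X.filter (fun y => y ∉ E2 ∧ (N y).card < 8 * d)).card +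
    (X.filter (fun y => ¬ (N y).card < 8 * d)).card)

omit [Fintype V] in
theorem safe_step (N : V → Finset V) (hs : ∀ x y, y ∈ N x → x ∈ N y) (d : ℕ)
    (E0 E1 E2 : Finset V) (h01 : E0 ⊆ E1) (h12 : E1 ⊆ E2)
    (hZ : ∀ x, x ∉ E0 → d ≤ (N x).card)
    (c0 : Closed N d E0) (c1 : Closed N d E1) (c2 : Closed N d E2)
    (n0 : ∀ x ∈ E0, ∀ y ∈ N x, (N y).card < 8 * d → y ∈ E1)
    (m0 : ∀ x, (N x).card < 8 * d → d < 6 * bk N E0 x → ∀ y ∈ N x, (N y).card < 8 * d → y ∈ E1)
    (n1 : ∀ x ∈ E1, ∀ y ∈ N x, (N y).card < 8 * d → y ∈ E2)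
    (m1 : ∀ x, (N x).card < 8 * d → d < 6 * bk N E1 x → ∀ y ∈ N x, (N y).card < 8 * d → y ∈ E2)
    (X : Finset V) (hX : Safe N d E0 E1 E2 X) (hc : X.card < d) (x : V) (hx : x ∈ X)
    (hb : ¬ ¬ (N x).card < 8 * d → 2 * (X.filter (fun y => ¬ (N y).card < 8 * d)).card < d) :
    ∃ y ∈ N x, y ∉ X ∧ Safe N d E0 E1 E2 (insert y X) := by
  obtain ⟨s0, s1, s2⟩ := hX
  have hdx := hZ x (s0 x hx)
  have mono : ∀ (p : V → Prop) [DecidablePred p] (y : V),
      (X.filter p).card ≤ ((insert y X).filter p).card :=
    fun p _ y => card_le_card (filter_subset_filter _ (subset_insert _ _))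
  set B := (X.filter (fun y => ¬ (N y).card < 8 * d)).card with hB
  -- an entry into a closed set
  have entry : ∀ E : Finset V, Closed N d E → x ∉ E → (∀ y ∈ N x, y ∉ E → y ∈ X) →
      (N x).card < 8 * d ∧ 2 * B < d ∧ fb N d E x ≤ B ∧ d ≤ 3 * fs N d E x + fb N d E x := by
    intro E hE hxE hall
    have g1 : (N x).card < 8 * d := by
      by_contra g
      have k1 := (hE x hxE).2 g
      have k2 : fs N d E x ≤ X.card :=
        card_le_card (fun y hy => hall y (mem_filter.1 hy).1 (mem_filter.1 hy).2.1)
      omega
    have g2 := hb (not_not.2 g1)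
    have g3 : fb N d E x ≤ B := card_le_card (fun y hy =>
      mem_filter.2 ⟨hall y (mem_filter.1 hy).1 (mem_filter.1 hy).2.1, (mem_filter.1 hy).2.2⟩)
    exact ⟨g1, g2, g3, (hE x hxE).1 g1 (by omega)⟩
  have hfs : ∀ (E : Finset V) (p : V → Prop) [DecidablePred p], (∀ y ∈ N x, y ∉ E → y ∈ X) →
      (∀ y ∈ N x, y ∉ E → (N y).card < 8 * d → p y) → fs N d E x ≤ (X.filter p).card := by
    intro E p _ hall hp
    exact card_le_card (fun y hy => mem_filter.2 ⟨hall y (mem_filter.1 hy).1
      (mem_filter.1 hy).2.1, hp y (mem_filter.1 hy).1 (mem_filter.1 hy).2.1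
      (mem_filter.1 hy).2.2⟩)
  have split : ∀ E : Finset V, (X.filter (fun y => y ∈ E ∧ (N y).card < 8 * d)).card +
      (X.filter (fun y => y ∉ E ∧ (N y).card < 8 * d)).card + B = X.card := by
    intro E
    rw [hB, card_filter, card_filter, card_filter, ← sum_add_distrib, ← sum_add_distrib,
      card_eq_sum_ones]
    apply sum_congr rfl
    intro y _
    by_cases g1 : y ∈ E <;> by_cases g2 : (N y).card < 8 * d <;> simp [g1, g2]
  have t2 : (∀ y ∈ N x, y ∉ E2 → y ∈ X) →
      d ≤ 3 * (X.filter (fun y => y ∉ E2 ∧ (N y).card < 8 * d)).card + B := by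
    intro hall
    by_cases g : x ∈ E2
    · exact s2 ⟨x, hx, g⟩
    · obtain ⟨-, -, k3, k4⟩ := entry E2 c2 g hall
      have := hfs E2 (fun y => y ∉ E2 ∧ (N y).card < 8 * d) hall (fun y _ h1 h2 => ⟨h1, h2⟩)
      omega
  have t1 : (∀ y ∈ N x, y ∉ E1 → y ∈ X) →
      2 * d ≤ 3 * (X.filter (fun y => y ∉ E1 ∧ (N y).card < 8 * d)).card + 2 * B := by
    intro hall
    by_cases g : x ∈ E1
    · exact s1 ⟨x, hx, g⟩
    · obtain ⟨k1, k2, k3, k4⟩ := entry E1 c1 g hall
      by_cases gm : d < 6 * bk N E1 x
      · have u1 := hfs E1 (fun y => (y ∈ E2 ∧ y ∉ E1) ∧ (N y).card < 8 * d) hall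
          (fun y h0 h1 h2 => ⟨⟨m1 x k1 gm y h0 h2, h1⟩, h2⟩)
        have u2 := t2 (fun y h0 h1 => hall y h0 (fun h => h1 (h12 h)))
        have u3 : (X.filter (fun y => (y ∈ E2 ∧ y ∉ E1) ∧ (N y).card < 8 * d)).card +
            (X.filter (fun y => y ∉ E2 ∧ (N y).card < 8 * d)).card ≤
            (X.filter (fun y => y ∉ E1 ∧ (N y).card < 8 * d)).card := by
          rw [← card_union_of_disjoint]
          · apply card_le_card
            intro y hy
            rcases mem_union.1 hy with h | h
            · have := mem_filter.1 h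
              exact mem_filter.2 ⟨this.1, this.2.1.2, this.2.2⟩
            · have := mem_filter.1 h
              exact mem_filter.2 ⟨this.1, fun h' => this.2.1 (h12 h'), this.2.2⟩
          · rw [disjoint_left]
            intro y h1 h2
            exact (mem_filter.1 h2).2.1 (mem_filter.1 h1).2.1.1
        omega
      · have u1 := hfs E1 (fun y => y ∉ E1 ∧ (N y).card < 8 * d) hall (fun y _ h1 h2 => ⟨h1, h2⟩)
        have u2 := card_split N d E1 x
        omega
  have t0 : ¬ (∀ y ∈ N x, y ∉ E0 → y ∈ X) := by
    intro hall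
    obtain ⟨k1, k2, k3, k4⟩ := entry E0 c0 (s0 x hx) hall
    by_cases gm : d < 6 * bk N E0 x
    · have u1 := hfs E0 (fun y => y ∈ E1 ∧ (N y).card < 8 * d) hall
        (fun y h0 _ h2 => ⟨m0 x k1 gm y h0 h2, h2⟩)
      have u2 := t1 (fun y h0 h1 => hall y h0 (fun h => h1 (h01 h)))
      have u3 := split E1
      omega
    · have u2 := card_split N d E0 x
      by_cases g : x ∈ E1
      · have u1 := hfs E0 (fun y => y ∈ E2 ∧ (N y).card < 8 * d) hall
          (fun y h0 _ h2 => ⟨n1 x g y h0 h2, h2⟩)
        have u4 := s2 ⟨x, hx, h12 g⟩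
        have u3 := split E2
        omega
      · have u5 : bk N E0 x = 0 := by
          unfold bk
          rw [card_eq_zero, filter_eq_empty_iff]
          intro y hy hy'
          exact g (n0 y hy' x (hs x y hy) k1)
        have u1 := hfs E0 (fun y => (N y).card < 8 * d) hall (fun y _ _ h2 => h2)
        have u3 := card_filter_add_card_filter_not (s := X) (fun y => (N y).card < 8 * d)
        omega
  have fin : ∀ y, y ∉ E0 → (y ∈ E1 → ∀ y ∈ N x, y ∉ E1 → y ∈ X) →
      (y ∈ E2 → ∀ y ∈ N x, y ∉ E2 → y ∈ X) → Safe N d E0 E1 E2 (insert y X) := by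
    intro y g0 g1 g2
    have a1 := mono (fun y => y ∉ E1 ∧ (N y).card < 8 * d) y
    have a2 := mono (fun y => y ∉ E2 ∧ (N y).card < 8 * d) y
    have a3 := mono (fun y => ¬ (N y).card < 8 * d) y
    refine ⟨?_, ?_, ?_⟩
    · intro z hz
      rcases mem_insert.1 hz with rfl | hz
      · exact g0
      · exact s0 z hz
    · rintro ⟨z, hz, hz'⟩
      rcases mem_insert.1 hz with rfl | hz
      · have := t1 (g1 hz'); omega
      · have := s1 ⟨z, hz, hz'⟩; omega
    · rintro ⟨z, hz, hz'⟩
      rcases mem_insert.1 hz with rfl | hz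
      · have := t2 (g2 hz'); omega
      · have := s2 ⟨z, hz, hz'⟩; omega
  by_cases q2 : ∀ y ∈ N x, y ∉ E2 → y ∈ X
  · by_cases q1 : ∀ y ∈ N x, y ∉ E1 → y ∈ X
    · push Not at t0
      obtain ⟨y, h1, h2, h3⟩ := t0
      exact ⟨y, h1, h3, fin y h2 (fun _ => q1) (fun _ => q2)⟩
    · push Not at q1
      obtain ⟨y, h1, h2, h3⟩ := q1
      exact ⟨y, h1, h3, fin y (fun h => h2 (h01 h)) (fun h => absurd h h2) (fun _ => q2)⟩
  · push Not at q2
    obtain ⟨y, h1, h2, h3⟩ := q2
    exact ⟨y, h1, h3, fin y (fun h => h2 (h12 (h01 h))) (fun h => absurd (h12 h) h2)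
      (fun h => absurd h h2)⟩

/-- If all but `z` vertices have degree at least `d` and there are more than `3250000 z d ^ 2`
vertices, every tree with at most `d` edges embeds. -/
theorem robust {α : Type} [Fintype α] [DecidableEq α] (ρ : α) (par : α → α) (dp : α → ℕ)
    (hd : ∀ w, w ≠ ρ → dp (par w) < dp w) (hρ : ∃ c, c ≠ ρ ∧ par c = ρ)
    (d : ℕ) (hd1 : 1 ≤ d) (hα : Fintype.card α ≤ d + 1) (Z : Finset V)
    (hn : 3250000 * Z.card * d ^ 2 < Fintype.card V) :
    ∀ (t : ℕ) (N : V → Finset V), ∑ v, (N v).card = t → (∀ x y, y ∈ N x → x ∈ N y) →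
      (∀ x, x ∉ N x) → (∀ x, x ∉ Z → d ≤ (N x).card) →
      ∃ f : α → V, Function.Injective f ∧ ∀ w, w ≠ ρ → f w ∈ N (f (par w)) := by
  intro t
  induction t using Nat.strong_induction_on with
  | _ t ih =>
  intro N ht hs hi hZ
  by_cases hred : ∃ u v, v ∈ N u ∧ d < (N u).card ∧ d < (N v).card
  · obtain ⟨u, v, huv, hu, hv⟩ := hred
    have hne : u ≠ v := fun h => hi u (h ▸ huv)
    let N' : V → Finset V := fun w =>
      if w = u then (N u).erase v else if w = v then (N v).erase u else N w
    have hsub : ∀ w, N' w ⊆ N w := by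
      intro w
      simp only [N']
      split_ifs with h1 h2
      · rw [h1]; exact erase_subset _ _
      · rw [h2]; exact erase_subset _ _
      · exact subset_rfl
    have hlt : ∑ w, (N' w).card < t := by
      rw [← ht]
      apply sum_lt_sum (fun w _ => card_le_card (hsub w))
      refine ⟨u, mem_univ _, ?_⟩
      simp only [N', if_pos]
      exact card_erase_lt_of_mem huv
    obtain ⟨f, h1, h2⟩ := ih _ hlt N' rfl (by
        intro x y hy
        have hxy := hs x y (hsub x hy)
        simp only [N'] at hy ⊢
        by_cases a1 : x = u <;> by_cases a2 : x = v <;> by_cases a3 : y = u <;>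
          by_cases a4 : y = v <;> simp_all)
      (fun x hx => hi x (hsub x hx)) (by
        intro x hx
        simp only [N']
        split_ifs with h1 h2
        · rw [card_erase_of_mem huv]; omega
        · rw [card_erase_of_mem (hs u v huv)]; omega
        · exact hZ x hx)
    exact ⟨f, h1, fun w hw => hsub _ (h2 w hw)⟩
  · have hbig : ∀ x y, y ∈ N x → (N x).card < 8 * d ∨ (N y).card < 8 * d := by
      intro x y hy
      by_contra hc
      push Not at hc
      exact hred ⟨x, y, hy, by omega, by omega⟩
    set Z' := Z.filter (fun x => (N x).card < d) with hZ'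
    have hZ1 : ∀ x, x ∉ Z' → d ≤ (N x).card := by
      intro x hx
      by_contra hc
      by_cases g : x ∈ Z
      · exact hx (mem_filter.2 ⟨g, by omega⟩)
      · exact hc (hZ x g)
    have p0 := pot_union N hs hi d d ∅ Z' (fun x hx => (mem_filter.1 hx).2.le)
    have p00 : pot N d ∅ = 0 := by simp [pot, Phi, bk]
    rw [empty_union, p00] at p0
    obtain ⟨E0, h0, c0, q0⟩ := exists_closed N hs hi d hbig Z' hZ1
    have hZ2 : ∀ x, x ∉ E0 → d ≤ (N x).card := fun x hx => hZ1 x (fun h => hx (h0 h))
    obtain ⟨E1, h01, c1, q1, n0, m0⟩ := exists_next N hs hi d hd1 hbig E0 hZ2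
    obtain ⟨E2, h12, c2, q2, n1, m1⟩ := exists_next N hs hi d hd1 hbig E1
      (fun x hx => hZ2 x (fun h => hx (h01 h)))
    have hcard : E2.card < (univ : Finset V).card := by
      have r1 : d * E2.card ≤ pot N d E2 := Nat.le_add_left _ _
      have r2 : Z'.card ≤ Z.card := card_filter_le _ _
      have r3 : pot N d E0 ≤ 13 * d * Z.card := by nlinarith
      have r4 : pot N d E1 ≤ 500 * d * (13 * d * Z.card) :=
        q1.trans (Nat.mul_le_mul_left _ r3)
      have r5 : pot N d E2 ≤ 500 * d * (500 * d * (13 * d * Z.card)) :=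
        q2.trans (Nat.mul_le_mul_left _ r4)
      have r6 : d * E2.card ≤ d * (3250000 * Z.card * d ^ 2) := by
        calc d * E2.card ≤ _ := r1.trans r5
          _ = _ := by ring
      have r7 := Nat.le_of_mul_le_mul_left r6 hd1
      rw [card_univ]
      omega
    obtain ⟨v0, -, hv0⟩ := exists_mem_notMem_of_card_lt_card hcard
    obtain ⟨a, -, ha2, hb1, -⟩ := exists_param ρ par hρ
    refine embed_inv N hi ρ par dp hd d hα (fun J h1 h2 => by have := hb1 J h1 h2; omega) ?_
      (fun y => ¬ (N y).card < 8 * d) ?_ (Safe N d E0 E1 E2) v0 ?_ (fun X hX x hx => hZ2 x (hX.1 x hx))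
      (fun X hX hc x hx hb => safe_step N hs d E0 E1 E2 h01 h12 hZ2 c0 c1 c2 n0 m0 n1 m1 X hX hc
        x hx hb)
    · obtain ⟨c, hc, -⟩ := hρ
      obtain ⟨l, hl, hmax⟩ := exists_max_image (univ.erase ρ) dp ⟨c, mem_erase.2 ⟨hc, mem_univ _⟩⟩
      refine ⟨l, ?_⟩
      rintro (h | ⟨c', h1, h2⟩)
      · exact ne_of_mem_erase hl h
      · have k1 := hmax c' (mem_erase.2 ⟨h1, mem_univ _⟩)
        have k2 := hd c' h1
        rw [h2] at k2
        omega
    · intro x y hy h1 h2
      rcases hbig x y hy with h | h
      · exact h1 h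
      · exact h2 h
    · refine ⟨?_, ?_, ?_⟩
      · intro x hx h
        rw [mem_singleton.1 hx] at h
        exact hv0 (h12 (h01 h))
      · rintro ⟨x, hx, h⟩
        rw [mem_singleton.1 hx] at h
        exact absurd (h12 h) hv0
      · rintro ⟨x, hx, h⟩
        rw [mem_singleton.1 hx] at h
        exact absurd h hv0

end Pool.Agent.Lib.MP_2b1ae8_co
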