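import Mathlib
import Pool.Agent.Lib.MP_2b1ae8_co.Pack
import Pool.Agent.Lib.MP_2b1ae8_co.Robust

set_option autoImplicit false

namespace Pool.Agent.Lib.MP_2b1ae8_co

open Finset

variable {V : Type} [Fintype V] [DecidableEq V]

theorem sum_loss_le (U : Finset (Sym2 V)) :
    ∑ v, (univ.filter (fun y => s(v, y) ∈ U)).card ≤ 2 * U.card := by
  have h1 : ∀ v, (univ.filter (fun y => s(v, y) ∈ U)).card ≤ (U.filter (fun e => v ∈ e)).card := by
    intro v
    apply card_le_card_of_injOn (fun y => s(v, y))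
    · intro y hy
      exact mem_coe.2 (mem_filter.2 ⟨(mem_filter.1 (mem_coe.1 hy)).2, Sym2.mem_mk_left _ _⟩)
    · intro y _ y' _ h
      exact Sym2.congr_right.1 h
  have h2 : ∀ e : Sym2 V, (univ.filter (fun v => v ∈ e)).card ≤ 2 := by
    intro e
    induction e using Sym2.ind with
    | h a b =>
      refine le_trans (card_le_card (t := {a, b}) ?_) card_le_two
      intro v hv
      simpa using (mem_filter.1 hv).2
  calc _ ≤ ∑ v, (U.filter (fun e => v ∈ e)).card := sum_le_sum (fun v _ => h1 v)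
    _ = ∑ e ∈ U, (univ.filter (fun v => v ∈ e)).card := by
        simp only [card_filter]
        exact sum_comm
    _ ≤ ∑ _e ∈ U, 2 := sum_le_sum (fun e _ => h2 e)
    _ = 2 * U.card := by rw [sum_const, smul_eq_mul, mul_comm]

/-- One more tree fits in a large host. -/
theorem step_large (G : SimpleGraph V) [DecidableRel G.Adj] (k : ℕ)
    (hn : 6500000 * k ^ 3 ≤ Fintype.card V)
    (hdeg : ∀ v, k ≤ (univ.filter (G.Adj v)).card + 1) (i : ℕ) (hi : 2 ≤ i) (hik : i ≤ k)
    (T : SimpleGraph (Fin i)) (hT : T.IsTree) (U : Finset (Sym2 V))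
    (hU : 2 * U.card + i * (i - 1) ≤ k * (k - 1)) :
    ∃ g : Fin i → V, Function.Injective g ∧
      ∀ a b, T.Adj a b → G.Adj (g a) (g b) ∧ s(g a, g b) ∉ U := by
  classical
  let ρ : Fin i := ⟨0, by omega⟩
  obtain ⟨par, dp, hd, hpar⟩ := exists_parent T hT ρ
  have hρ : ∃ c, c ≠ ρ ∧ par c = ρ := by
    have hne : (⟨1, by omega⟩ : Fin i) ≠ ρ := by simp [ρ, Fin.ext_iff]
    obtain ⟨p⟩ := hT.connected.preconnected ρ ⟨1, by omega⟩
    obtain ⟨b, hb⟩ : ∃ b, T.Adj ρ b := by
      generalize (⟨1, by omega⟩ : Fin i) = w at p hne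
      cases p with
      | nil => exact absurd rfl hne
      | cons h _ => exact ⟨_, h⟩
    rcases hpar ρ b hb with ⟨h, _⟩ | ⟨h1, h2⟩
    · exact absurd rfl h
    · exact ⟨b, h1, h2.symm⟩
  let N : V → Finset V := fun v => univ.filter (fun y => G.Adj v y ∧ s(v, y) ∉ U)
  set Z : Finset V := univ.filter (fun v => (N v).card < i - 1) with hZ
  have hZc : Z.card ≤ 2 * k := by
    have h1 : ∀ z ∈ Z, k - i + 1 ≤ (univ.filter (fun y => s(z, y) ∈ U)).card := by
      intro z hz
      have hz' := (mem_filter.1 hz).2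
      have h1 := hdeg z
      have h2 : univ.filter (G.Adj z) ⊆ univ.filter (fun y => s(z, y) ∈ U) ∪ N z := by
        intro y hy
        have := (mem_filter.1 hy).2
        by_cases g : s(z, y) ∈ U
        · exact mem_union_left _ (mem_filter.2 ⟨mem_univ _, g⟩)
        · exact mem_union_right _ (mem_filter.2 ⟨mem_univ _, this, g⟩)
      have h3 := (card_le_card h2).trans (card_union_le _ _)
      omega
    have h2 : Z.card * (k - i + 1) ≤ ∑ z ∈ Z, (univ.filter (fun y => s(z, y) ∈ U)).card := by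
      rw [← smul_eq_mul]
      exact card_nsmul_le_sum _ _ _ h1
    have h3 : ∑ z ∈ Z, (univ.filter (fun y => s(z, y) ∈ U)).card ≤ 2 * U.card :=
      (sum_le_sum_of_subset (subset_univ _)).trans (sum_loss_le U)
    obtain ⟨x, rfl⟩ : ∃ x, k = i + x := ⟨k - i, by omega⟩
    obtain ⟨j, rfl⟩ : ∃ j, i = j + 1 := ⟨i - 1, by omega⟩
    have e1 : j + 1 + x - (j + 1) + 1 = x + 1 := by omega
    have e2 : j + 1 + x - 1 = j + x := by omega
    rw [e1] at h2
    rw [e2, Nat.add_sub_cancel] at hU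
    have h4 : Z.card * (x + 1) ≤ 2 * (j + 1 + x) * (x + 1) := by nlinarith
    exact Nat.le_of_mul_le_mul_right h4 (by omega)
  have hlt : 3250000 * Z.card * (i - 1) ^ 2 < Fintype.card V := by
    have h1 : (i - 1) ^ 2 < k ^ 2 := Nat.pow_lt_pow_left (by omega) (by norm_num)
    calc 3250000 * Z.card * (i - 1) ^ 2 ≤ 3250000 * (2 * k) * (i - 1) ^ 2 := by gcongr
      _ < 3250000 * (2 * k) * k ^ 2 := Nat.mul_lt_mul_of_pos_left h1 (by omega)
      _ = 6500000 * k ^ 3 := by ring
      _ ≤ _ := hn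
  obtain ⟨f, hf1, hf2⟩ := robust ρ par dp hd hρ (i - 1) (by omega)
    (by rw [Fintype.card_fin]; omega) Z hlt _ N rfl
    (by
      intro x y hy
      have := (mem_filter.1 hy).2
      exact mem_filter.2 ⟨mem_univ _, this.1.symm, by rw [Sym2.eq_swap]; exact this.2⟩)
    (fun x hx => G.irrefl (mem_filter.1 hx).2.1)
    (fun x hx => by
      by_contra hc
      exact hx (mem_filter.2 ⟨mem_univ _, by omega⟩))
  refine ⟨f, hf1, edges_of_parent T G U ρ par hpar f (fun w hw => ?_)⟩
  have := (mem_filter.1 (hf2 w hw)).2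
  exact (SimpleGraph.deleteEdges_adj.2 ⟨this.1, fun h => this.2 h⟩).symm

end Pool.Agent.Lib.MP_2b1ae8_co
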