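import Mathlib

set_option autoImplicit false

namespace Pool.Agent.Lib.MP_2b1ae8_co.TN

open Finset
open scoped Classical

variable {α : Type}

/-- A tree rooted at `r`, described by a parent function and a depth. -/
structure Rooted (H : SimpleGraph α) (r : α) (par : α → α) (d : α → ℕ) : Prop where
  root : par r = r
  lt : ∀ v, v ≠ r → d (par v) < d v
  adj : ∀ u v, H.Adj u v ↔ (u ≠ r ∧ par u = v) ∨ (v ≠ r ∧ par v = u)

/-- The graph can be rooted anywhere. -/
def Tr (H : SimpleGraph α) : Prop := ∀ r, ∃ par d, Rooted H r par d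

theorem tr_of_isTree [Fintype α] (T : SimpleGraph α) (hT : T.IsTree) : Tr T := by
  intro ρ
  have h1 : ∀ w, ∃ u, (w = ρ → u = ρ) ∧ (w ≠ ρ → (T.Adj w u ∧ T.dist u ρ < T.dist w ρ)) := by
    intro w
    by_cases hw : w = ρ
    · exact ⟨ρ, fun _ => rfl, fun h => absurd hw h⟩
    · obtain ⟨p, hp⟩ := hT.connected.exists_walk_length_eq_dist w ρ
      cases p with
      | nil => exact absurd rfl hw
      | cons h q =>
        refine ⟨_, fun h => absurd h hw, fun _ => ⟨h, ?_⟩⟩
        have := SimpleGraph.dist_le q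
        simp only [SimpleGraph.Walk.length_cons] at hp
        omega
  choose par hpar0 hpar using h1
  refine ⟨par, fun w => T.dist w ρ, hpar0 ρ rfl, fun w hw => (hpar w hw).2, ?_⟩
  have hsub : (univ.erase ρ).image (fun w => s(w, par w)) ⊆ T.edgeFinset := by
    intro e he
    obtain ⟨w, hw, rfl⟩ := mem_image.1 he
    exact SimpleGraph.mem_edgeFinset.2 (hpar w (ne_of_mem_erase hw)).1
  have hinj : Set.InjOn (fun w => s(w, par w)) (↑(univ.erase ρ) : Set α) := by
    intro w hw w' hw' h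
    have hw1 : w ≠ ρ := ne_of_mem_erase (mem_coe.1 hw)
    have hw2 : w' ≠ ρ := ne_of_mem_erase (mem_coe.1 hw')
    rcases Sym2.eq_iff.1 h with ⟨h1, _⟩ | ⟨h1, h2⟩
    · exact h1
    · have a1 := (hpar w hw1).2
      have a2 := (hpar w' hw2).2
      rw [h2] at a1
      rw [← h1] at a2
      omega
  have hcard : ((univ.erase ρ).image (fun w => s(w, par w))).card = Fintype.card α - 1 := by
    rw [card_image_of_injOn hinj, card_erase_of_mem (mem_univ _), card_univ]
  have hc2 := hT.card_edgeFinset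
  have heq : (univ.erase ρ).image (fun w => s(w, par w)) = T.edgeFinset :=
    eq_of_subset_of_card_le hsub (by omega)
  intro a b
  constructor
  · intro hab
    have : s(a, b) ∈ T.edgeFinset := SimpleGraph.mem_edgeFinset.2 hab
    rw [← heq] at this
    obtain ⟨w, hw, he⟩ := mem_image.1 this
    have hw1 : w ≠ ρ := ne_of_mem_erase hw
    rcases Sym2.eq_iff.1 he with ⟨h1, h2⟩ | ⟨h1, h2⟩
    · left; subst h1; exact ⟨hw1, h2⟩
    · right; subst h1; exact ⟨hw1, h2⟩
  · rintro (⟨h1, h2⟩ | ⟨h1, h2⟩)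
    · rw [← h2]; exact (hpar a h1).1
    · rw [← h2]; exact (hpar b h1).1.symm

theorem Rooted.adj_par {H : SimpleGraph α} {r : α} {par : α → α} {d : α → ℕ}
    (R : Rooted H r par d) {v : α} (hv : v ≠ r) : H.Adj v (par v) :=
  (R.adj _ _).2 (Or.inl ⟨hv, rfl⟩)

theorem Rooted.par_ne {H : SimpleGraph α} {r : α} {par : α → α} {d : α → ℕ}
    (R : Rooted H r par d) {v : α} (hv : v ≠ r) : par v ≠ v := by
  intro h
  have := R.lt v hv
  rw [h] at this
  omega

/-- Nonempty connected finite vertex sets. -/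
inductive Conn (H : SimpleGraph α) : Finset α → Prop
  | single (v : α) : Conn H {v}
  | add (A : Finset α) (u v : α) : Conn H A → u ∈ A → H.Adj u v → Conn H (insert v A)

theorem Conn.nonempty {H : SimpleGraph α} {A : Finset α} (h : Conn H A) : A.Nonempty := by
  induction h with
  | single v => exact singleton_nonempty v
  | add A u v _ _ _ _ => exact insert_nonempty _ _

theorem Conn.top {H : SimpleGraph α} {r : α} {par : α → α} {d : α → ℕ}
    (R : Rooted H r par d) {A : Finset α} (h : Conn H A) :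
    ∃ t ∈ A, ∀ v ∈ A, v ≠ t → v ≠ r ∧ par v ∈ A := by
  induction h with
  | single v => exact ⟨v, mem_singleton_self v, fun w hw hne => absurd (mem_singleton.1 hw) hne⟩
  | add A u v _ hu huv ih =>
    obtain ⟨t, ht, hc⟩ := ih
    by_cases hvA : v ∈ A
    · rw [insert_eq_of_mem hvA]; exact ⟨t, ht, hc⟩
    rcases (R.adj u v).1 huv with ⟨h1, h2⟩ | ⟨h1, h2⟩
    · have hut : u = t := by
        by_contra hne
        exact hvA (h2 ▸ (hc u hu hne).2)
      refine ⟨v, mem_insert_self _ _, fun w hw hne => ?_⟩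
      have hwA : w ∈ A := (mem_insert.1 hw).resolve_left hne
      by_cases hwt : w = t
      · rw [hwt, ← hut]; exact ⟨h1, h2 ▸ mem_insert_self _ _⟩
      · exact ⟨(hc w hwA hwt).1, mem_insert_of_mem (hc w hwA hwt).2⟩
    · refine ⟨t, mem_insert_of_mem ht, fun w hw hne => ?_⟩
      rcases mem_insert.1 hw with rfl | hwA
      · exact ⟨h1, mem_insert_of_mem (h2 ▸ hu)⟩
      · exact ⟨(hc w hwA hne).1, mem_insert_of_mem (hc w hwA hne).2⟩

theorem Conn.closed {H : SimpleGraph α} {r : α} {par : α → α} {d : α → ℕ}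
    (R : Rooted H r par d) {A : Finset α} (h : Conn H A) (hr : r ∈ A) :
    ∀ v ∈ A, par v ∈ A := by
  obtain ⟨t, _, hc⟩ := h.top R
  have htr : r = t := by
    by_contra hne
    exact (hc r hr hne).1 rfl
  intro v hv
  by_cases hvr : v = r
  · rw [hvr, R.root]; exact hr
  · exact (hc v hv (htr ▸ hvr)).2

theorem conn_of_top {H : SimpleGraph α} {r : α} {par : α → α} {d : α → ℕ}
    (R : Rooted H r par d) (t : α) :
    ∀ (n : ℕ) (A : Finset α), A.card = n → t ∈ A → (∀ v ∈ A, v ≠ t → v ≠ r ∧ par v ∈ A) →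
      Conn H A := by
  intro n
  induction n with
  | zero => intro A h ht; rw [card_eq_zero] at h; rw [h] at ht; exact absurd ht (notMem_empty _)
  | succ n ih =>
    intro A hA ht hc
    by_cases hne : (A.erase t).Nonempty
    · obtain ⟨v, hv, hmax⟩ := exists_max_image (A.erase t) d hne
      have hvt : v ≠ t := ne_of_mem_erase hv
      have hvA : v ∈ A := mem_of_mem_erase hv
      have h1 : Conn H (A.erase v) := by
        refine ih _ (by rw [card_erase_of_mem hvA]; omega) (mem_erase.2 ⟨hvt.symm, ht⟩) ?_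
        intro w hw hwt
        have hwA := mem_of_mem_erase hw
        refine ⟨(hc w hwA hwt).1, mem_erase.2 ⟨?_, (hc w hwA hwt).2⟩⟩
        intro hp
        have a1 := R.lt w (hc w hwA hwt).1
        have a2 := hmax w (mem_erase.2 ⟨hwt, hwA⟩)
        rw [hp] at a1
        omega
      have h2 := Conn.add _ (par v) v h1
        (mem_erase.2 ⟨R.par_ne (hc v hvA hvt).1, (hc v hvA hvt).2⟩)
        (R.adj_par (hc v hvA hvt).1).symm
      rwa [insert_erase hvA] at h2
    · have : A = {t} := by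
        rw [not_nonempty_iff_eq_empty] at hne
        ext w
        rw [mem_singleton]
        constructor
        · intro hw
          by_contra h
          have : w ∈ A.erase t := mem_erase.2 ⟨h, hw⟩
          rw [hne] at this
          exact notMem_empty _ this
        · rintro rfl; exact ht
      rw [this]; exact Conn.single t

theorem conn_of_closed {H : SimpleGraph α} {r : α} {par : α → α} {d : α → ℕ}
    (R : Rooted H r par d) {A : Finset α} (hr : r ∈ A) (hc : ∀ v ∈ A, v ≠ r → par v ∈ A) :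
    Conn H A :=
  conn_of_top R r _ A rfl hr (fun v hv hne => ⟨hne, hc v hv hne⟩)

theorem conn_univ [Fintype α] {H : SimpleGraph α} (hT : Tr H) (r : α) :
    Conn H (univ : Finset α) := by
  obtain ⟨par, d, R⟩ := hT r
  exact conn_of_closed R (mem_univ _) (fun v _ _ => mem_univ _)

/-- A vertex outside a connected set has at most one neighbour in it. -/
theorem Conn.uniq {H : SimpleGraph α} (hT : Tr H) {A : Finset α} (h : Conn H A) {v u1 u2 : α}
    (hv : v ∉ A) (h1 : u1 ∈ A) (h2 : u2 ∈ A) (a1 : H.Adj u1 v) (a2 : H.Adj u2 v) : u1 = u2 := by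
  obtain ⟨par, d, R⟩ := hT u1
  have hc := h.closed R h1
  have e1 : par v = u1 := by
    rcases (R.adj _ _).1 a1 with ⟨h, _⟩ | ⟨_, h⟩
    · exact absurd rfl h
    · exact h
  rcases (R.adj _ _).1 a2 with ⟨_, h'⟩ | ⟨_, h'⟩
  · exact absurd (h' ▸ hc u2 h2) hv
  · rw [← e1, h']

theorem Conn.step {H : SimpleGraph α} (hT : Tr H) {A B : Finset α} (hA : Conn H A)
    (hB : Conn H B) (hAB : A ⊆ B) (hne : A.card < B.card) :
    ∃ v ∈ B, v ∉ A ∧ ∃ u ∈ A, H.Adj u v := by
  obtain ⟨a, ha⟩ := hA.nonempty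
  obtain ⟨par, d, R⟩ := hT a
  have hc := hB.closed R (hAB ha)
  have hne' : (B \ A).Nonempty := by
    rw [← card_pos, card_sdiff_of_subset hAB]; omega
  obtain ⟨v, hv, hmin⟩ := exists_min_image (B \ A) d hne'
  obtain ⟨hvB, hvA⟩ := mem_sdiff.1 hv
  have hva : v ≠ a := fun h => hvA (h ▸ ha)
  refine ⟨v, hvB, hvA, par v, ?_, (R.adj_par hva).symm⟩
  by_contra hp
  have a1 := hmin (par v) (mem_sdiff.2 ⟨hc v hvB, hp⟩)
  have a2 := R.lt v hva
  omega

theorem Conn.grow {H : SimpleGraph α} (hT : Tr H) {A B : Finset α} (hA : Conn H A)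
    (hB : Conn H B) (hAB : A ⊆ B) (j : ℕ) (h1 : A.card ≤ j) (h2 : j ≤ B.card) :
    ∃ C, Conn H C ∧ A ⊆ C ∧ C ⊆ B ∧ C.card = j := by
  induction j, h1 using Nat.le_induction with
  | base => exact ⟨A, hA, Subset.refl _, hAB, rfl⟩
  | succ j _ ih =>
    obtain ⟨C, hC, h3, h4, h5⟩ := ih (by omega)
    obtain ⟨v, hvB, hvC, u, hu, huv⟩ := hC.step hT hB h4 (by omega)
    refine ⟨insert v C, Conn.add _ u v hC hu huv, h3.trans (subset_insert _ _),
      insert_subset hvB h4, ?_⟩
    rw [card_insert_of_notMem hvC, h5]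

/-- `v` is a leaf of `A` whose neighbour is `u`. -/
structure LfAt (H : SimpleGraph α) (A : Finset α) (v u : α) : Prop where
  mem : v ∈ A
  mem' : u ∈ A
  adj : H.Adj v u
  only : ∀ w ∈ A, H.Adj v w → w = u

theorem LfAt.par_eq {H : SimpleGraph α} {r : α} {par : α → α} {d : α → ℕ}
    (R : Rooted H r par d) {A : Finset α} (hc : ∀ w ∈ A, par w ∈ A) {v u : α}
    (h : LfAt H A v u) (hv : v ≠ r) : par v = u :=
  h.only _ (hc v h.mem) (R.adj_par hv)

theorem LfAt.no_child {H : SimpleGraph α} {r : α} {par : α → α} {d : α → ℕ}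
    (R : Rooted H r par d) {A : Finset α} (hc : ∀ w ∈ A, par w ∈ A) {v u : α}
    (h : LfAt H A v u) (hv : v ≠ r) : ∀ w ∈ A, w ≠ r → par w ≠ v := by
  intro w hw hwr hp
  have e1 := h.par_eq R hc hv
  have e2 : w = u := h.only w hw (hp ▸ (R.adj_par hwr).symm)
  have a1 := R.lt w hwr
  have a2 := R.lt v hv
  rw [hp] at a1
  rw [e1, ← e2] at a2
  omega

theorem lfAt_of_no_child {H : SimpleGraph α} {r : α} {par : α → α} {d : α → ℕ}
    (R : Rooted H r par d) {A : Finset α} {v : α} (hvA : v ∈ A) (hp : par v ∈ A) (hv : v ≠ r)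
    (h : ∀ w ∈ A, w ≠ r → par w ≠ v) : LfAt H A v (par v) := by
  refine ⟨hvA, hp, R.adj_par hv, fun w hw hvw => ?_⟩
  rcases (R.adj _ _).1 hvw with ⟨_, h'⟩ | ⟨h1, h'⟩
  · exact h'.symm
  · exact absurd h' (h w hw h1)

theorem Conn.erase_leaf {H : SimpleGraph α} (hT : Tr H) {A : Finset α} (hA : Conn H A)
    {v u : α} (h : LfAt H A v u) : Conn H (A.erase v) := by
  obtain ⟨par, d, R⟩ := hT u
  have hc := hA.closed R h.mem'
  have hvu : v ≠ u := h.adj.ne
  refine conn_of_closed R (mem_erase.2 ⟨hvu.symm, h.mem'⟩) (fun w hw hwu => ?_)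
  exact mem_erase.2 ⟨h.no_child R hc hvu w (mem_of_mem_erase hw) hwu, hc w (mem_of_mem_erase hw)⟩

theorem Conn.exists_leaf {H : SimpleGraph α} (hT : Tr H) {A : Finset α} (hA : Conn H A)
    {x : α} (hx : x ∈ A) (h2 : 2 ≤ A.card) : ∃ v u, v ≠ x ∧ LfAt H A v u := by
  obtain ⟨par, d, R⟩ := hT x
  have hc := hA.closed R hx
  have hne : (A.erase x).Nonempty := by
    rw [← card_pos, card_erase_of_mem hx]; omega
  obtain ⟨v, hv, hmax⟩ := exists_max_image _ d hne
  have hvx : v ≠ x := ne_of_mem_erase hv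
  have hvA := mem_of_mem_erase hv
  refine ⟨v, par v, hvx, lfAt_of_no_child R hvA (hc v hvA) hvx (fun w hw hwx hp => ?_)⟩
  have a1 := R.lt w hwx
  have a2 := hmax w (mem_erase.2 ⟨hwx, hw⟩)
  rw [hp] at a1
  omega

theorem Conn.two_leaves {H : SimpleGraph α} (hT : Tr H) {A : Finset α} (hA : Conn H A)
    {v u w : α} (h1 : LfAt H A v u) (h2 : LfAt H A u w) : A.card ≤ 2 := by
  by_contra hlt
  have hC : Conn H (insert v {u}) := Conn.add _ u v (Conn.single u) (mem_singleton_self _) h1.adj.symm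
  have hsub : (insert v {u} : Finset α) ⊆ A :=
    insert_subset h1.mem (singleton_subset_iff.2 h1.mem')
  obtain ⟨x, hxA, hx, y, hy, hyx⟩ := hC.step hT hA hsub (by
    have := card_le_two (a := v) (b := u); omega)
  have hw : v = w := h2.only v h1.mem h1.adj.symm
  rcases mem_insert.1 hy with rfl | hy
  · exact hx (by rw [h1.only x hxA hyx]; simp)
  · rw [mem_singleton.1 hy] at hyx
    exact hx (by rw [h2.only x hxA hyx, ← hw]; simp)

theorem Conn.nonstar {H : SimpleGraph α} (hT : Tr H) {A : Finset α} (hA : Conn H A)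
    {u : α} (hu : u ∈ A) (hns : ¬ ∀ w ∈ A, w ≠ u → H.Adj u w) :
    ∃ c2 u2, LfAt H A c2 u2 ∧ u2 ≠ u ∧ c2 ≠ u := by
  obtain ⟨par, d, R⟩ := hT u
  have hc := hA.closed R hu
  have hne : (A.filter (fun v => v ≠ u ∧ par v ≠ u)).Nonempty := by
    push Not at hns
    obtain ⟨w, hw, hwu, hn⟩ := hns
    refine ⟨w, mem_filter.2 ⟨hw, hwu, fun hp => hn ?_⟩⟩
    exact (R.adj _ _).2 (Or.inr ⟨hwu, hp⟩)
  obtain ⟨v, hv, hmax⟩ := exists_max_image _ d hne
  obtain ⟨hvA, hvu, hpv⟩ := mem_filter.1 hv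
  refine ⟨v, par v, lfAt_of_no_child R hvA (hc v hvA) hvu (fun w hw hwu hp => ?_), hpv, hvu⟩
  have a1 := R.lt w hwu
  have a2 := hmax w (mem_filter.2 ⟨hw, hwu, hp ▸ hvu⟩)
  rw [hp] at a1
  omega

theorem LfAt.mono {H : SimpleGraph α} {A B : Finset α} {v u : α} (h : LfAt H A v u)
    (hBA : B ⊆ A) (hv : v ∈ B) (hu : u ∈ B) : LfAt H B v u :=
  ⟨hv, hu, h.adj, fun w hw => h.only w (hBA hw)⟩

/-- Number of neighbours inside a finite set. -/
noncomputable def dg (H : SimpleGraph α) (A : Finset α) (v : α) : ℕ := (A.filter (H.Adj v)).card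

/-- Twice the number of edges inside a finite set. -/
noncomputable def ee (H : SimpleGraph α) (A : Finset α) : ℕ := ∑ v ∈ A, dg H A v

theorem dg_insert (H : SimpleGraph α) {A : Finset α} {v : α} (hv : v ∉ A) (w : α) :
    dg H (insert v A) w = dg H A w + if H.Adj w v then 1 else 0 := by
  unfold dg
  rw [filter_insert]
  split_ifs with h
  · rw [card_insert_of_notMem (fun h' => hv (mem_filter.1 h').1)]
  · rfl

theorem dg_mono (H : SimpleGraph α) {A B : Finset α} (h : A ⊆ B) (w : α) :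
    dg H A w ≤ dg H B w := card_le_card (filter_subset_filter _ h)

theorem dg_erase (H : SimpleGraph α) {A : Finset α} {v : α} (hv : v ∈ A) (w : α) :
    dg H A w = dg H (A.erase v) w + if H.Adj w v then 1 else 0 := by
  rw [← dg_insert H (notMem_erase v A), insert_erase hv]

theorem ee_insert (H : SimpleGraph α) {A : Finset α} {v : α} (hv : v ∉ A) :
    ee H (insert v A) = ee H A + 2 * dg H A v := by
  unfold ee
  rw [sum_insert hv, dg_insert H hv v, if_neg (H.irrefl), sum_congr rfl (fun w _ => dg_insert H hv w),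
    sum_add_distrib]
  have : ∑ w ∈ A, (if H.Adj w v then 1 else 0) = dg H A v := by
    rw [← card_filter]
    unfold dg
    congr 1
    exact filter_congr (fun w _ => H.adj_comm _ _)
  omega

theorem ee_erase (H : SimpleGraph α) {A : Finset α} {v : α} (hv : v ∈ A) :
    ee H A = ee H (A.erase v) + 2 * dg H A v := by
  have h1 := ee_insert H (notMem_erase v A)
  rw [insert_erase hv] at h1
  have h2 := dg_erase H hv v
  rw [if_neg H.irrefl] at h2
  omega

theorem ee_mono (H : SimpleGraph α) {A B : Finset α} (h : A ⊆ B) : ee H A ≤ ee H B :=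
  (sum_le_sum (fun v _ => dg_mono H h v)).trans (sum_le_sum_of_subset h)

theorem dg_eq_one {H : SimpleGraph α} {A : Finset α} {v u : α} (hu : u ∈ A) (h : H.Adj v u)
    (ho : ∀ w ∈ A, H.Adj v w → w = u) : dg H A v = 1 := by
  unfold dg
  rw [card_eq_one]
  refine ⟨u, ?_⟩
  ext w
  rw [mem_filter, mem_singleton]
  exact ⟨fun h' => ho w h'.1 h'.2, fun h' => h' ▸ ⟨hu, h⟩⟩

theorem lfAt_of_dg {H : SimpleGraph α} {A : Finset α} {v : α} (hv : v ∈ A) (h : dg H A v = 1) :
    ∃ u, LfAt H A v u := by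
  unfold dg at h
  obtain ⟨u, hu⟩ := card_eq_one.1 h
  have h1 : u ∈ A.filter (H.Adj v) := by rw [hu]; exact mem_singleton_self _
  refine ⟨u, hv, (mem_filter.1 h1).1, (mem_filter.1 h1).2, fun w hw hvw => ?_⟩
  have : w ∈ A.filter (H.Adj v) := mem_filter.2 ⟨hw, hvw⟩
  rw [hu] at this
  exact mem_singleton.1 this

theorem LfAt.dg {H : SimpleGraph α} {A : Finset α} {v u : α} (h : LfAt H A v u) :
    dg H A v = 1 := dg_eq_one h.mem' h.adj h.only

theorem Conn.ee_eq {H : SimpleGraph α} (hT : Tr H) {A : Finset α} (hA : Conn H A) :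
    ee H A + 2 = 2 * A.card := by
  induction hA with
  | single v => simp [ee, dg]
  | add A u v hA hu huv ih =>
    by_cases hv : v ∈ A
    · rw [insert_eq_of_mem hv]; exact ih
    · rw [ee_insert H hv, card_insert_of_notMem hv,
        dg_eq_one hu huv.symm (fun w hw hvw => hA.uniq hT hv hw hu hvw.symm huv)]
      omega

theorem Conn.dg_pos {H : SimpleGraph α} (hT : Tr H) {A : Finset α} (hA : Conn H A)
    (h2 : 2 ≤ A.card) {v : α} (hv : v ∈ A) : 1 ≤ dg H A v := by
  obtain ⟨w, hw, _, u, hu, huw⟩ := (Conn.single v).step hT hA (singleton_subset_iff.2 hv)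
    (by rw [card_singleton]; omega)
  rw [mem_singleton.1 hu] at huw
  exact card_pos.2 ⟨w, mem_filter.2 ⟨hw, huw⟩⟩

/-- The number of leaves of a tree. -/
theorem Conn.leaves {H : SimpleGraph α} (hT : Tr H) {A : Finset α} (hA : Conn H A)
    (h2 : 2 ≤ A.card) :
    ∑ v ∈ A, (dg H A v - 2) + 2 = (A.filter (fun v => dg H A v = 1)).card := by
  have h1 := hA.ee_eq hT
  have h3 : ∑ v ∈ A, ((dg H A v - 2) + 2) = ∑ v ∈ A, (dg H A v + if dg H A v = 1 then 1 else 0) := by
    refine sum_congr rfl (fun v hv => ?_)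
    have := hA.dg_pos hT h2 hv
    split_ifs <;> omega
  rw [sum_add_distrib, sum_add_distrib, ← card_filter, sum_const, smul_eq_mul] at h3
  unfold ee at h1
  omega

theorem Conn.branch {H : SimpleGraph α} (hT : Tr H) {A : Finset α} (hA : Conn H A)
    (h2 : 2 ≤ A.card) :
    2 * (A.filter (fun v => 3 ≤ dg H A v)).card + 2 ≤ A.card := by
  have h1 := hA.ee_eq hT
  have h3 : ∑ v ∈ A, (1 + 2 * if 3 ≤ dg H A v then 1 else 0) ≤ ∑ v ∈ A, dg H A v := by
    refine sum_le_sum (fun v hv => ?_)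
    have := hA.dg_pos hT h2 hv
    split_ifs <;> omega
  rw [sum_add_distrib, ← mul_sum, ← card_filter, sum_const, smul_eq_mul] at h3
  unfold ee at h1
  omega

end Pool.Agent.Lib.MP_2b1ae8_co.TN
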