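import Mathlib
import Pool.Agent.Lib.MP_2b1ae8_co.TNTree

set_option autoImplicit false

namespace Pool.Agent.Lib.MP_2b1ae8_co.TN

open Finset
open scoped Classical

variable {α β : Type}

/-- An abstract edge-disjoint superposition of a subtree `S'` on a rooted tree `S`, avoiding `O`,
with a common growth order. -/
structure Al (par : α → α) (a : α) (H' : SimpleGraph β) (O S : Finset α) (S' : Finset β)
    (σ : β → α) (ρ : α → ℕ) (r' : β) : Prop where
  maps : ∀ v' ∈ S', σ v' ∈ S ∧ σ v' ∉ O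
  inj : ∀ u' ∈ S', ∀ v' ∈ S', σ u' = σ v' → u' = v'
  rinj : ∀ u ∈ S, ∀ v ∈ S, ρ u = ρ v → u = v
  lt : ∀ v ∈ S, v ≠ a → ρ (par v) < ρ v
  disj : ∀ u' ∈ S', ∀ v' ∈ S', H'.Adj u' v' → ρ (σ u') < ρ (σ v') → σ u' ≠ par (σ v')
  one : ∀ v' ∈ S', ∀ u1 ∈ S', ∀ u2 ∈ S', H'.Adj u1 v' → H'.Adj u2 v' →
    ρ (σ u1) < ρ (σ v') → ρ (σ u2) < ρ (σ v') → u1 = u2
  low : ∀ v' ∈ S', v' ≠ r' → ∃ u' ∈ S', H'.Adj u' v' ∧ ρ (σ u') < ρ (σ v')

/-- `v` is a childless non-root vertex of `S`. -/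
structure SL (par : α → α) (a : α) (S : Finset α) (v : α) : Prop where
  mem : v ∈ S
  ne : v ≠ a
  no : ∀ w ∈ S, w ≠ a → par w ≠ v

/-- The standing hypotheses of the alignment lemma. -/
structure Hyp (par : α → α) (d : α → ℕ) (a y : α) (H' : SimpleGraph β) (S : Finset α)
    (S' : Finset β) : Prop where
  root : a ∈ S
  cl : ∀ v ∈ S, v ≠ a → par v ∈ S ∧ d (par v) < d v
  leaf : SL par a S y
  py : par y = a
  conn : Conn H' S'
  card : S'.card + 1 = S.card

variable {par : α → α} {d : α → ℕ} {a y : α} {H' : SimpleGraph β}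

theorem SL.mono {S S2 : Finset α} {v : α} (h : SL par a S v) (hs : S2 ⊆ S) (hv : v ∈ S2) :
    SL par a S2 v := ⟨hv, h.ne, fun w hw => h.no w (hs hw)⟩

theorem SL.of_erase {S : Finset α} {l v : α} (h : SL par a (S.erase l) v) (hv : par l ≠ v) :
    SL par a S v := by
  refine ⟨mem_of_mem_erase h.mem, h.ne, fun w hw hwa => ?_⟩
  by_cases hwl : w = l
  · rw [hwl]; exact hv
  · exact h.no w (mem_erase.2 ⟨hwl, hw⟩) hwa

theorem Hyp.erase (hT : Tr H') {S : Finset α} {S' : Finset β} (h : Hyp par d a y H' S S')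
    {l : α} (hl : SL par a S l) (hly : l ≠ y) {c u : β} (hc : LfAt H' S' c u) :
    Hyp par d a y H' (S.erase l) (S'.erase c) := by
  refine ⟨mem_erase.2 ⟨hl.ne.symm, h.root⟩, fun v hv hva => ?_,
    h.leaf.mono (erase_subset _ _) (mem_erase.2 ⟨hly.symm, h.leaf.mem⟩), h.py,
    h.conn.erase_leaf hT hc, ?_⟩
  · have := h.cl v (mem_of_mem_erase hv) hva
    exact ⟨mem_erase.2 ⟨hl.no v (mem_of_mem_erase hv) hva, this.1⟩, this.2⟩
  · have a1 := card_erase_add_one hc.mem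
    have a2 := card_erase_add_one hl.mem
    have := h.card
    omega

theorem Hyp.exists_leaf {S : Finset α} {S' : Finset β} (h : Hyp par d a y H' S S')
    (h3 : 3 ≤ S.card) : ∃ l, SL par a S l ∧ l ≠ y := by
  have hne : ((S.erase a).erase y).Nonempty := by
    rw [← card_pos, card_erase_of_mem (mem_erase.2 ⟨h.leaf.ne, h.leaf.mem⟩),
      card_erase_of_mem h.root]
    omega
  obtain ⟨l, hl, hmax⟩ := exists_max_image _ d hne
  obtain ⟨l1, l2⟩ := mem_erase.1 hl
  obtain ⟨l2, l3⟩ := mem_erase.1 l2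
  refine ⟨l, ⟨l3, l2, fun w hw hwa hp => ?_⟩, l1⟩
  have hwy : w ≠ y := by
    rintro rfl
    exact l2 (hp.symm.trans h.py)
  have a1 := hmax w (mem_erase.2 ⟨hwy, mem_erase.2 ⟨hwa, hw⟩⟩)
  have a2 := (h.cl w hw hwa).2
  rw [hp] at a2
  omega

theorem Hyp.add {S : Finset α} {S' : Finset β} (h : Hyp par d a y H' S S')
    {l : α} (hl : SL par a S l) {c u : β} (hc : LfAt H' S' c u) {σ : β → α} {ρ : α → ℕ} {r' : β}
    (A : Al par a H' {a} (S.erase l) (S'.erase c) σ ρ r') (hne : σ u ≠ par l) :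
    ∃ σ' ρ', Al par a H' {a} S S' σ' ρ' r' ∧ σ' c = l ∧ ∀ w, w ≠ c → σ' w = σ w := by
  have hσ : ∀ w, w ≠ c → Function.update σ c l w = σ w := fun w hw => Function.update_of_ne hw _ _
  have hσc : Function.update σ c l c = l := Function.update_self _ _ _
  have hρ : ∀ w, w ≠ l → Function.update ρ l (S.sup ρ + 1) w = ρ w :=
    fun w hw => Function.update_of_ne hw _ _
  have hρl : Function.update ρ l (S.sup ρ + 1) l = S.sup ρ + 1 := Function.update_self _ _ _
  have hle : ∀ w ∈ S, ρ w ≤ S.sup ρ := fun w hw => le_sup hw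
  have hm : ∀ w ∈ S', w ≠ c → σ w ∈ S ∧ σ w ≠ l := fun w hw hwc =>
    ⟨mem_of_mem_erase (A.maps w (mem_erase.2 ⟨hwc, hw⟩)).1,
      ne_of_mem_erase (A.maps w (mem_erase.2 ⟨hwc, hw⟩)).1⟩
  have hr : ∀ w ∈ S', w ≠ c → Function.update ρ l (S.sup ρ + 1) (Function.update σ c l w)
      = ρ (σ w) ∧ ρ (σ w) ≤ S.sup ρ := fun w hw hwc => by
    rw [hσ w hwc, hρ _ (hm w hw hwc).2]; exact ⟨rfl, hle _ (hm w hw hwc).1⟩
  have hrc : Function.update ρ l (S.sup ρ + 1) (Function.update σ c l c) = S.sup ρ + 1 := by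
    rw [hσc, hρl]
  have huc : u ≠ c := hc.adj.ne.symm
  refine ⟨Function.update σ c l, Function.update ρ l (S.sup ρ + 1), ⟨?_, ?_, ?_, ?_, ?_, ?_, ?_⟩,
    hσc, hσ⟩
  · intro v hv
    by_cases hvc : v = c
    · rw [hvc, hσc]; exact ⟨hl.mem, by simpa using hl.ne⟩
    · rw [hσ v hvc]; exact ⟨(hm v hv hvc).1, (A.maps v (mem_erase.2 ⟨hvc, hv⟩)).2⟩
  · intro u' hu' v' hv' e
    by_cases h1 : u' = c <;> by_cases h2 : v' = c
    · rw [h1, h2]
    · rw [h1, hσc, hσ v' h2] at e; exact absurd e.symm (hm v' hv' h2).2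
    · rw [h2, hσc, hσ u' h1] at e; exact absurd e (hm u' hu' h1).2
    · rw [hσ u' h1, hσ v' h2] at e
      exact A.inj _ (mem_erase.2 ⟨h1, hu'⟩) _ (mem_erase.2 ⟨h2, hv'⟩) e
  · intro u' hu' v' hv' e
    by_cases h1 : u' = l <;> by_cases h2 : v' = l
    · rw [h1, h2]
    · rw [h1, hρl, hρ v' h2] at e; have := hle v' hv'; omega
    · rw [h2, hρl, hρ u' h1] at e; have := hle u' hu'; omega
    · rw [hρ u' h1, hρ v' h2] at e
      exact A.rinj _ (mem_erase.2 ⟨h1, hu'⟩) _ (mem_erase.2 ⟨h2, hv'⟩) e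
  · intro v hv hva
    rw [hρ _ (hl.no v hv hva)]
    by_cases h1 : v = l
    · have := hle _ (h.cl v hv hva).1
      rw [h1, hρl]; rw [h1] at this; omega
    · rw [hρ v h1]; exact A.lt v (mem_erase.2 ⟨h1, hv⟩) hva
  · intro u' hu' v' hv' hadj hlt
    by_cases h2 : v' = c
    · subst h2
      rw [hc.only u' hu' hadj.symm, hσ u huc, hσc]; exact hne
    · by_cases h1 : u' = c
      · rw [h1, hrc, (hr v' hv' h2).1] at hlt; have := (hr v' hv' h2).2; omega
      · rw [(hr u' hu' h1).1, (hr v' hv' h2).1] at hlt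
        rw [hσ u' h1, hσ v' h2]
        exact A.disj _ (mem_erase.2 ⟨h1, hu'⟩) _ (mem_erase.2 ⟨h2, hv'⟩) hadj hlt
  · intro v' hv' u1 hu1 u2 hu2 a1 a2 l1 l2
    by_cases h2 : v' = c
    · subst h2
      rw [hc.only u1 hu1 a1.symm, hc.only u2 hu2 a2.symm]
    · have g : ∀ w ∈ S', Function.update ρ l (S.sup ρ + 1) (Function.update σ c l w)
          < Function.update ρ l (S.sup ρ + 1) (Function.update σ c l v') → w ≠ c := by
        intro w _ hlt h1
        rw [h1, hrc, (hr v' hv' h2).1] at hlt; have := (hr v' hv' h2).2; omega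
      have g1 := g u1 hu1 l1
      have g2 := g u2 hu2 l2
      rw [(hr _ hu1 g1).1, (hr v' hv' h2).1] at l1
      rw [(hr _ hu2 g2).1, (hr v' hv' h2).1] at l2
      exact A.one v' (mem_erase.2 ⟨h2, hv'⟩) _ (mem_erase.2 ⟨g1, hu1⟩) _ (mem_erase.2 ⟨g2, hu2⟩)
        a1 a2 l1 l2
  · intro v' hv' hvr
    by_cases h2 : v' = c
    · subst h2
      refine ⟨u, hc.mem', hc.adj.symm, ?_⟩
      rw [hrc, (hr u hc.mem' huc).1]; have := (hr u hc.mem' huc).2; omega
    · obtain ⟨u', hu', a1, a2⟩ := A.low v' (mem_erase.2 ⟨h2, hv'⟩) hvr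
      refine ⟨u', mem_of_mem_erase hu', a1, ?_⟩
      rw [(hr u' (mem_of_mem_erase hu') (ne_of_mem_erase hu')).1, (hr v' hv' h2).1]; exact a2

theorem Hyp.base {S : Finset α} {S' : Finset β} (h : Hyp par d a y H' S S') (h2 : S.card ≤ 2) :
    ∃ σ ρ r', Al par a H' {a} S S' σ ρ r' ∧ ∀ w, σ w = y := by
  obtain ⟨c, hc⟩ := h.conn.nonempty
  have h1 : ∀ w ∈ S', w = c := by
    intro w hw
    exact card_le_one.1 (by have := h.card; omega) w hw c hc
  have h3 : ∀ w ∈ S, w ≠ a → w = y := by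
    intro w hw hwa
    refine (card_le_one (s := S.erase a)).1 ?_ w (mem_erase.2 ⟨hwa, hw⟩) y
      (mem_erase.2 ⟨h.leaf.ne, h.leaf.mem⟩)
    rw [card_erase_of_mem h.root]; omega
  refine ⟨fun _ => y, fun v => if v = a then 0 else 1, c, ⟨?_, ?_, ?_, ?_, ?_, ?_, ?_⟩, fun _ => rfl⟩
  · intro v _; exact ⟨h.leaf.mem, by simpa using h.leaf.ne⟩
  · intro u hu v hv _; rw [h1 u hu, h1 v hv]
  · intro u hu v hv e
    by_cases a1 : u = a <;> by_cases a2 : v = a
    · rw [a1, a2]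
    · simp [a1, a2] at e
    · simp [a1, a2] at e
    · rw [h3 u hu a1, h3 v hv a2]
  · intro v hv hva
    rw [h3 v hv hva, h.py]; simp [h.leaf.ne]
  · intro u _ v _ _ hlt; exact absurd hlt (lt_irrefl _)
  · intro v _ u1 _ u2 _ _ _ hlt; exact absurd hlt (lt_irrefl _)
  · intro v hv hne; exact absurd (h1 v hv) hne

theorem star_leaf (hT : Tr H') {S' : Finset β} {z c : β} (hz : z ∈ S') (hc : c ∈ S') (hcz : c ≠ z)
    (hs : ∀ w ∈ S', w ≠ z → H'.Adj z w) : LfAt H' S' c z := by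
  refine ⟨hc, hz, (hs c hc hcz).symm, fun w hw hcw => ?_⟩
  by_contra hwz
  have hC : Conn H' (insert w {z}) :=
    Conn.add _ z w (Conn.single z) (mem_singleton_self _) (hs w hw hwz)
  refine hwz (hC.uniq hT (v := c) ?_ (by simp) (by simp) hcw.symm (hs c hc hcz))
  simp only [mem_insert, mem_singleton, not_or]
  exact ⟨hcw.ne, hcz⟩

theorem al_star (hT : Tr H') (z : β) : ∀ (n : ℕ) (S : Finset α) (S' : Finset β), S.card = n →
    Hyp par d a y H' S S' → z ∈ S' → (∀ w ∈ S', w ≠ z → H'.Adj z w) →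
    ∃ σ ρ r', Al par a H' {a} S S' σ ρ r' ∧ σ z = y := by
  intro n
  induction n with
  | zero => intro S S' hn h _ _; have := h.card; omega
  | succ n ih =>
    intro S S' hn h hz hs
    by_cases h2 : S.card ≤ 2
    · obtain ⟨σ, ρ, r', A, e⟩ := h.base h2
      exact ⟨σ, ρ, r', A, e z⟩
    obtain ⟨l, hl, hly⟩ := h.exists_leaf (by omega)
    obtain ⟨c, hc⟩ : (S'.erase z).Nonempty := by
      rw [← card_pos, card_erase_of_mem hz]; have := h.card; omega
    have hcz := ne_of_mem_erase hc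
    have hL := star_leaf hT hz (mem_of_mem_erase hc) hcz hs
    obtain ⟨σ, ρ, r', A, e⟩ := ih (S.erase l) (S'.erase c)
      (by rw [card_erase_of_mem hl.mem]; omega) (h.erase hT hl hly hL)
      (mem_erase.2 ⟨hcz.symm, hz⟩) (fun w hw => hs w (mem_of_mem_erase hw))
    obtain ⟨σ', ρ', A', _, e2⟩ := h.add hl hL A
      (by rw [e]; exact (h.leaf.no l hl.mem hl.ne).symm)
    exact ⟨σ', ρ', r', A', by rw [e2 z hcz.symm, e]⟩

theorem four_le {S : Finset α} {x1 x2 x3 x4 : α} (h1 : x1 ∈ S) (h2 : x2 ∈ S) (h3 : x3 ∈ S)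
    (h4 : x4 ∈ S) (a : x1 ≠ x2) (b : x1 ≠ x3) (c : x1 ≠ x4) (d : x2 ≠ x3) (e : x2 ≠ x4)
    (f : x3 ≠ x4) : 4 ≤ S.card := by
  have : ({x1, x2, x3, x4} : Finset α) ⊆ S := by
    intro x hx
    simp only [mem_insert, mem_singleton] at hx
    rcases hx with rfl | rfl | rfl | rfl <;> assumption
  have h := card_le_card this
  rw [card_insert_of_notMem (by simp [a, b, c]), card_insert_of_notMem (by simp [d, e]),
    card_insert_of_notMem (by simp [f]), card_singleton] at h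
  exact h

theorem three_le {S : Finset α} {x1 x2 x3 : α} (h1 : x1 ∈ S) (h2 : x2 ∈ S) (h3 : x3 ∈ S)
    (a : x1 ≠ x2) (b : x1 ≠ x3) (d : x2 ≠ x3) : 3 ≤ S.card := by
  have : ({x1, x2, x3} : Finset α) ⊆ S := by
    intro x hx
    simp only [mem_insert, mem_singleton] at hx
    rcases hx with rfl | rfl | rfl <;> assumption
  have h := card_le_card this
  rw [card_insert_of_notMem (by simp [a, b]), card_insert_of_notMem (by simp [d]),
    card_singleton] at h
  exact h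

theorem al_broom (hT : Tr H') : ∀ (n : ℕ) (S : Finset α) (S' : Finset β) (c : α) (l' u' : β),
    S.card = n → Hyp par d a y H' S S' → c ∈ S → c ≠ a → c ≠ y →
    (∀ l, SL par a S l → l ≠ y → l = c ∨ par l = c) → LfAt H' S' l' u' →
    ∃ σ ρ r', Al par a H' {a} S S' σ ρ r' ∧ σ l' = c := by
  intro n
  induction n with
  | zero => intro S S' c l' u' hn h; have := h.card; omega
  | succ n ih =>
    intro S S' c l' u' hn h hc hca hcy hb hL
    have h3 : 3 ≤ S.card := three_le h.root h.leaf.mem hc h.leaf.ne.symm hca.symm hcy.symm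
    have hul : u' ≠ l' := hL.adj.ne.symm
    by_cases hcl : SL par a S c
    · have h' := h.erase hT hcl hcy hL
      have only : ∀ l, SL par a (S.erase c) l → l ≠ y → l = par c := by
        intro l hl hly
        by_contra hne
        rcases hb l (hl.of_erase (Ne.symm hne)) hly with e | e
        · exact ne_of_mem_erase hl.mem e
        · exact hcl.no l (mem_of_mem_erase hl.mem) hl.ne e
      by_cases hp : par c = a
      · obtain ⟨σ, ρ, r', A, e⟩ := h'.base (by
          by_contra hlt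
          obtain ⟨l, hl, hly⟩ := h'.exists_leaf (by omega)
          exact hl.ne ((only l hl hly).trans hp))
        obtain ⟨σ', ρ', A', e1, _⟩ := h.add hcl hL A (by rw [e, hp]; exact h.leaf.ne)
        exact ⟨σ', ρ', r', A', e1⟩
      · have p1 : par c ∈ S.erase c :=
          mem_erase.2 ⟨hcl.no c hc hca, (h.cl c hc hca).1⟩
        have p2 : par c ≠ y := h.leaf.no c hc hca
        have p3 : 3 ≤ (S.erase c).card :=
          three_le h'.root h'.leaf.mem p1 h.leaf.ne.symm (Ne.symm hp) p2.symm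
        obtain ⟨l2, u2, n2, hL2⟩ := h'.conn.exists_leaf hT (mem_erase.2 ⟨hul, hL.mem'⟩)
          (by have := h'.card; omega)
        obtain ⟨σ, ρ, r', A, e⟩ := ih (S.erase c) (S'.erase l') (par c) l2 u2
          (by rw [card_erase_of_mem hc]; omega) h' p1 hp p2
          (fun l hl hly => Or.inl (only l hl hly)) hL2
        obtain ⟨σ', ρ', A', e1, _⟩ := h.add hcl hL A (by
          rw [← e]
          exact fun e' => n2 (A.inj _ (mem_erase.2 ⟨hul, hL.mem'⟩) _ hL2.mem e').symm)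
        exact ⟨σ', ρ', r', A', e1⟩
    · obtain ⟨l, hl, hly⟩ := h.exists_leaf h3
      have hlc : l ≠ c := fun e => hcl (e ▸ hl)
      have hp : par l = c := (hb l hl hly).resolve_left hlc
      have h4 : 4 ≤ S.card := four_le h.root h.leaf.mem hc hl.mem h.leaf.ne.symm hca.symm
        hl.ne.symm hcy.symm hly.symm hlc.symm
      have hcard := h.card
      obtain ⟨c2, u2, n2, hL2⟩ := h.conn.exists_leaf hT hL.mem (by omega)
      have n3 : u2 ≠ l' := by
        intro e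
        have := h.conn.two_leaves hT hL2 (e ▸ hL)
        omega
      have n4 : u' ≠ c2 := by
        intro e
        have := h.conn.two_leaves hT hL (e ▸ hL2)
        omega
      obtain ⟨σ, ρ, r', A, e⟩ := ih (S.erase l) (S'.erase c2) c l' u'
        (by rw [card_erase_of_mem hl.mem]; omega) (h.erase hT hl hly hL2)
        (mem_erase.2 ⟨hlc.symm, hc⟩) hca hcy
        (fun m hm hmy => by
          by_cases e : m = c
          · exact Or.inl e
          · exact hb m (hm.of_erase (by rw [hp]; exact Ne.symm e)) hmy)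
        (hL.mono (erase_subset _ _) (mem_erase.2 ⟨n2.symm, hL.mem⟩) (mem_erase.2 ⟨n4, hL.mem'⟩))
      obtain ⟨σ', ρ', A', _, e2⟩ := h.add hl hL2 A (by
        rw [hp, ← e]
        exact fun e' => n3 (A.inj _ (mem_erase.2 ⟨hL2.adj.ne.symm, hL2.mem'⟩) _
          (mem_erase.2 ⟨n2.symm, hL.mem⟩) e'))
      exact ⟨σ', ρ', r', A', by rw [e2 l' n2.symm, e]⟩

theorem al_main (hT : Tr H') : ∀ (n : ℕ) (S : Finset α) (S' : Finset β), S.card = n →
    Hyp par d a y H' S S' →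
    (∃ σ ρ r', Al par a H' {a} S S' σ ρ r') ∧
    ∀ c u, LfAt H' S' c u → ∃ σ ρ r', Al par a H' {a} S S' σ ρ r' ∧ SL par a S (σ c) ∧ σ c ≠ y := by
  intro n
  induction n using Nat.strong_induction_on with
  | _ n ih =>
  intro S S' hn h
  have hcard := h.card
  have marked : ∀ c u, LfAt H' S' c u →
      ∃ σ ρ r', Al par a H' {a} S S' σ ρ r' ∧ SL par a S (σ c) ∧ σ c ≠ y := by
    intro c u hL
    have huc : u ≠ c := hL.adj.ne.symm
    have h2 : 2 ≤ S'.card := one_lt_card.2 ⟨c, hL.mem, u, hL.mem', huc.symm⟩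
    obtain ⟨l, hl, hly⟩ := h.exists_leaf (by omega)
    have cl := card_erase_add_one hl.mem
    by_cases hs : ∀ w ∈ S', w ≠ u → H'.Adj u w
    · obtain ⟨σ, ρ, r', A, e⟩ := al_star hT u _ (S.erase l) (S'.erase c) rfl
        (h.erase hT hl hly hL) (mem_erase.2 ⟨huc, hL.mem'⟩) (fun w hw => hs w (mem_of_mem_erase hw))
      obtain ⟨σ', ρ', A', e1, _⟩ := h.add hl hL A
        (by rw [e]; exact (h.leaf.no l hl.mem hl.ne).symm)
      exact ⟨σ', ρ', r', A', e1 ▸ hl, e1 ▸ hly⟩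
    by_cases hp : par l = a
    · obtain ⟨σ, ρ, r', A⟩ := (ih _ (by omega) (S.erase l) (S'.erase c) rfl
        (h.erase hT hl hly hL)).1
      obtain ⟨σ', ρ', A', e1, _⟩ := h.add hl hL A (by
        rw [hp]; simpa using (A.maps u (mem_erase.2 ⟨huc, hL.mem'⟩)).2)
      exact ⟨σ', ρ', r', A', e1 ▸ hl, e1 ▸ hly⟩
    obtain ⟨c2, u2, hL2, n1, n2⟩ := h.conn.nonstar hT hL.mem' hs
    have n3 : c2 ≠ c := fun e => n1 (hL.only u2 hL2.mem' (e ▸ hL2.adj))
    have n4 : u2 ≠ c := fun e => n2 (hL.only c2 hL2.mem (e ▸ hL2.adj.symm))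
    by_cases hb : ∀ m, SL par a S m → m ≠ y → par m = par l
    · have p1 : par l ∈ S.erase l := mem_erase.2 ⟨hl.no l hl.mem hl.ne, (h.cl l hl.mem hl.ne).1⟩
      obtain ⟨σ, ρ, r', A, e⟩ := al_broom hT _ (S.erase l) (S'.erase c) (par l) c2 u2 rfl
        (h.erase hT hl hly hL) p1 hp (h.leaf.no l hl.mem hl.ne)
        (fun m hm hmy => by
          by_cases e : m = par l
          · exact Or.inl e
          · exact Or.inr (hb m (hm.of_erase (Ne.symm e)) hmy))
        (hL2.mono (erase_subset _ _) (mem_erase.2 ⟨n3, hL2.mem⟩) (mem_erase.2 ⟨n4, hL2.mem'⟩))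
      obtain ⟨σ', ρ', A', e1, _⟩ := h.add hl hL A (by
        rw [← e]
        exact fun e' => n2 (A.inj _ (mem_erase.2 ⟨huc, hL.mem'⟩) _
          (mem_erase.2 ⟨n3, hL2.mem⟩) e').symm)
      exact ⟨σ', ρ', r', A', e1 ▸ hl, e1 ▸ hly⟩
    push Not at hb
    obtain ⟨m, hm, hmy, hpm⟩ := hb
    have hml : m ≠ l := fun e => hpm (by rw [e])
    have hL2' : LfAt H' (S'.erase c) c2 u2 :=
      hL2.mono (erase_subset _ _) (mem_erase.2 ⟨n3, hL2.mem⟩) (mem_erase.2 ⟨n4, hL2.mem'⟩)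
    have step : ∀ l m, SL par a S l → l ≠ y → SL par a S m → m ≠ y → m ≠ l →
        ∀ σ ρ r', Al par a H' {a} ((S.erase l).erase m) ((S'.erase c).erase c2) σ ρ r' →
        σ u ≠ par l → σ u2 ≠ par m →
        ∃ σ ρ r', Al par a H' {a} S S' σ ρ r' ∧ SL par a S (σ c) ∧ σ c ≠ y := by
      intro l m hl hly hm hmy hml σ ρ r' A e1 e2
      obtain ⟨σ1, ρ1, A1, _, f1⟩ := (h.erase hT hl hly hL).add
        (hm.mono (erase_subset _ _) (mem_erase.2 ⟨hml, hm.mem⟩)) hL2' A e2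
      obtain ⟨σ', ρ', A', f2, _⟩ := h.add hl hL A1 (by rw [f1 u n2.symm]; exact e1)
      exact ⟨σ', ρ', r', A', f2 ▸ hl, f2 ▸ hly⟩
    have hm' := hm.mono (erase_subset l _) (mem_erase.2 ⟨hml, hm.mem⟩)
    obtain ⟨σ, ρ, r', A⟩ := (ih _ (by have := card_erase_add_one hm'.mem; omega)
      ((S.erase l).erase m) ((S'.erase c).erase c2) rfl
      ((h.erase hT hl hly hL).erase hT hm' hmy hL2')).1
    have hσ : σ u ≠ σ u2 := fun e => n1 (A.inj _
      (mem_erase.2 ⟨n2.symm, mem_erase.2 ⟨huc, hL.mem'⟩⟩) _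
      (mem_erase.2 ⟨hL2.adj.ne.symm, hL2'.mem'⟩) e).symm
    by_cases hc : σ u ≠ par l ∧ σ u2 ≠ par m
    · exact step l m hl hly hm hmy hml σ ρ r' A hc.1 hc.2
    · refine step m l hm hmy hl hly hml.symm σ ρ r' (by rw [erase_right_comm]; exact A) ?_ ?_
      · intro e
        apply hc
        exact ⟨by rw [e]; exact hpm, by rw [← e]; exact hσ.symm⟩
      · intro e
        apply hc
        exact ⟨by rw [← e]; exact hσ, by rw [e]; exact hpm.symm⟩
  refine ⟨?_, marked⟩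
  by_cases h2 : S.card ≤ 2
  · obtain ⟨σ, ρ, r', A, _⟩ := h.base h2
    exact ⟨σ, ρ, r', A⟩
  · obtain ⟨x, hx⟩ := h.conn.nonempty
    obtain ⟨c, u, _, hL⟩ := h.conn.exists_leaf hT hx (by omega)
    obtain ⟨σ, ρ, r', A, _⟩ := marked c u hL
    exact ⟨σ, ρ, r', A⟩

/-- Undoing the contraction of `z` into its parent. -/
theorem Al.uncontract {S : Finset α} {S' : Finset β} {z : α} (hz : z ∈ S) (hza : z ≠ a)
    (hcl : ∀ v ∈ S, v ≠ a → par v ∈ S ∧ par v ≠ v)
    {σ : β → α} {ρ : α → ℕ} {r' : β}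
    (A : Al (fun v => if par v = z then par z else par v) a H' {a} (S.erase z) S' σ ρ r') :
    Al par a H' {a, z} S S' σ (fun v => if v = z then 2 * ρ (par z) + 1 else 2 * ρ v) r' := by
  have hm : ∀ v' ∈ S', σ v' ≠ z := fun v' hv' => ne_of_mem_erase (A.maps v' hv').1
  have hpz := (hcl z hz hza).2
  refine ⟨?_, A.inj, ?_, ?_, ?_, ?_, ?_⟩
  · intro v hv
    refine ⟨mem_of_mem_erase (A.maps v hv).1, ?_⟩
    simp only [mem_insert, mem_singleton, not_or]
    exact ⟨by simpa using (A.maps v hv).2, hm v hv⟩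
  · intro u hu v hv e
    by_cases h1 : u = z <;> by_cases h2 : v = z
    · rw [h1, h2]
    · simp only [if_pos h1, if_neg h2] at e; omega
    · simp only [if_pos h2, if_neg h1] at e; omega
    · simp only [if_neg h2, if_neg h1] at e
      exact A.rinj u (mem_erase.2 ⟨h1, hu⟩) v (mem_erase.2 ⟨h2, hv⟩) (by omega)
  · intro v hv hva
    by_cases h1 : v = z
    · simp only [h1, if_neg hpz, if_true]; omega
    · have := A.lt v (mem_erase.2 ⟨h1, hv⟩) hva
      by_cases h2 : par v = z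
      · simp only [if_pos h2, if_neg h1] at this ⊢; omega
      · simp only [if_neg h2, if_neg h1] at this ⊢; omega
  · intro u hu v hv hadj hlt
    simp only [if_neg (hm u hu), if_neg (hm v hv)] at hlt
    have := A.disj u hu v hv hadj (by omega)
    by_cases h2 : par (σ v) = z
    · rw [h2]; exact hm u hu
    · simpa only [if_neg h2] using this
  · intro v hv u1 h1 u2 h2 a1 a2 l1 l2
    simp only [if_neg (hm u1 h1), if_neg (hm u2 h2), if_neg (hm v hv)] at l1 l2
    exact A.one v hv u1 h1 u2 h2 a1 a2 (by omega) (by omega)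
  · intro v hv hvr
    obtain ⟨u, hu, a1, a2⟩ := A.low v hv hvr
    refine ⟨u, hu, a1, ?_⟩
    simp only [if_neg (hm u hu), if_neg (hm v hv)]; omega

end Pool.Agent.Lib.MP_2b1ae8_co.TN
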