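import Mathlib
import Pool.Agent.Lib.MP_2b1ae8_co.TNTree

set_option autoImplicit false

namespace Pool.Agent.Lib.MP_2b1ae8_co.TN

open Finset
open scoped Classical

variable {V : Type}

theorem ee_even (H : SimpleGraph V) (A : Finset V) : 2 ∣ ee H A := by
  induction A using Finset.induction_on with
  | empty => simp [ee]
  | insert v A hv ih => rw [ee_insert H hv]; exact dvd_add ih (dvd_mul_right _ _)

/-- Number of edges inside a finite set. -/
noncomputable def eh (H : SimpleGraph V) (A : Finset V) : ℕ := ee H A / 2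

theorem two_eh (H : SimpleGraph V) (A : Finset V) : 2 * eh H A = ee H A :=
  Nat.mul_div_cancel' (ee_even H A)

theorem eh_insert (H : SimpleGraph V) {A : Finset V} {v : V} (hv : v ∉ A) :
    eh H (insert v A) = eh H A + dg H A v := by
  have h1 := two_eh H A
  have h2 := two_eh H (insert v A)
  have h3 := ee_insert H hv
  omega

theorem eh_erase (H : SimpleGraph V) {A : Finset V} {v : V} (hv : v ∈ A) :
    eh H A = eh H (A.erase v) + dg H A v := by
  have h1 := two_eh H A
  have h2 := two_eh H (A.erase v)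
  have h3 := ee_erase H hv
  omega

theorem eh_mono (H : SimpleGraph V) {A B : Finset V} (h : A ⊆ B) : eh H A ≤ eh H B := by
  have h1 := two_eh H A
  have h2 := two_eh H B
  have h3 := ee_mono H h
  omega

theorem dg_insert_le (H : SimpleGraph V) (A : Finset V) (v w : V) :
    dg H (insert v A) w ≤ dg H A w + 1 := by
  by_cases hv : v ∈ A
  · rw [insert_eq_of_mem hv]; omega
  · rw [dg_insert H hv]; split_ifs <;> omega

theorem dg_insert_self (H : SimpleGraph V) (A : Finset V) (v : V) :
    dg H (insert v A) v = dg H A v := by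
  by_cases hv : v ∈ A
  · rw [insert_eq_of_mem hv]
  · rw [dg_insert H hv, if_neg H.irrefl]; rfl

/-- `W` without the first `m` terms of the sequence `c`. -/
noncomputable def rem (W : Finset V) (c : ℕ → V) (m : ℕ) : Finset V :=
  W.filter (fun x => ∀ i, i < m → c i ≠ x)

theorem mem_rem {W : Finset V} {c : ℕ → V} {m : ℕ} {x : V} :
    x ∈ rem W c m ↔ x ∈ W ∧ ∀ i, i < m → c i ≠ x := mem_filter

/-- Prepend a term to a sequence. -/
def cns (x : V) (c : ℕ → V) : ℕ → V
  | 0 => x
  | m + 1 => c m

theorem peel [Nonempty V] (U : SimpleGraph V) (κ : ℤ) (Inv : Finset V → Prop) (lo : ℕ)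
    (cand : ∀ W, Inv W → lo < W.card → 0 ≤ (eh U W : ℤ) + κ - 2 * W.card →
      (∃ v ∈ W, dg U W v ≤ 2 ∧ Inv (W.erase v)) ∨
      (∃ v ∈ W, ∃ v' ∈ W, v ≠ v' ∧
        (dg U W v + dg U W v' : ℤ) ≤ (eh U W : ℤ) + κ - 2 * W.card + 5 ∧
        Inv (W.erase v) ∧ Inv (W.erase v'))) :
    ∀ (r : ℕ) (W : Finset V) (δ : V → ℤ), W.card = lo + r → Inv W →
      0 ≤ (eh U W : ℤ) + κ - 2 * W.card → (∀ v, δ v ≤ 0) →
      (∀ v, -((eh U W : ℤ) + κ - 2 * W.card) ≤ δ v) →
      (∀ v ∈ W, ∀ v' ∈ W, v ≠ v' → δ v + δ v' ≤ -((eh U W : ℤ) + κ - 2 * W.card)) →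
      ∃ c : ℕ → V, (∀ m, m < r → c m ∈ W) ∧ (∀ m m', m < r → m' < r → c m = c m' → m = m') ∧
        (∀ m, m < r → (dg U W (c m) : ℤ) + δ (c m) ≤ 2 + m) ∧
        ∀ m' m, m' ≤ m → m < r →
          2 * (W.card : ℤ) ≤ (eh U ((rem W c m').erase (c m)) : ℤ) + κ + 2 + m + m' := by
  intro r
  induction r with
  | zero =>
    intro W δ hW hI _ _ _ _
    obtain ⟨v⟩ := (inferInstance : Nonempty V)
    exact ⟨fun _ => v, fun m h => absurd h (by omega), fun m _ h => absurd h (by omega),
      fun m h => absurd h (by omega), fun _ m _ h => absurd h (by omega)⟩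
  | succ r ih =>
    intro W δ hW hI hs hδ1 hδ2 hδ3
    obtain ⟨x, hx, hxd, hxI⟩ : ∃ x ∈ W, (dg U W x : ℤ) + δ x ≤ 2 ∧ Inv (W.erase x) := by
      rcases cand W hI (by omega) hs with ⟨v, hv, h1, h2⟩ | ⟨v, hv, v', hv', hne, h1, h2, h3⟩
      · refine ⟨v, hv, ?_, h2⟩
        have := hδ1 v
        omega
      · have := hδ3 v hv v' hv' hne
        by_cases hc : (dg U W v : ℤ) + δ v ≤ 2
        · exact ⟨v, hv, hc, h2⟩
        · exact ⟨v', hv', by omega, h3⟩
    have he := eh_erase U hx
    have hc : (W.erase x).card + 1 = W.card := card_erase_add_one hx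
    have hs' : (eh U (W.erase x) : ℤ) + κ - 2 * (W.erase x).card
        = (eh U W : ℤ) + κ - 2 * W.card + 2 - dg U W x := by omega
    have hδx := hδ2 x
    obtain ⟨c, h1, h2, h3, h4⟩ := ih (W.erase x)
      (fun v => max (δ v + (if U.Adj v x then 1 else 0) - 1)
        (-((eh U (W.erase x) : ℤ) + κ - 2 * (W.erase x).card)))
      (by omega) hxI (by omega)
      (fun v => by
        have := hδ1 v
        refine max_le ?_ (by omega)
        split_ifs <;> omega)
      (fun v => le_max_right _ _)
      (fun v hv v' hv' hne => by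
        have a1 := hδ1 v
        have a2 := hδ1 v'
        have a3 := hδ3 v (mem_of_mem_erase hv) v' (mem_of_mem_erase hv') hne
        have a4 : (if U.Adj v x then 1 else 0 : ℤ) + (if U.Adj v' x then 1 else 0) ≤ dg U W x := by
          have b1 : dg U (insert v {v'}) x ≤ dg U W x :=
            dg_mono U (insert_subset (mem_of_mem_erase hv)
              (singleton_subset_iff.2 (mem_of_mem_erase hv'))) x
          rw [dg_insert U (by simpa using hne), show ({v'} : Finset V) = insert v' ∅ from rfl,
            dg_insert U (notMem_empty _)] at b1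
          rw [U.adj_comm v x, U.adj_comm v' x]
          split_ifs at b1 ⊢ <;> omega
        have a5 : (if U.Adj v x then 1 else 0 : ℤ) ≤ 1 := by split_ifs <;> omega
        have a6 : (if U.Adj v' x then 1 else 0 : ℤ) ≤ 1 := by split_ifs <;> omega
        generalize (if U.Adj v x then 1 else 0 : ℤ) = e1 at a4 a5 ⊢
        generalize (if U.Adj v' x then 1 else 0 : ℤ) = e2 at a4 a6 ⊢
        simp only [max_def]
        split_ifs <;> omega)
    have key : ∀ m, m < r → (dg U W (c m) : ℤ) + δ (c m) ≤ 2 + (m + 1) := by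
      intro m hm
      have a1 := h3 m hm
      have a2 := dg_erase U hx (c m)
      have a3 := le_max_left (δ (c m) + (if U.Adj (c m) x then 1 else 0) - 1)
        (-((eh U (W.erase x) : ℤ) + κ - 2 * (W.erase x).card))
      split_ifs at a2 a3 a1 <;> omega
    have key2 : ∀ m, m < r + 1 →
        (dg U W (cns x c m) : ℤ)
          + δ (cns x c m) ≤ 2 + m := by
      intro m hm
      cases m with
      | zero => simpa [cns] using hxd
      | succ m => have := key m (by omega); push_cast; exact this
    have key3 : ∀ m, m < r + 1 → (cns x c m) ∈ W := by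
      intro m hm
      cases m with
      | zero => exact hx
      | succ m => exact mem_of_mem_erase (h1 m (by omega))
    refine ⟨cns x c, key3, ?_, key2, ?_⟩
    · intro m m' hm hm' h
      cases m with
      | zero =>
        cases m' with
        | zero => rfl
        | succ m' => exact absurd h.symm (ne_of_mem_erase (h1 m' (by omega)))
      | succ m =>
        cases m' with
        | zero => exact absurd h (ne_of_mem_erase (h1 m (by omega)))
        | succ m' => rw [h2 m m' (by omega) (by omega) h]
    · intro m' m hm' hm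
      cases m' with
      | zero =>
        have e : rem W (cns x c) 0 = W := by
          ext y; simp [mem_rem]
        rw [e]
        have a1 := key2 m hm
        have a2 := eh_erase U (key3 m hm)
        have a3 := hδ2 (cns x c m)
        push_cast
        omega
      | succ m' =>
        cases m with
        | zero => omega
        | succ m =>
          have e : rem W (cns x c) (m' + 1)
              = rem (W.erase x) c m' := by
            ext y
            simp only [mem_rem, mem_erase]
            constructor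
            · rintro ⟨a, b⟩
              exact ⟨⟨fun h => b 0 (by omega) h.symm, a⟩, fun i hi => b (i + 1) (by omega)⟩
            · rintro ⟨⟨a, b⟩, d⟩
              refine ⟨b, fun i hi => ?_⟩
              cases i with
              | zero => exact fun h => a h.symm
              | succ i => exact d i (by omega)
          rw [e]
          have a1 := h4 m' m (by omega) (by omega)
          rw [show cns x c (m + 1) = c m from rfl]
          push_cast
          omega

/-- Total deficiency (below two) of the back-degrees along a list. -/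
noncomputable def defc (U : SimpleGraph V) : List V → ℕ
  | [] => 0
  | v :: l => (2 - dg U l.toFinset v) + defc U l

theorem eh_ge (U : SimpleGraph V) : ∀ l : List V, l.Nodup →
    2 * l.toFinset.card ≤ eh U l.toFinset + defc U l
  | [], _ => by simp
  | v :: l, h => by
    have hv : v ∉ l.toFinset := by simpa using (List.nodup_cons.1 h).1
    have ih := eh_ge U l (List.nodup_cons.1 h).2
    rw [List.toFinset_cons, card_insert_of_notMem hv, eh_insert U hv, defc]
    omega

theorem defc_append (U : SimpleGraph V) (l : List V) : ∀ (m : List V) (a : ℕ),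
    (∀ v ∈ m, 3 ≤ dg U (m ++ l).toFinset v + a) →
      defc U (m ++ l) ≤ defc U l + ∑ i ∈ range m.length, (a + i - 1)
  | [], a, _ => by simp
  | v :: m, a, h => by
    have h1 := h v List.mem_cons_self
    have ih := defc_append U l m (a + 1) (fun w hw => by
      have a1 := h w (List.mem_cons_of_mem _ hw)
      rw [List.cons_append, List.toFinset_cons] at a1
      have := dg_insert_le U (m ++ l).toFinset v w
      omega)
    rw [List.cons_append, List.toFinset_cons, dg_insert_self] at h1
    rw [List.cons_append, defc, List.length_cons, sum_range_succ']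
    have : ∑ i ∈ range m.length, (a + 1 + i - 1) = ∑ i ∈ range m.length, (a + (i + 1) - 1) :=
      sum_congr rfl (fun i _ => by omega)
    omega

theorem cand_final (U : SimpleGraph V) (κ : ℤ) (D : ℕ) (hD : (D : ℤ) ≤ κ) (W : Finset V)
    (hW : 2 ≤ W.card) (l : List V) (hl : l.Nodup) (hlW : l.toFinset = W) (hd : defc U l ≤ D) :
    (∃ v ∈ W, dg U W v ≤ 2 ∧
      ∃ l' : List V, l'.Nodup ∧ l'.toFinset = W.erase v ∧ defc U l' ≤ D) ∨
    (∃ v ∈ W, ∃ v' ∈ W, v ≠ v' ∧
      (dg U W v + dg U W v' : ℤ) ≤ (eh U W : ℤ) + κ - 2 * W.card + 5 ∧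
      (∃ l' : List V, l'.Nodup ∧ l'.toFinset = W.erase v ∧ defc U l' ≤ D) ∧
      ∃ l' : List V, l'.Nodup ∧ l'.toFinset = W.erase v' ∧ defc U l' ≤ D) := by
  subst hlW
  match l, hl, hd, hW with
  | [], _, _, hW => simp at hW
  | [v], _, _, hW => simp at hW
  | v1 :: v2 :: r, hl, hd, _ =>
    have n1 := List.nodup_cons.1 hl
    have n2 := List.nodup_cons.1 n1.2
    have h12 : v1 ≠ v2 := fun h => n1.1 (h ▸ List.mem_cons_self)
    have h1r : v1 ∉ r.toFinset := fun h => n1.1 (List.mem_cons_of_mem _ (List.mem_toFinset.1 h))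
    have h2r : v2 ∉ r.toFinset := fun h => n2.1 (List.mem_toFinset.1 h)
    have h1 : v1 ∉ insert v2 r.toFinset := by simp only [mem_insert, not_or]; exact ⟨h12, h1r⟩
    have e1 : (v2 :: r).toFinset = (v1 :: v2 :: r).toFinset.erase v1 := by
      rw [List.toFinset_cons (a := v1), List.toFinset_cons, erase_insert h1]
    have e2 : (v1 :: r).toFinset = (v1 :: v2 :: r).toFinset.erase v2 := by
      simp only [List.toFinset_cons]
      rw [Finset.insert_comm, erase_insert]
      simp only [mem_insert, not_or]; exact ⟨h12.symm, h2r⟩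
    simp only [defc] at hd
    have m1 : v1 ∈ (v1 :: v2 :: r).toFinset := by simp
    have m2 : v2 ∈ (v1 :: v2 :: r).toFinset := by simp
    by_cases hc : dg U (v1 :: v2 :: r).toFinset v1 ≤ 2
    · exact Or.inl ⟨v1, m1, hc, v2 :: r, n1.2, e1, by simp only [defc]; omega⟩
    · refine Or.inr ⟨v1, m1, v2, m2, h12, ?_, ⟨v2 :: r, n1.2, e1, by simp only [defc]; omega⟩,
        v1 :: r, List.nodup_cons.2 ⟨fun h => h1r (List.mem_toFinset.2 h), n2.2⟩, e2, ?_⟩
      · have a1 := eh_ge U r n2.2
        simp only [List.toFinset_cons] at hc ⊢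
        rw [eh_insert U h1, eh_insert U h2r, card_insert_of_notMem h1, card_insert_of_notMem h2r,
          dg_insert_self]
        have a2 := dg_insert_le U (insert v2 r.toFinset) v1 v2
        rw [dg_insert_self] at a2
        push_cast
        omega
      · simp only [List.toFinset_cons, defc] at hc ⊢
        rw [dg_insert_self] at hc
        have a2 := dg_insert_le U r.toFinset v2 v1
        omega

/-- The invariant of the peeling process. -/
def PInv (U : SimpleGraph V) (l1 : List V) (d1 D : ℕ) (W : Finset V) : Prop :=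
  (l1.toFinset ⊆ W ∧
    ((W \ l1.toFinset).card ≤ 2 ∨ (W \ l1.toFinset).card + 2 * d1 < 2 * D)) ∨
  ∃ l' : List V, l'.Nodup ∧ l'.toFinset = W ∧ defc U l' ≤ D

theorem peel_main [Nonempty V] (U : SimpleGraph V) (κ : ℤ) (D d1 lo r : ℕ) (hD : (D : ℤ) ≤ κ) (hd1 : d1 ≤ D)
    (hlo : 1 ≤ lo) (W : Finset V) (hW : W.card = lo + r)
    (hs : 0 ≤ (eh U W : ℤ) + κ - 2 * W.card)
    (l1 : List V) (hl1 : l1.Nodup) (hsub : l1.toFinset ⊆ W) (hdef : defc U l1 ≤ d1)
    (hY : (W \ l1.toFinset).card ≤ 2 ∨ (W \ l1.toFinset).card + 2 * d1 < 2 * D) :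
    ∃ c : ℕ → V, (∀ m, m < r → c m ∈ W) ∧ (∀ m m', m < r → m' < r → c m = c m' → m = m') ∧
        ∀ m' m, m' ≤ m → m < r →
          2 * (W.card : ℤ) ≤ (eh U ((rem W c m').erase (c m)) : ℤ) + κ + 2 + m + m' := by
  obtain ⟨c, h1, h2, _, h4⟩ := peel U κ
    (PInv U l1 d1 D) lo
    (by
      intro W hI hlt hs
      have fin : (∃ l' : List V, l'.Nodup ∧ l'.toFinset = W ∧ defc U l' ≤ D) →
          (∃ v ∈ W, dg U W v ≤ 2 ∧ PInv U l1 d1 D (W.erase v)) ∨
          (∃ v ∈ W, ∃ v' ∈ W, v ≠ v' ∧
            (dg U W v + dg U W v' : ℤ) ≤ (eh U W : ℤ) + κ - 2 * W.card + 5 ∧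
            PInv U l1 d1 D (W.erase v) ∧ PInv U l1 d1 D (W.erase v')) := by
        rintro ⟨l', a1, a2, a3⟩
        rcases cand_final U κ D hD W (by omega) l' a1 a2 a3 with
          ⟨v, hv, b1, b2⟩ | ⟨v, hv, v', hv', b0, b1, b2, b3⟩
        · exact Or.inl ⟨v, hv, b1, Or.inr b2⟩
        · exact Or.inr ⟨v, hv, v', hv', b0, b1, Or.inr b2, Or.inr b3⟩
      rcases hI with ⟨hsub, hY⟩ | hI
      swap
      · exact fin hI
      have keep : ∀ v ∈ W \ l1.toFinset, l1.toFinset ⊆ W.erase v ∧
          ((W.erase v \ l1.toFinset).card ≤ 2 ∨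
            (W.erase v \ l1.toFinset).card + 2 * d1 < 2 * D) := by
        intro v hv
        refine ⟨fun w hw => mem_erase.2 ⟨fun h => (mem_sdiff.1 hv).2 (h ▸ hw), hsub hw⟩, ?_⟩
        have : (W.erase v \ l1.toFinset).card ≤ (W \ l1.toFinset).card :=
          card_le_card (sdiff_subset_sdiff (erase_subset _ _) (Subset.refl _))
        omega
      by_cases h2 : ∃ v ∈ W \ l1.toFinset, dg U W v ≤ 2
      · obtain ⟨v, hv, h2⟩ := h2
        exact Or.inl ⟨v, (mem_sdiff.1 hv).1, h2, Or.inl (keep v hv)⟩
      push Not at h2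
      by_cases h3 : (W \ l1.toFinset).card ≤ 3
      · apply fin
        have e : ((W \ l1.toFinset).toList ++ l1).toFinset = W := by
          rw [List.toFinset_append, toList_toFinset, sdiff_union_of_subset hsub]
        refine ⟨(W \ l1.toFinset).toList ++ l1, ?_, e, ?_⟩
        · refine List.Nodup.append (nodup_toList _) hl1 ?_
          intro x hx hx'
          exact (mem_sdiff.1 (mem_toList.1 hx)).2 (List.mem_toFinset.2 hx')
        · have a1 := defc_append U l1 (W \ l1.toFinset).toList 0 (fun v hv => by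
            rw [e]; have := h2 v (mem_toList.1 hv); omega)
          rw [length_toList] at a1
          generalize (W \ l1.toFinset).card = y at a1 hY h3
          interval_cases y <;> simp [sum_range_succ] at a1 <;> omega
      by_contra hcon
      have hpair : ∀ v ∈ W \ l1.toFinset, ∀ v' ∈ W \ l1.toFinset, v ≠ v' →
          (eh U W : ℤ) + κ - 2 * W.card + 6 ≤ dg U W v + dg U W v' := by
        intro v hv v' hv' hne
        by_contra hlt'
        exact hcon (Or.inr ⟨v, (mem_sdiff.1 hv).1, v', (mem_sdiff.1 hv').1, hne, by omega,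
          Or.inl (keep v hv), Or.inl (keep v' hv')⟩)
      set s : ℤ := (eh U W : ℤ) + κ - 2 * W.card with hsdef
      set Y := W \ l1.toFinset with hYdef
      have hup : ee U l1.toFinset + ∑ v ∈ Y, dg U W v ≤ ee U W := by
        have a1 : ee U W = ∑ v ∈ Y, dg U W v + ∑ v ∈ l1.toFinset, dg U W v := by
          unfold ee; rw [hYdef, sum_sdiff hsub]
        have a2 : ee U l1.toFinset ≤ ∑ v ∈ l1.toFinset, dg U W v :=
          sum_le_sum (fun v _ => dg_mono U hsub v)
        omega
      have hcard : Y.card + l1.toFinset.card = W.card := card_sdiff_add_card_eq_card hsub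
      have hlow : (Y.card : ℤ) * (s + 6) ≤ 2 * ∑ v ∈ Y, (dg U W v : ℤ) := by
        obtain ⟨v0, hv0, hmin⟩ := exists_min_image Y (fun v => dg U W v)
          (card_pos.1 (by omega))
        by_cases hc : s + 6 ≤ 2 * (dg U W v0 : ℤ)
        · rw [mul_sum]
          have := card_nsmul_le_sum Y (fun v => 2 * (dg U W v : ℤ)) (s + 6) (fun v hv => by
            have := hmin v hv; omega)
          simpa using this
        · rw [← add_sum_erase Y _ hv0]
          have := card_nsmul_le_sum (Y.erase v0) (fun v => (dg U W v : ℤ)) (s + 6 - dg U W v0)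
            (fun v hv => by
              have := hpair v (mem_of_mem_erase hv) v0 hv0 (ne_of_mem_erase hv); omega)
          rw [nsmul_eq_mul] at this
          have e : ((Y.erase v0).card : ℤ) = Y.card - 1 := by
            have := card_erase_add_one hv0; omega
          rw [e] at this
          have h4 : (4 : ℤ) ≤ Y.card := by omega
          nlinarith
      have a1 := eh_ge U l1 hl1
      have a2 := two_eh U W
      have a3 := two_eh U l1.toFinset
      have a4 : ∑ v ∈ Y, (dg U W v : ℤ) = ((∑ v ∈ Y, dg U W v : ℕ) : ℤ) := by push_cast; rfl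
      have h4 : (4 : ℤ) ≤ Y.card := by omega
      have a5 : 0 ≤ ((Y.card : ℤ) - 4) * s := mul_nonneg (by omega) hs
      have a6 : (Y.card : ℤ) * (s + 6) = ((Y.card : ℤ) - 4) * s + 4 * s + 6 * Y.card := by ring
      omega)
    r W (fun _ => -((eh U W : ℤ) + κ - 2 * W.card)) hW (Or.inl ⟨hsub, hY⟩) hs
    (fun _ => by omega) (fun _ => le_rfl) (fun _ _ _ _ _ => by omega)
  exact ⟨c, h1, h2, h4⟩

end Pool.Agent.Lib.MP_2b1ae8_co.TN
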