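import Mathlib
import Pool.Agent.Lib.MP_2b1ae8_co.TNPeel

set_option autoImplicit false

namespace Pool.Agent.Lib.MP_2b1ae8_co.TN

open Finset
open scoped Classical

variable {V : Type}

/-- The edges of `G` that are not edges of `U`. -/
def fr (G U : SimpleGraph V) : SimpleGraph V := G \ U

theorem fr_adj {G U : SimpleGraph V} {x y : V} : (fr G U).Adj x y ↔ G.Adj x y ∧ ¬ U.Adj x y :=
  SimpleGraph.sdiff_adj _ _ _ _

/-- Edges of `F` at `x`. -/
noncomputable def inc [Fintype V] (F : SimpleGraph V) (x : V) : Finset (Sym2 V) :=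
  (univ.filter (F.Adj x)).image (fun y => s(x, y))

theorem meet_bound [Fintype V] (G U : SimpleGraph V) (K : ℕ) (hdeg : ∀ x, K ≤ dg G univ x)
    (C : Finset V) :
    2 * C.card * K + C.card + 2 * eh U (univ \ C)
      ≤ 2 * (C.biUnion (inc (fr G U))).card + 2 * eh U univ + C.card * C.card := by
  induction C using Finset.induction_on with
  | empty => simp
  | insert c C hc ih =>
    have h1 : (C.biUnion (inc (fr G U))).card + ((univ \ C).filter ((fr G U).Adj c)).card
        ≤ ((insert c C).biUnion (inc (fr G U))).card := by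
      have a1 : (((univ \ C).filter ((fr G U).Adj c)).image (fun y => s(c, y))).card
          = ((univ \ C).filter ((fr G U).Adj c)).card := by
        refine card_image_of_injOn (fun y _ y' _ h => ?_)
        exact Sym2.congr_right.1 h
      rw [← a1, ← card_union_of_disjoint]
      · refine card_le_card (union_subset (biUnion_subset_biUnion_of_subset_left _
          (subset_insert _ _)) ?_)
        rw [biUnion_insert]
        refine Subset.trans ?_ subset_union_left
        exact image_subset_image (filter_subset_filter _ (subset_univ _))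
      · rw [disjoint_left]
        intro e he he'
        obtain ⟨x, hx, he⟩ := mem_biUnion.1 he
        obtain ⟨y, _, rfl⟩ := mem_image.1 he
        obtain ⟨z, hz, h⟩ := mem_image.1 he'
        rcases Sym2.eq_iff.1 h with ⟨h1, _⟩ | ⟨_, h2⟩
        · exact hc (h1 ▸ hx)
        · exact (mem_sdiff.1 (mem_filter.1 hz).1).2 (h2 ▸ hx)
    have h2 : dg G univ c ≤ ((univ \ C).filter ((fr G U).Adj c)).card + dg U (univ \ C) c
        + C.card := by
      unfold dg
      refine le_trans (card_le_card (t := ((univ \ C).filter ((fr G U).Adj c)) ∪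
        ((univ \ C).filter (U.Adj c)) ∪ C) ?_) ((card_union_le _ _).trans
          (Nat.add_le_add_right (card_union_le _ _) _))
      intro y hy
      have := (mem_filter.1 hy).2
      by_cases h1 : y ∈ C <;> by_cases h2 : U.Adj c y <;> simp [h1, h2, this, fr_adj]
    have h3 := eh_erase U (A := univ \ C) (v := c) (mem_sdiff.2 ⟨mem_univ _, hc⟩)
    have h4 : (univ \ C).erase c = univ \ insert c C := by
      ext y; simp only [mem_erase, mem_sdiff, mem_insert, mem_univ, true_and, not_or]
    rw [h4] at h3
    have h5 := hdeg c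
    rw [card_insert_of_notMem hc]
    nlinarith

theorem hall_stars [Fintype V] (G U : SimpleGraph V) (K : ℕ) (hdeg : ∀ x, K ≤ dg G univ x)
    (I : Finset ℕ) (c : ℕ → V) (hc : Set.InjOn c I) (hI : ∀ j ∈ I, j ≤ K)
    (h : ∀ J ⊆ I, 2 * eh U univ + J.card * J.card
      ≤ 2 * ∑ j ∈ J, j + J.card + 2 * eh U (univ \ J.image c)) :
    ∃ N : ℕ → Finset V, (∀ j ∈ I, (N j).card = K - j ∧ ∀ x ∈ N j, (fr G U).Adj (c j) x) ∧
      ∀ i ∈ I, ∀ j ∈ I, i ≠ j → ∀ x ∈ N i, ∀ y ∈ N j, s(c i, x) ≠ s(c j, y) := by
  let σ := Σ i : I, Fin (K - i)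
  have hall := (Finset.all_card_le_biUnion_card_iff_exists_injective
    (fun a : σ => inc (fr G U) (c a.1))).1 (by
      intro Q
      let J : Finset ℕ := Q.image (fun a => (a.1 : ℕ))
      have hJ : J ⊆ I := by
        intro j hj
        obtain ⟨a, _, rfl⟩ := mem_image.1 hj
        exact a.1.2
      have e1 : Q.biUnion (fun a : σ => inc (fr G U) (c a.1)) = (J.image c).biUnion (inc (fr G U)) := by
        rw [image_image, image_biUnion]; rfl
      have e2 : Q.card ≤ ∑ j ∈ J, (K - j) := by
        rw [card_eq_sum_card_image (fun a : σ => (a.1 : ℕ)) Q]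
        refine sum_le_sum (fun j _ => ?_)
        have : (Q.filter (fun a : σ => (a.1 : ℕ) = j)).card ≤ (range (K - j)).card := by
          refine card_le_card_of_injOn (fun a => (a.2 : ℕ)) ?_ ?_
          · intro a ha
            have := (mem_filter.1 (mem_coe.1 ha)).2
            rw [coe_range, Set.mem_Iio, ← this]
            exact a.2.2
          · rintro ⟨i, a⟩ ha ⟨i', a'⟩ ha' hh
            have e1 := (mem_filter.1 (mem_coe.1 ha)).2
            have e2 := (mem_filter.1 (mem_coe.1 ha')).2
            have e3 : i = i' := Subtype.ext (e1.trans e2.symm)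
            subst e3
            have : a = a' := Fin.ext hh
            rw [this]
        simpa using this
      have e3 : (J.image c).card = J.card := card_image_of_injOn (hc.mono (coe_subset.2 hJ))
      have e4 := meet_bound G U K hdeg (J.image c)
      have e5 := h J hJ
      have e6 : ∑ j ∈ J, (K - j) + ∑ j ∈ J, j = J.card * K := by
        rw [← sum_add_distrib, sum_congr rfl (fun j hj => Nat.sub_add_cancel (hI j (hJ hj))),
          sum_const, smul_eq_mul]
      rw [e1]
      rw [e3] at e4
      nlinarith)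
  obtain ⟨f, hf, hf2⟩ := hall
  have : ∀ a : σ, ∃ y, (fr G U).Adj (c a.1) y ∧ f a = s(c a.1, y) := by
    intro a
    obtain ⟨y, hy, h⟩ := mem_image.1 (hf2 a)
    exact ⟨y, (mem_filter.1 hy).2, h.symm⟩
  choose g hg1 hg2 using this
  refine ⟨fun j => if hj : j ∈ I then (univ : Finset (Fin (K - j))).image (fun a => g ⟨⟨j, hj⟩, a⟩)
    else ∅, ?_, ?_⟩
  · intro j hj
    simp only [dif_pos hj]
    constructor
    · rw [card_image_of_injective, card_univ, Fintype.card_fin]
      intro a a' haa
      have : f ⟨⟨j, hj⟩, a⟩ = f ⟨⟨j, hj⟩, a'⟩ := by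
        rw [hg2, hg2]; simp only at haa; rw [haa]
      have := hf this
      exact eq_of_heq (Sigma.mk.inj_iff.1 this).2
    · intro x hx
      obtain ⟨a, _, rfl⟩ := mem_image.1 hx
      exact hg1 ⟨⟨j, hj⟩, a⟩
  · intro i hi j hj hij x hx y hy he
    simp only [dif_pos hi] at hx
    simp only [dif_pos hj] at hy
    obtain ⟨a, _, rfl⟩ := mem_image.1 hx
    obtain ⟨b, _, rfl⟩ := mem_image.1 hy
    have : f ⟨⟨i, hi⟩, a⟩ = f ⟨⟨j, hj⟩, b⟩ := by
      rw [hg2, hg2]; exact he
    have := congrArg (fun a : σ => (a.1 : ℕ)) (hf this)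
    exact hij this

theorem numeric (q : ℕ) (J : Finset ℕ) (h : ∀ j ∈ J, 1 ≤ j ∧ j ≠ q + 1) :
    (∀ x, (∀ j ∈ J, j < x) → 1 ≤ x → x ≠ q + 1 → J.card + 1 ≤ x ∧ (q ≤ J.card → J.card + 2 ≤ x)) ∧
    (J.card * J.card + J.card ≤ 2 * ∑ j ∈ J, j) ∧
    (J.card * J.card + 3 * J.card ≤ 2 * ∑ j ∈ J, j + 2 * q) ∧
    ∀ y ∈ J, J.card * J.card + J.card + 2 * y ≤ 2 * ∑ j ∈ J, j + 2 * q + 2 := by
  induction J using Finset.induction_on_max with
  | empty =>
    refine ⟨fun x _ h1 h2 => ?_, by simp, by simp, by simp⟩
    simp only [card_empty]; omega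
  | insert a J ha ih =>
    have haJ : a ∉ J := fun h' => lt_irrefl _ (ha a h')
    obtain ⟨h1, h2, h3, _⟩ := ih (fun j hj => h j (mem_insert_of_mem hj))
    obtain ⟨h5, h6⟩ := h1 a ha (h a (mem_insert_self _ _)).1 (h a (mem_insert_self _ _)).2
    rw [card_insert_of_notMem haJ, sum_insert haJ]
    have e : (J.card + 1) * (J.card + 1) = J.card * J.card + 2 * J.card + 1 := by ring
    rw [e]
    refine ⟨fun x hx _ hx2 => ?_, by omega, by omega, fun y hy => ?_⟩
    · have := hx a (mem_insert_self _ _)
      omega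
    · have : y ≤ a := by
        rcases mem_insert.1 hy with rfl | hy
        · exact le_rfl
        · exact (ha y hy).le
      omega

theorem chain [Nonempty V] (P : Finset V → Prop) (X : Finset V)
    (hP : ∀ C ⊆ X, C.Nonempty → P C → ∃ c ∈ C, P (C.erase c)) :
    ∀ (n : ℕ) (C : Finset V), C.card = n → C ⊆ X → P C →
      ∃ xs : ℕ → V, (∀ i, i < n → xs i ∈ C) ∧ (∀ i j, i < n → j < n → xs i = xs j → i = j) ∧
        ∀ m, m ≤ n → P ((range m).image xs) := by
  intro n
  induction n with
  | zero =>
    intro C hC _ h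
    obtain ⟨v⟩ := (inferInstance : Nonempty V)
    rw [card_eq_zero] at hC
    refine ⟨fun _ => v, fun i hi => absurd hi (by omega), fun i _ hi => absurd hi (by omega),
      fun m hm => ?_⟩
    have : m = 0 := by omega
    subst this
    simpa [hC] using h
  | succ n ih =>
    intro C hC hX h
    obtain ⟨c, hc, hc'⟩ := hP C hX (card_pos.1 (by omega)) h
    obtain ⟨xs, h1, h2, h3⟩ := ih (C.erase c) (by rw [card_erase_of_mem hc]; omega)
      ((erase_subset _ _).trans hX) hc'
    have hu : ∀ i, i < n → Function.update xs n c i = xs i :=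
      fun i hi => Function.update_of_ne (by omega) _ _
    have g1 : ∀ i, i < n + 1 → Function.update xs n c i ∈ C := by
      intro i hi
      by_cases hin : i = n
      · rw [hin, Function.update_self]; exact hc
      · rw [hu i (by omega)]; exact mem_of_mem_erase (h1 i (by omega))
    have g2 : ∀ i j, i < n + 1 → j < n + 1 →
        Function.update xs n c i = Function.update xs n c j → i = j := by
      intro i j hi hj hij
      by_cases hin : i = n <;> by_cases hjn : j = n
      · omega
      · rw [hin, Function.update_self, hu j (by omega)] at hij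
        exact absurd hij.symm (ne_of_mem_erase (h1 j (by omega)))
      · rw [hjn, Function.update_self, hu i (by omega)] at hij
        exact absurd hij (ne_of_mem_erase (h1 i (by omega)))
      · rw [hu i (by omega), hu j (by omega)] at hij
        exact h2 i j (by omega) (by omega) hij
    refine ⟨Function.update xs n c, g1, g2, fun m hm => ?_⟩
    by_cases hmn : m = n + 1
    · have : (range m).image (Function.update xs n c) = C := by
        refine eq_of_subset_of_card_le ?_ ?_
        · intro x hx
          obtain ⟨i, hi, rfl⟩ := mem_image.1 hx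
          exact g1 i (hmn ▸ mem_range.1 hi)
        · rw [card_image_of_injOn, card_range]
          · omega
          · intro i hi j hj hij
            exact g2 i j (hmn ▸ mem_range.1 (mem_coe.1 hi)) (hmn ▸ mem_range.1 (mem_coe.1 hj)) hij
      rw [this]; exact h
    · have : (range m).image (Function.update xs n c) = (range m).image xs :=
        image_congr (fun i hi => hu i (by have := mem_range.1 (mem_coe.1 hi); omega))
      rw [this]; exact h3 m (by omega)

/-- The stars can be added last. -/
theorem stars_last [Fintype V] [Nonempty V] (G U : SimpleGraph V) (b q t d1 : ℕ) (hb : 2 ≤ b)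
    (hn : Fintype.card V = b + 1 + q + t) (hdeg : ∀ x, b + q ≤ dg G univ x)
    (hU : eh U univ + 1 ≤ 2 * b + q)
    (X : Finset V) (hX : X.card = q) (cnt : Finset V → ℕ)
    (hc1 : ∀ C ⊆ X, eh U univ ≤ cnt C + eh U (univ \ C)) (hc2 : cnt X ≤ q)
    (hc3 : ∀ C ⊆ X, C.Nonempty → cnt C ≤ C.card → ∃ c ∈ C, cnt (C.erase c) + 1 ≤ C.card)
    (l1 : List V) (hl1 : l1.Nodup) (hsub : ∀ x ∈ l1, x ∉ X) (hdef : defc U l1 ≤ d1)
    (hd1 : d1 ≤ 2 * t + 3)
    (hY : b + 1 + t ≤ l1.length + 2 ∨ b + 1 + 2 * d1 < l1.length + 3 * t + 6) :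
    ∃ (c : ℕ → V) (N : ℕ → Finset V),
      (∀ j, 1 ≤ j → j < b + q → j ≠ q + 1 →
        (N j).card = b + q - j ∧ ∀ x ∈ N j, (fr G U).Adj (c j) x) ∧
      ∀ i j, 1 ≤ i → i < b + q → i ≠ q + 1 → 1 ≤ j → j < b + q → j ≠ q + 1 → i ≠ j →
        ∀ x ∈ N i, ∀ y ∈ N j, s(c i, x) ≠ s(c j, y) := by
  obtain ⟨xs, x1, x2, x3⟩ := chain (fun C => cnt C ≤ C.card) X
    (fun C hC hne h => by
      obtain ⟨c, hc, h'⟩ := hc3 C hC hne h
      refine ⟨c, hc, ?_⟩
      have := card_erase_add_one hc
      omega) q X hX (Subset.refl _) (by omega)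
  have hW : (univ \ X).card = b + 1 + t := by
    rw [card_sdiff_of_subset (subset_univ _), card_univ]; omega
  have hsub' : l1.toFinset ⊆ univ \ X := fun x hx =>
    mem_sdiff.2 ⟨mem_univ _, hsub x (List.mem_toFinset.1 hx)⟩
  have hs0 := hc1 X (Subset.refl _)
  obtain ⟨c, c1, c2, c3⟩ := peel_main U ((q : ℤ) - eh U univ + 2 * (b + 1 + t)) (2 * t + 3) d1
    (t + 3) (b - 2) (by push_cast; omega) hd1 (by omega) (univ \ X) (by omega)
    (by rw [hW]; push_cast; omega) l1 hl1 hsub' hdef
    (by rw [card_sdiff_of_subset hsub', hW, List.toFinset_card_of_nodup hl1]; omega)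
  let cc : ℕ → V := fun j => if j ≤ q then xs (j - 1) else c (j - q - 2)
  let I : Finset ℕ := (Ico 1 (b + q)).erase (q + 1)
  have memI : ∀ j, j ∈ I ↔ 1 ≤ j ∧ j < b + q ∧ j ≠ q + 1 := by
    intro j; simp only [I, mem_erase, mem_Ico]; tauto
  have hinj : Set.InjOn cc I := by
    intro i hi j hj hij
    obtain ⟨i1, i2, i3⟩ := (memI i).1 hi
    obtain ⟨j1, j2, j3⟩ := (memI j).1 hj
    simp only [cc] at hij
    split_ifs at hij with h1 h2 h2
    · have := x2 _ _ (by omega) (by omega) hij; omega
    · exact absurd (hij ▸ x1 (i - 1) (by omega)) (mem_sdiff.1 (c1 (j - q - 2) (by omega))).2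
    · exact absurd (hij ▸ x1 (j - 1) (by omega)) (mem_sdiff.1 (c1 (i - q - 2) (by omega))).2
    · have := c2 _ _ (by omega) (by omega) hij; omega
  obtain ⟨N, N1, N2⟩ := hall_stars G U (b + q) hdeg I cc hinj
    (fun j hj => ((memI j).1 hj).2.1.le) (by
      intro J hJ
      rcases J.eq_empty_or_nonempty with rfl | hne
      · simp
      obtain ⟨x, hx, hmax⟩ := exists_max_image J id hne
      obtain ⟨p1, p2, p3⟩ := (memI x).1 (hJ hx)
      obtain ⟨_, n2, _, n4⟩ := numeric q (J.erase x) (fun j hj => by
        have := (memI j).1 (hJ (mem_of_mem_erase hj)); exact ⟨this.1, this.2.2⟩)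
      have e1 : (J.erase x).card + 1 = J.card := card_erase_add_one hx
      have e2 : x + ∑ j ∈ J.erase x, j = ∑ j ∈ J, j := add_sum_erase J id hx
      have e3 : J.card * J.card = (J.erase x).card * (J.erase x).card + 2 * (J.erase x).card + 1 := by
        rw [← e1]; ring
      by_cases hxq : x ≤ q
      · have a1 : J.image cc ⊆ (range x).image xs := by
          intro v hv
          obtain ⟨j, hj, rfl⟩ := mem_image.1 hv
          have b1 : j ≤ x := hmax j hj
          have b2 := ((memI j).1 (hJ hj)).1
          refine mem_image.2 ⟨j - 1, mem_range.2 (by omega), ?_⟩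
          simp only [cc]; rw [if_pos (by omega)]
        have a2 : (range x).image xs ⊆ X := by
          intro v hv
          obtain ⟨j, hj, rfl⟩ := mem_image.1 hv
          exact x1 j (by have := mem_range.1 hj; omega)
        have a3 := hc1 _ a2
        have a4 := x3 x hxq
        have a5 : ((range x).image xs).card ≤ x := card_image_le.trans (by simp)
        have a6 := eh_mono U (sdiff_subset_sdiff (Subset.refl (univ : Finset V)) a1)
        omega
      · obtain ⟨m', m1, m2, m3⟩ : ∃ m', (∀ y ∈ J.erase x, y - (q + 1) ≤ m') ∧ m' ≤ x - q - 2 ∧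
            (J.erase x).card * (J.erase x).card + (J.erase x).card + 2 * m'
              ≤ 2 * ∑ j ∈ J.erase x, j := by
          rcases (J.erase x).eq_empty_or_nonempty with he | he
          · exact ⟨0, by simp [he], by omega, by omega⟩
          · obtain ⟨y, hy, hym⟩ := exists_max_image (J.erase x) id he
            have b1 : y ≤ x := hmax y (mem_of_mem_erase hy)
            have b2 := ne_of_mem_erase hy
            have b3 := n4 y hy
            refine ⟨y - (q + 1), fun z hz => ?_, by omega, by omega⟩
            have : z ≤ y := hym z hz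
            omega
        have a1 := c3 m' (x - q - 2) m2 (by omega)
        have a2 : (rem (univ \ X) c m').erase (c (x - q - 2)) ⊆ univ \ J.image cc := by
          intro v hv
          obtain ⟨b1, b2⟩ := mem_erase.1 hv
          obtain ⟨b2, b3⟩ := mem_rem.1 b2
          refine mem_sdiff.2 ⟨mem_univ _, fun hv' => ?_⟩
          obtain ⟨j, hj, rfl⟩ := mem_image.1 hv'
          obtain ⟨j1, j2, j3⟩ := (memI j).1 (hJ hj)
          simp only [cc] at b1 b2 b3
          by_cases hjq : j ≤ q
          · rw [if_pos hjq] at b2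
            exact (mem_sdiff.1 b2).2 (x1 _ (by omega))
          · rw [if_neg hjq] at b1 b3
            by_cases hjx : j = x
            · exact b1 (by rw [hjx])
            · have := m1 j (mem_erase.2 ⟨hjx, hj⟩)
              exact b3 (j - q - 2) (by omega) rfl
        have a3 := eh_mono U a2
        rw [hW] at a1
        push_cast at a1
        omega)
  exact ⟨cc, N, fun j h1 h2 h3 => N1 j ((memI j).2 ⟨h1, h2, h3⟩),
    fun i j i1 i2 i3 j1 j2 j3 => N2 i ((memI i).2 ⟨i1, i2, i3⟩) j ((memI j).2 ⟨j1, j2, j3⟩)⟩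

end Pool.Agent.Lib.MP_2b1ae8_co.TN
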