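import Mathlib
import Pool.Agent.Lib.MP_2b1ae8_co.TNStar
import Pool.Agent.Lib.MP_2b1ae8_co.TNAlign

set_option autoImplicit false

namespace Pool.Agent.Lib.MP_2b1ae8_co.TN

open Finset
open scoped Classical

variable {α β V : Type}

/-- `φ` embeds the subgraph of `H` on `A` into `Γ`. -/
structure Emb (H : SimpleGraph α) (Γ : SimpleGraph V) (A : Finset α) (φ : α → V) : Prop where
  inj : ∀ u ∈ A, ∀ v ∈ A, φ u = φ v → u = v
  hom : ∀ u ∈ A, ∀ v ∈ A, H.Adj u v → Γ.Adj (φ u) (φ v)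

/-- The image of the subgraph of `H` on `A`. -/
def img (H : SimpleGraph α) (A : Finset α) (φ : α → V) : SimpleGraph V where
  Adj x y := x ≠ y ∧ ∃ u ∈ A, ∃ v ∈ A, H.Adj u v ∧ φ u = x ∧ φ v = y
  symm := ⟨fun _ _ ⟨h, u, hu, v, hv, h1, h2, h3⟩ => ⟨h.symm, v, hv, u, hu, h1.symm, h3, h2⟩⟩
  loopless := ⟨fun _ h => h.1 rfl⟩

theorem img_adj {H : SimpleGraph α} {A : Finset α} {φ : α → V} {x y : V} :
    (img H A φ).Adj x y ↔ x ≠ y ∧ ∃ u ∈ A, ∃ v ∈ A, H.Adj u v ∧ φ u = x ∧ φ v = y := Iff.rfl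

theorem Emb.card {H : SimpleGraph α} {Γ : SimpleGraph V} {A : Finset α} {φ : α → V}
    (h : Emb H Γ A φ) : (A.image φ).card = A.card :=
  card_image_of_injOn (fun u hu v hv e => h.inj u hu v hv e)

theorem Emb.mono {H : SimpleGraph α} {Γ : SimpleGraph V} {A B : Finset α} {φ : α → V}
    (h : Emb H Γ A φ) (hB : B ⊆ A) : Emb H Γ B φ :=
  ⟨fun u hu v hv => h.inj u (hB hu) v (hB hv), fun u hu v hv => h.hom u (hB hu) v (hB hv)⟩

theorem Emb.congr {H : SimpleGraph α} {Γ : SimpleGraph V} {A : Finset α} {φ ψ : α → V}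
    (h : Emb H Γ A φ) (e : ∀ u ∈ A, ψ u = φ u) : Emb H Γ A ψ :=
  ⟨fun u hu v hv h' => h.inj u hu v hv (by rw [← e u hu, ← e v hv]; exact h'),
    fun u hu v hv h' => by rw [e u hu, e v hv]; exact h.hom u hu v hv h'⟩

theorem Emb.of_fr {H : SimpleGraph α} {G U : SimpleGraph V} {A : Finset α} {φ : α → V}
    (h : Emb H (fr G U) A φ) : Emb H G A φ :=
  ⟨h.inj, fun u hu v hv h' => (fr_adj.1 (h.hom u hu v hv h')).1⟩

theorem Emb.swap {H : SimpleGraph α} {H' : SimpleGraph β} {G : SimpleGraph V} {A : Finset α}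
    {A' : Finset β} {φ : α → V} {φ' : β → V} (h : Emb H (fr G (img H' A' φ')) A φ)
    (h' : Emb H' G A' φ') : Emb H' (fr G (img H A φ)) A' φ' := by
  refine ⟨h'.inj, fun u hu v hv huv => fr_adj.2 ⟨h'.hom u hu v hv huv, ?_⟩⟩
  rintro ⟨hne, a, ha, b, hb, hab, e1, e2⟩
  exact (fr_adj.1 (h.hom a ha b hb hab)).2 ⟨by rw [e1, e2]; exact hne, u, hu, v, hv, huv,
    e1.symm, e2.symm⟩

theorem Emb.img_adj {H : SimpleGraph α} {Γ : SimpleGraph V} {A : Finset α} {φ : α → V}
    (h : Emb H Γ A φ) {u v : α} (hu : u ∈ A) (hv : v ∈ A) (huv : H.Adj u v) :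
    (img H A φ).Adj (φ u) (φ v) :=
  ⟨(h.hom u hu v hv huv).ne, u, hu, v, hv, huv, rfl, rfl⟩

theorem Emb.dg_img {H : SimpleGraph α} {Γ : SimpleGraph V} {A : Finset α} {φ : α → V}
    (h : Emb H Γ A φ) (Y : Finset V) {v : α} (hv : v ∈ A) :
    dg (img H A φ) Y (φ v) = (A.filter (fun w => H.Adj v w ∧ φ w ∈ Y)).card := by
  unfold dg
  rw [← (h.mono (filter_subset (fun w => H.Adj v w ∧ φ w ∈ Y) A)).card]
  congr 1
  ext x
  simp only [mem_filter, mem_image]
  constructor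
  · rintro ⟨hx, _, a, ha, b, hb, hab, e1, e2⟩
    rw [h.inj a ha v hv e1] at hab
    exact ⟨b, ⟨hb, hab, e2 ▸ hx⟩, e2⟩
  · rintro ⟨w, ⟨h1, h2, h3⟩, rfl⟩
    exact ⟨h3, h.img_adj hv h1 h2⟩

theorem Emb.dg_img_univ [Fintype V] {H : SimpleGraph α} {Γ : SimpleGraph V} {A : Finset α}
    {φ : α → V} (h : Emb H Γ A φ) {v : α} (hv : v ∈ A) :
    dg (img H A φ) univ (φ v) = dg H A v := by
  rw [h.dg_img univ hv]; unfold dg; congr 1; ext w; simp

theorem dg_img_zero {H : SimpleGraph α} {A : Finset α} {φ : α → V} (Y : Finset V) {x : V}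
    (hx : x ∉ A.image φ) : dg (img H A φ) Y x = 0 := by
  unfold dg
  rw [card_eq_zero, filter_eq_empty_iff]
  rintro y _ ⟨_, a, ha, _, _, _, e, _⟩
  exact hx (mem_image.2 ⟨a, ha, e⟩)

theorem dg_eq_zero {U : SimpleGraph V} {Y : Finset V} {x : V} (h : ∀ y ∈ Y, ¬ U.Adj x y) :
    dg U Y x = 0 := by
  unfold dg
  rw [card_eq_zero, filter_eq_empty_iff]
  exact h

theorem deg_split [Fintype V] (G U : SimpleGraph V) (Y : Finset V) (x : V) :
    dg G univ x ≤ dg (fr G U) (univ \ Y) x + dg U (univ \ Y) x + (Y.erase x).card := by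
  unfold dg
  refine le_trans (card_le_card (t := ((univ \ Y).filter ((fr G U).Adj x)) ∪
    ((univ \ Y).filter (U.Adj x)) ∪ Y.erase x) ?_) ((card_union_le _ _).trans
      (Nat.add_le_add_right (card_union_le _ _) _))
  intro y hy
  have h0 := (mem_filter.1 hy).2
  have h3 : y ≠ x := h0.ne.symm
  by_cases h1 : y ∈ Y <;> by_cases h2 : U.Adj x y <;> simp [h1, h2, h0, h3, fr_adj]

theorem card_union_erase_le (Z Y : Finset V) (x : V) :
    ((Z ∪ Y).erase x).card ≤ (Z.erase x).card + (Y.erase x).card := by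
  rw [erase_union_distrib]; exact card_union_le _ _

theorem Emb.insert {H : SimpleGraph α} {Γ : SimpleGraph V} {A : Finset α} {φ : α → V}
    (h : Emb H Γ A φ) {v : α} (hv : v ∉ A) {x : V} (hx : x ∉ A.image φ)
    (hadj : ∀ u ∈ A, H.Adj u v → Γ.Adj (φ u) x) :
    Emb H Γ (insert v A) (Function.update φ v x) := by
  have hu : ∀ u ∈ A, Function.update φ v x u = φ u :=
    fun u hu => Function.update_of_ne (fun (e : u = v) => hv (e ▸ hu)) _ _
  have hs : Function.update φ v x v = x := Function.update_self _ _ _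
  constructor
  · intro a ha b hb e
    rcases mem_insert.1 ha with ha | ha <;> rcases mem_insert.1 hb with hb | hb
    · rw [ha, hb]
    · rw [ha, hs, hu b hb] at e; exact absurd (mem_image.2 ⟨b, hb, e.symm⟩) hx
    · rw [hb, hs, hu a ha] at e; exact absurd (mem_image.2 ⟨a, ha, e⟩) hx
    · rw [hu a ha, hu b hb] at e; exact h.inj a ha b hb e
  · intro a ha b hb e
    rcases mem_insert.1 ha with ha | ha <;> rcases mem_insert.1 hb with hb | hb
    · rw [ha, hb] at e; exact absurd e H.irrefl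
    · rw [ha] at e ⊢; rw [hs, hu b hb]; exact (hadj b hb e.symm).symm
    · rw [hb] at e ⊢; rw [hs, hu a ha]; exact hadj a ha e
    · rw [hu a ha, hu b hb]; exact h.hom a ha b hb e

theorem image_update_insert {A : Finset α} {φ : α → V} {v : α} (hv : v ∉ A) (x : V) :
    (insert v A).image (Function.update φ v x) = insert x (A.image φ) := by
  rw [image_insert, Function.update_self]
  congr 1
  exact image_congr (fun u hu => Function.update_of_ne (fun (e : u = v) => hv (e ▸ mem_coe.1 hu)) _ _)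

/-- Greedy extension of a tree embedding. -/
theorem ext_emb [Fintype V] {H : SimpleGraph α} (hT : Tr H) (Γ : SimpleGraph V) (Z : Finset V)
    (B : Finset α) (hB : Conn H B) : ∀ (n : ℕ) (A : Finset α) (φ : α → V), Conn H A → A ⊆ B →
    A.card + n = B.card → Emb H Γ A φ →
    (∀ u ∈ A, (∃ v ∈ B, v ∉ A ∧ H.Adj u v) → n ≤ dg Γ (univ \ (Z ∪ A.image φ)) (φ u)) →
    ((∃ u ∈ B, ∃ v ∈ B, u ∉ A ∧ v ∉ A ∧ H.Adj u v) → ∀ x, x ∉ Z → x ∉ A.image φ →
      n ≤ dg Γ (univ \ (Z ∪ A.image φ)) x + 1) →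
    ∃ ψ, Emb H Γ B ψ ∧ (∀ u ∈ A, ψ u = φ u) ∧ ∀ v ∈ B, v ∉ A → ψ v ∉ Z := by
  intro n
  induction n with
  | zero =>
    intro A φ _ hAB hc hE _ _
    have : A = B := eq_of_subset_of_card_le hAB (by omega)
    subst this
    exact ⟨φ, hE, fun _ _ => rfl, fun v hv hv' => absurd hv hv'⟩
  | succ n ih =>
    intro A φ hA hAB hc hE h1 h2
    obtain ⟨v, hvB, hvA, u, hu, huv⟩ := hA.step hT hB hAB (by omega)
    have a1 := h1 u hu ⟨v, hvB, hvA, huv⟩
    obtain ⟨x, hx⟩ : ((univ \ (Z ∪ A.image φ)).filter (Γ.Adj (φ u))).Nonempty :=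
      card_pos.1 (by unfold dg at a1; omega)
    obtain ⟨hx1, hx2⟩ := mem_filter.1 hx
    have hx3 := (mem_sdiff.1 hx1).2
    rw [mem_union, not_or] at hx3
    have hE' := hE.insert hvA hx3.2 (fun w hw hwv => by
      rw [hA.uniq hT hvA hw hu hwv huv]; exact hx2)
    have e : univ \ (Z ∪ (insert v A).image (Function.update φ v x))
        = (univ \ (Z ∪ A.image φ)).erase x := by
      rw [image_update_insert hvA]
      ext y; simp only [mem_sdiff, mem_univ, mem_union, mem_insert, mem_erase, true_and]; tauto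
    have hle : ∀ w, dg Γ (univ \ (Z ∪ A.image φ)) w
        = dg Γ ((univ \ (Z ∪ A.image φ)).erase x) w + if Γ.Adj w x then 1 else 0 :=
      dg_erase Γ hx1
    have hu' : ∀ u ∈ A, Function.update φ v x u = φ u :=
      fun u hu => Function.update_of_ne (fun (e : u = v) => hvA (e ▸ hu)) _ _
    obtain ⟨ψ, p1, p2, p3⟩ := ih (insert v A) (Function.update φ v x) (Conn.add _ u v hA hu huv)
      (insert_subset hvB hAB) (by rw [card_insert_of_notMem hvA]; omega) hE'
      (by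
        rintro w hw ⟨v', hv'B, hv'A, hwv'⟩
        rw [e]
        have n1 : v' ∉ A := fun h => hv'A (mem_insert_of_mem h)
        rcases mem_insert.1 hw with rfl | hw
        · rw [Function.update_self]
          have b1 := h2 ⟨w, hvB, v', hv'B, hvA, n1, hwv'⟩ x hx3.1 hx3.2
          have b2 := hle x
          rw [if_neg Γ.irrefl] at b2
          omega
        · rw [hu' w hw]
          have b1 := h1 w hw ⟨v', hv'B, n1, hwv'⟩
          have b2 := hle (φ w)
          split_ifs at b2 <;> omega)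
      (by
        rintro ⟨a, ha, b, hb, ha', hb', hab⟩ y hy1 hy2
        rw [e]
        rw [image_update_insert hvA] at hy2
        have b1 := h2 ⟨a, ha, b, hb, fun h => ha' (mem_insert_of_mem h),
          fun h => hb' (mem_insert_of_mem h), hab⟩ y hy1 (fun h => hy2 (mem_insert_of_mem h))
        have b2 := hle y
        split_ifs at b2 <;> omega)
    refine ⟨ψ, p1, fun w hw => by rw [p2 w (mem_insert_of_mem hw), hu' w hw], fun w hw hwA => ?_⟩
    by_cases hwv : w = v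
    · rw [hwv, p2 v (mem_insert_self _ _), Function.update_self]; exact hx3.1
    · exact p3 w hw (fun h => (mem_insert.1 h).elim hwv hwA)

/-- Embedding a two-degenerate structure by common neighbours. -/
theorem embed_two [Fintype V] [Nonempty V] (G : SimpleGraph V) (K : ℕ)
    (hdeg : ∀ x, K ≤ dg G univ x) (ρ : α → ℕ) (Rq : α → α → Prop) :
    ∀ (n : ℕ) (S : Finset α), S.card = n → S.card + Fintype.card V ≤ 2 * K + 2 →
      (∀ v ∈ S, ∀ u, Rq v u → u ∈ S ∧ ρ u < ρ v) →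
      (∀ v ∈ S, ∃ p1 p2, ∀ u, Rq v u → u = p1 ∨ u = p2) →
      ∃ φ : α → V, (∀ u ∈ S, ∀ v ∈ S, φ u = φ v → u = v) ∧
        ∀ v ∈ S, ∀ u, Rq v u → G.Adj (φ v) (φ u) := by
  intro n
  induction n with
  | zero =>
    intro S hS _ _ _
    obtain ⟨x⟩ := (inferInstance : Nonempty V)
    rw [card_eq_zero] at hS
    subst hS
    exact ⟨fun _ => x, by simp, by simp⟩
  | succ n ih =>
    intro S hS hc h1 h2
    obtain ⟨v, hv, hmax⟩ := exists_max_image S ρ (card_pos.1 (by omega))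
    have ce := card_erase_add_one hv
    have g1 : ∀ w ∈ S, ∀ u, Rq w u → u ∈ S.erase v := by
      intro w hw u hu
      refine mem_erase.2 ⟨fun e => ?_, (h1 w hw u hu).1⟩
      have a1 := (h1 w hw u hu).2
      have a2 := hmax w hw
      rw [e] at a1; omega
    obtain ⟨φ, p1, p2⟩ := ih (S.erase v) (by omega) (by omega)
      (fun w hw u hu => ⟨g1 w (mem_of_mem_erase hw) u hu, (h1 w (mem_of_mem_erase hw) u hu).2⟩)
      (fun w hw => h2 w (mem_of_mem_erase hw))
    obtain ⟨q1, q2, hq⟩ := h2 v hv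
    have hnon : ∀ x : V, ((univ.filter (fun y => ¬ G.Adj x y)).erase x).card + K + 1
        ≤ Fintype.card V := by
      intro x
      have a1 := card_filter_add_card_filter_not (s := (univ : Finset V)) (G.Adj x)
      have a2 := hdeg x
      have a3 := card_erase_add_one (s := univ.filter (fun y => ¬ G.Adj x y)) (a := x)
        (mem_filter.2 ⟨mem_univ _, G.irrefl⟩)
      unfold dg at a2
      rw [card_univ] at a1
      omega
    obtain ⟨x, _, hx⟩ : ∃ x ∈ (univ : Finset V), x ∉ (S.erase v).image φ ∪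
        ((univ.filter (fun y => ¬ G.Adj (φ q1) y)).erase (φ q1) ∪
          (univ.filter (fun y => ¬ G.Adj (φ q2) y)).erase (φ q2)) := by
      refine exists_mem_notMem_of_card_lt_card ?_
      have a1 := card_union_le ((S.erase v).image φ)
        ((univ.filter (fun y => ¬ G.Adj (φ q1) y)).erase (φ q1) ∪
          (univ.filter (fun y => ¬ G.Adj (φ q2) y)).erase (φ q2))
      have a2 := card_union_le ((univ.filter (fun y => ¬ G.Adj (φ q1) y)).erase (φ q1))
          ((univ.filter (fun y => ¬ G.Adj (φ q2) y)).erase (φ q2))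
      have a3 := hnon (φ q1)
      have a4 := hnon (φ q2)
      have a5 : ((S.erase v).image φ).card ≤ (S.erase v).card := card_image_le
      rw [card_univ]
      omega
    simp only [mem_union, not_or] at hx
    obtain ⟨x1, x2, x3⟩ := hx
    have hu : ∀ u ∈ S.erase v, Function.update φ v x u = φ u :=
      fun u hu => Function.update_of_ne (ne_of_mem_erase hu) _ _
    have hs : Function.update φ v x v = x := Function.update_self _ _ _
    refine ⟨Function.update φ v x, ?_, ?_⟩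
    · intro a ha b hb e
      by_cases h3 : a = v <;> by_cases h4 : b = v
      · rw [h3, h4]
      · rw [h3, hs, hu b (mem_erase.2 ⟨h4, hb⟩)] at e
        exact absurd (mem_image.2 ⟨b, mem_erase.2 ⟨h4, hb⟩, e.symm⟩) x1
      · rw [h4, hs, hu a (mem_erase.2 ⟨h3, ha⟩)] at e
        exact absurd (mem_image.2 ⟨a, mem_erase.2 ⟨h3, ha⟩, e⟩) x1
      · rw [hu a (mem_erase.2 ⟨h3, ha⟩), hu b (mem_erase.2 ⟨h4, hb⟩)] at e
        exact p1 a (mem_erase.2 ⟨h3, ha⟩) b (mem_erase.2 ⟨h4, hb⟩) e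
    · intro w hw u hwu
      rw [hu u (g1 w hw u hwu)]
      by_cases h3 : w = v
      · subst h3
        rw [hs]
        have n1 : x ≠ φ u := fun e => x1 (mem_image.2 ⟨u, g1 w hw u hwu, e.symm⟩)
        by_contra hn
        have : x ∈ (univ.filter (fun y => ¬ G.Adj (φ u) y)).erase (φ u) :=
          mem_erase.2 ⟨n1, mem_filter.2 ⟨mem_univ _, fun h => hn h.symm⟩⟩
        rcases hq u hwu with e | e
        · exact x2 (e ▸ this)
        · exact x3 (e ▸ this)
      · rw [hu w (mem_erase.2 ⟨h3, hw⟩)]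
        exact p2 w (mem_erase.2 ⟨h3, hw⟩) u hwu

theorem base_emb [Fintype V] [Nonempty V] (G : SimpleGraph V) (K : ℕ)
    (hdeg : ∀ x, K ≤ dg G univ x) {H : SimpleGraph α} {H' : SimpleGraph β} {a : α}
    {par : α → α} {d : α → ℕ} (R : Rooted H a par d) {O S : Finset α} {S' : Finset β}
    {σ : β → α} {ρ : α → ℕ} {r' : β} (hcl : ∀ v ∈ S, par v ∈ S)
    (A : Al par a H' O S S' σ ρ r') (hc : S.card + Fintype.card V ≤ 2 * K + 2) :
    ∃ φ : α → V, Emb H G S φ ∧ Emb H' (fr G (img H S φ)) S' (fun v => φ (σ v)) := by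
  obtain ⟨φ, p1, p2⟩ := embed_two G K hdeg ρ
    (fun v u => (v ≠ a ∧ u = par v) ∨
      ∃ v' ∈ S', ∃ u' ∈ S', H'.Adj u' v' ∧ σ v' = v ∧ σ u' = u ∧ ρ u < ρ v) _ S rfl hc
    (by
      rintro v hv u (⟨h1, rfl⟩ | ⟨v', _, u', hu', _, _, rfl, h⟩)
      · exact ⟨hcl v hv, A.lt v hv h1⟩
      · exact ⟨(A.maps u' hu').1, h⟩)
    (by
      intro v hv
      by_cases hex : ∃ v' ∈ S', ∃ u' ∈ S', H'.Adj u' v' ∧ σ v' = v ∧ ρ (σ u') < ρ v
      · obtain ⟨v', hv', u', hu', a1, a2, a3⟩ := hex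
        refine ⟨par v, σ u', ?_⟩
        rintro u (⟨_, rfl⟩ | ⟨v2, hv2, u2, hu2, b1, b2, rfl, b3⟩)
        · exact Or.inl rfl
        · have e : v2 = v' := A.inj _ hv2 _ hv' (b2.trans a2.symm)
          subst e
          rw [A.one v2 hv2 u2 hu2 u' hu' b1 a1 (b2 ▸ b3) (a2 ▸ a3)]
          exact Or.inr rfl
      · refine ⟨par v, par v, ?_⟩
        rintro u (⟨_, rfl⟩ | ⟨v2, hv2, u2, hu2, b1, b2, rfl, b3⟩)
        · exact Or.inl rfl
        · exact absurd ⟨v2, hv2, u2, hu2, b1, b2, b3⟩ hex)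
  refine ⟨φ, ⟨p1, fun u hu v hv huv => ?_⟩, ⟨fun u hu v hv e => ?_, ?_⟩⟩
  · rcases (R.adj _ _).1 huv with ⟨h1, h2⟩ | ⟨h1, h2⟩
    · exact p2 u hu v (Or.inl ⟨h1, h2.symm⟩)
    · exact (p2 v hv u (Or.inl ⟨h1, h2.symm⟩)).symm
  · exact A.inj u hu v hv (p1 _ (A.maps u hu).1 _ (A.maps v hv).1 e)
  · have key : ∀ u ∈ S', ∀ v ∈ S', H'.Adj u v → ρ (σ u) < ρ (σ v) →
        (fr G (img H S φ)).Adj (φ (σ u)) (φ (σ v)) := by
      intro u hu v hv huv hlt
      refine fr_adj.2 ⟨(p2 _ (A.maps v hv).1 _ (Or.inr ⟨v, hv, u, hu, huv, rfl, rfl, hlt⟩)).symm, ?_⟩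
      rintro ⟨_, x, hx, y, hy, hxy, e1, e2⟩
      have f1 := p1 _ hx _ (A.maps u hu).1 e1
      have f2 := p1 _ hy _ (A.maps v hv).1 e2
      subst f1 f2
      rcases (R.adj _ _).1 hxy with ⟨h1, h2⟩ | ⟨h1, h2⟩
      · have := A.lt _ hx h1
        rw [h2] at this; omega
      · exact A.disj u hu v hv huv hlt h2.symm
    intro u hu v hv huv
    rcases lt_trichotomy (ρ (σ u)) (ρ (σ v)) with h | h | h
    · exact key u hu v hv huv h
    · exact absurd (A.inj u hu v hv (A.rinj _ (A.maps u hu).1 _ (A.maps v hv).1 h)) huv.ne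
    · exact (key v hv u hu huv.symm h).symm

theorem rank_list (U : SimpleGraph V) (φ : α → V) (ρ : α → ℕ) :
    ∀ (n : ℕ) (S : Finset α), S.card = n → (∀ u ∈ S, ∀ v ∈ S, φ u = φ v → u = v) →
      (∀ u ∈ S, ∀ v ∈ S, ρ u = ρ v → u = v) →
      ∃ l : List V, l.Nodup ∧ l.toFinset = S.image φ ∧
        defc U l ≤ ∑ v ∈ S, (2 - (S.filter (fun u => ρ u < ρ v ∧ U.Adj (φ v) (φ u))).card) := by
  intro n
  induction n with
  | zero =>
    intro S hS _ _
    rw [card_eq_zero] at hS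
    subst hS
    exact ⟨[], List.nodup_nil, by simp, by simp [defc]⟩
  | succ n ih =>
    intro S hS h1 h2
    obtain ⟨v, hv, hmax⟩ := exists_max_image S ρ (card_pos.1 (by omega))
    have ce := card_erase_add_one hv
    obtain ⟨l, l1, l2, l3⟩ := ih (S.erase v) (by omega)
      (fun a ha b hb => h1 a (mem_of_mem_erase ha) b (mem_of_mem_erase hb))
      (fun a ha b hb => h2 a (mem_of_mem_erase ha) b (mem_of_mem_erase hb))
    refine ⟨φ v :: l, List.nodup_cons.2 ⟨fun h => ?_, l1⟩, ?_, ?_⟩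
    · have := List.mem_toFinset.2 h
      rw [l2] at this
      obtain ⟨w, hw, e⟩ := mem_image.1 this
      exact ne_of_mem_erase hw (h1 w (mem_of_mem_erase hw) v hv e)
    · rw [List.toFinset_cons, l2, ← image_insert, insert_erase hv]
    · rw [defc, l2, ← add_sum_erase S _ hv]
      have a1 : (S.filter (fun u => ρ u < ρ v ∧ U.Adj (φ v) (φ u))).card
          ≤ dg U ((S.erase v).image φ) (φ v) := by
        refine card_le_card_of_injOn φ (fun u hu => ?_) (fun a ha b hb e => ?_)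
        · obtain ⟨b1, b2, b3⟩ := mem_filter.1 (mem_coe.1 hu)
          refine mem_coe.2 (mem_filter.2 ⟨mem_image.2 ⟨u, mem_erase.2 ⟨?_, b1⟩, rfl⟩, b3⟩)
          intro e; rw [e] at b2; omega
        · exact h1 a (mem_filter.1 (mem_coe.1 ha)).1 b (mem_filter.1 (mem_coe.1 hb)).1 e
      have a2 : ∑ w ∈ S.erase v,
            (2 - ((S.erase v).filter (fun u => ρ u < ρ w ∧ U.Adj (φ w) (φ u))).card)
          = ∑ w ∈ S.erase v, (2 - (S.filter (fun u => ρ u < ρ w ∧ U.Adj (φ w) (φ u))).card) := by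
        refine sum_congr rfl (fun w hw => ?_)
        congr 2
        ext u
        simp only [mem_filter, mem_erase]
        constructor
        · rintro ⟨⟨_, b⟩, c⟩; exact ⟨b, c⟩
        · rintro ⟨b, c⟩
          refine ⟨⟨fun e => ?_, b⟩, c⟩
          have := hmax w (mem_of_mem_erase hw)
          rw [e] at c; omega
      omega

theorem base_def {H' : SimpleGraph β} {a : α} {par : α → α} {O S : Finset α} {S' : Finset β}
    {σ : β → α} {ρ : α → ℕ} {r' : β} (hcl : ∀ v ∈ S, par v ∈ S)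
    (A : Al par a H' O S S' σ ρ r') (hO : O ⊆ S) (haO : a ∈ O) (hc : S'.card + O.card = S.card)
    (U : SimpleGraph V) (φ : α → V) (h1 : ∀ v ∈ S, v ≠ a → U.Adj (φ v) (φ (par v)))
    (h2 : ∀ u ∈ S', ∀ v ∈ S', H'.Adj u v → U.Adj (φ (σ u)) (φ (σ v))) :
    ∑ v ∈ S, (2 - (S.filter (fun u => ρ u < ρ v ∧ U.Adj (φ v) (φ u))).card) ≤ O.card + 2 := by
  have hsurj : S'.image σ = S \ O := by
    refine eq_of_subset_of_card_le (fun v hv => ?_) ?_
    · obtain ⟨w, hw, rfl⟩ := mem_image.1 hv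
      exact mem_sdiff.2 (A.maps w hw)
    · rw [card_image_of_injOn (fun u hu v hv e => A.inj u hu v hv e), card_sdiff_of_subset hO]
      omega
  have key : ∀ v ∈ S, (2 - (S.filter (fun u => ρ u < ρ v ∧ U.Adj (φ v) (φ u))).card)
      ≤ (if v = a then 1 else 0) + (if v ∈ O then 1 else 0) + (if v = σ r' then 1 else 0) := by
    intro v hv
    by_cases hva : v = a
    · rw [if_pos hva, if_pos (hva ▸ haO)]; omega
    have m1 : par v ∈ S.filter (fun u => ρ u < ρ v ∧ U.Adj (φ v) (φ u)) :=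
      mem_filter.2 ⟨hcl v hv, A.lt v hv hva, h1 v hv hva⟩
    have c1 := card_pos.2 ⟨_, m1⟩
    by_cases hvO : v ∈ O
    · rw [if_pos hvO]; omega
    by_cases hvr : v = σ r'
    · rw [if_pos hvr]; omega
    obtain ⟨w, hw, rfl⟩ := mem_image.1 (hsurj ▸ mem_sdiff.2 ⟨hv, hvO⟩ : v ∈ S'.image σ)
    obtain ⟨u, hu, b1, b2⟩ := A.low w hw (fun e => hvr (by rw [e]))
    have m2 : σ u ∈ S.filter (fun u => ρ u < ρ (σ w) ∧ U.Adj (φ (σ w)) (φ u)) :=
      mem_filter.2 ⟨(A.maps u hu).1, b2, h2 w hw u hu b1.symm⟩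
    have := one_lt_card.2 ⟨_, m2, _, m1, A.disj u hu w hw b1 b2⟩
    omega
  refine (sum_le_sum key).trans ?_
  rw [sum_add_distrib, sum_add_distrib, sum_ite_eq', sum_ite_eq', ← card_filter,
    filter_mem_eq_inter, inter_eq_right.2 hO]
  split_ifs <;> omega

/-- Attaching leaves by Hall's theorem. -/
theorem leaf_emb [Fintype α] [Fintype V] {H : SimpleGraph α} {Γ : SimpleGraph V} {A : Finset α}
    {ψ : α → V} (hE : Emb H Γ A ψ) (p : α → α)
    (hp : ∀ l, l ∉ A → p l ∈ A ∧ ∀ w, H.Adj l w → w = p l)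
    (hall : ∀ Q ⊆ univ \ A, Q.card ≤
      (Q.biUnion (fun l => (univ \ A.image ψ).filter (Γ.Adj (ψ (p l))))).card) :
    ∃ φ, Emb H Γ univ φ ∧ ∀ u ∈ A, φ u = ψ u := by
  obtain ⟨f, hf, hf2⟩ := (Finset.all_card_le_biUnion_card_iff_exists_injective
    (fun l : {l // l ∉ A} => (univ \ A.image ψ).filter (Γ.Adj (ψ (p l))))).1 (by
      intro Q
      have := hall (Q.image Subtype.val) (fun v hv => by
        obtain ⟨w, _, rfl⟩ := mem_image.1 hv
        exact mem_sdiff.2 ⟨mem_univ _, w.2⟩)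
      rw [card_image_of_injective _ Subtype.val_injective, image_biUnion] at this
      exact this)
  have g1 : ∀ l, f l ∉ A.image ψ := fun l => (mem_sdiff.1 (mem_filter.1 (hf2 l)).1).2
  have g2 : ∀ l : {l // l ∉ A}, Γ.Adj (ψ (p l)) (f l) := fun l => (mem_filter.1 (hf2 l)).2
  refine ⟨fun v => if h : v ∈ A then ψ v else f ⟨v, h⟩, ⟨?_, ?_⟩, fun u hu => dif_pos hu⟩
  · intro u _ v _ e
    by_cases h1 : u ∈ A <;> by_cases h2 : v ∈ A
    · rw [dif_pos h1, dif_pos h2] at e; exact hE.inj u h1 v h2 e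
    · rw [dif_pos h1, dif_neg h2] at e; exact absurd (mem_image.2 ⟨u, h1, e⟩) (g1 _)
    · rw [dif_pos h2, dif_neg h1] at e; exact absurd (mem_image.2 ⟨v, h2, e.symm⟩) (g1 _)
    · rw [dif_neg h2, dif_neg h1] at e; exact congrArg Subtype.val (hf e)
  · intro u _ v _ e
    by_cases h1 : u ∈ A <;> by_cases h2 : v ∈ A
    · rw [dif_pos h1, dif_pos h2]; exact hE.hom u h1 v h2 e
    · rw [dif_pos h1, dif_neg h2, (hp v h2).2 u e.symm]; exact g2 ⟨v, h2⟩
    · rw [dif_pos h2, dif_neg h1, (hp u h1).2 v e]; exact (g2 ⟨u, h1⟩).symm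
    · exact absurd ((hp u h1).2 v e ▸ (hp u h1).1) h2

end Pool.Agent.Lib.MP_2b1ae8_co.TN
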