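import Mathlib
import Pool.Agent.Lib.MP_2b1ae8_co.TNExt

set_option autoImplicit false

namespace Pool.Agent.Lib.MP_2b1ae8_co.TN

open Finset
open scoped Classical

variable {α β V : Type}

/-- Union of two graphs. -/
def un (U1 U2 : SimpleGraph V) : SimpleGraph V := U1 ⊔ U2

theorem un_adj {U1 U2 : SimpleGraph V} {x y : V} : (un U1 U2).Adj x y ↔ U1.Adj x y ∨ U2.Adj x y :=
  SimpleGraph.sup_adj _ _ _ _

theorem dg_un_le (U1 U2 : SimpleGraph V) (Y : Finset V) (x : V) :
    dg (un U1 U2) Y x ≤ dg U1 Y x + dg U2 Y x := by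
  unfold dg
  refine le_trans (card_le_card ?_) (card_union_le _ _)
  intro y hy
  obtain ⟨h1, h2⟩ := mem_filter.1 hy
  rcases un_adj.1 h2 with h | h
  · exact mem_union_left _ (mem_filter.2 ⟨h1, h⟩)
  · exact mem_union_right _ (mem_filter.2 ⟨h1, h⟩)

theorem Emb.sum_img [Fintype V] {H : SimpleGraph α} {Γ : SimpleGraph V} {A : Finset α}
    {φ : α → V} (h : Emb H Γ A φ) (g : ℕ → ℕ) (hg : g 0 = 0) :
    ∑ x, g (dg (img H A φ) univ x) = ∑ v ∈ A, g (dg H A v) := by
  rw [← sum_subset (subset_univ (A.image φ)) (fun x _ hx => by rw [dg_img_zero _ hx, hg]),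
    sum_image (fun u hu v hv e => h.inj u hu v hv e)]
  exact sum_congr rfl (fun v hv => by rw [h.dg_img_univ hv])

/-- The two trees and all the stars are packed. -/
def Goal [Fintype α] [Fintype β] (G : SimpleGraph V) (H : SimpleGraph α) (H' : SimpleGraph β)
    (b q : ℕ) : Prop :=
  ∃ (φ : α → V) (φ' : β → V) (c : ℕ → V) (N : ℕ → Finset V),
    Emb H G univ φ ∧ Emb H' (fr G (img H univ φ)) univ φ' ∧
    (∀ j, 1 ≤ j → j < b + q → j ≠ q + 1 → (N j).card = b + q - j ∧
      ∀ x ∈ N j, (fr G (un (img H univ φ) (img H' univ φ'))).Adj (c j) x) ∧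
    ∀ i j, 1 ≤ i → i < b + q → i ≠ q + 1 → 1 ≤ j → j < b + q → j ≠ q + 1 → i ≠ j →
      ∀ x ∈ N i, ∀ y ∈ N j, s(c i, x) ≠ s(c j, y)

theorem fin_lemma [Fintype α] [Fintype β] [Fintype V] [Nonempty V] (G : SimpleGraph V)
    {H : SimpleGraph α} {H' : SimpleGraph β} (hT : Tr H) (hT' : Tr H') (b q t d1 : ℕ) (hb : 2 ≤ b)
    (hn : Fintype.card V = b + 1 + q + t) (hdeg : ∀ x, b + q ≤ dg G univ x)
    (hα : Fintype.card α = b + 1 + q) (hβ : Fintype.card β = b)
    {φ : α → V} {φ' : β → V} (hE : Emb H G univ φ) (hE' : Emb H' (fr G (img H univ φ)) univ φ')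
    (Tm : Finset α) (hTm : Conn H Tm) (hTc : Tm.card = b + 1)
    (hov : (Tm.image φ ∪ univ.image φ').card ≤ b + 1 + t)
    (S1 : Finset α) (hS1 : S1 ⊆ Tm) (ρ : α → ℕ) (hρ : ∀ u ∈ S1, ∀ v ∈ S1, ρ u = ρ v → u = v)
    (hdef : ∑ v ∈ S1, (2 - (S1.filter (fun u => ρ u < ρ v ∧
      (un (img H univ φ) (img H' univ φ')).Adj (φ v) (φ u))).card) ≤ d1)
    (hd1 : d1 ≤ 2 * t + 3)
    (hY : b + 1 + t ≤ S1.card + 2 ∨ b + 1 + 2 * d1 < S1.card + 3 * t + 6) :
    Goal G H H' b q := by
  obtain ⟨r, hr⟩ := hTm.nonempty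
  obtain ⟨par, d, R⟩ := hT r
  have hcl := hTm.closed R hr
  obtain ⟨X, hX1, hX2⟩ := exists_subset_card_eq (s := univ \ (Tm.image φ ∪ univ.image φ')) (n := q)
    (by rw [card_sdiff_of_subset (subset_univ _), card_univ]; omega)
  have hX3 : ∀ v ∈ Tm, φ v ∉ X := fun v hv h =>
    (mem_sdiff.1 (hX1 h)).2 (mem_union_left _ (mem_image_of_mem _ hv))
  have hX4 : ∀ v, φ' v ∉ X := fun v h =>
    (mem_sdiff.1 (hX1 h)).2 (mem_union_right _ (mem_image_of_mem _ (mem_univ _)))
  obtain ⟨l1, l2, l3, l4⟩ := rank_list (un (img H univ φ) (img H' univ φ')) φ ρ _ S1 rfl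
    (fun u _ v _ => hE.inj u (mem_univ _) v (mem_univ _)) hρ
  have hlen : l1.length = S1.card := by
    rw [← List.toFinset_card_of_nodup l2, l3, (hE.mono (subset_univ S1)).card]
  have hβne : Nonempty β := Fintype.card_pos_iff.1 (by omega)
  obtain ⟨r'⟩ := hβne
  obtain ⟨c, N, h1, h2⟩ := stars_last G (un (img H univ φ) (img H' univ φ')) b q t d1 hb hn hdeg
    (by
      have a1 := two_eh (un (img H univ φ) (img H' univ φ')) univ
      have a2 : ee (un (img H univ φ) (img H' univ φ')) univ
          ≤ ee (img H univ φ) univ + ee (img H' univ φ') univ := by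
        unfold ee
        rw [← sum_add_distrib]
        exact sum_le_sum (fun x _ => dg_un_le _ _ _ _)
      have a3 : ee (img H univ φ) univ = ee H univ := hE.sum_img id rfl
      have a4 : ee (img H' univ φ') univ = ee H' univ := hE'.sum_img id rfl
      have a5 := (conn_univ hT r).ee_eq hT
      have a6 := (conn_univ hT' r').ee_eq hT'
      rw [card_univ] at a5 a6
      omega)
    X hX2 (fun C => ((univ \ Tm).filter (fun v => φ v ∈ C ∨ φ (par v) ∈ C)).card)
    (by
      intro C
      induction C using Finset.induction_on with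
      | empty => intro _; simp
      | insert c C hc ih =>
        intro hC
        have a1 := ih ((subset_insert _ _).trans hC)
        have hcX := hC (mem_insert_self _ _)
        have a2 := eh_erase (un (img H univ φ) (img H' univ φ')) (A := univ \ C) (v := c)
          (mem_sdiff.2 ⟨mem_univ _, hc⟩)
        have a3 : (univ \ C).erase c = univ \ insert c C := by
          ext y; simp only [mem_erase, mem_sdiff, mem_insert, mem_univ, true_and, not_or]
        rw [a3] at a2
        have a4 : (univ \ Tm).filter (fun v => φ v ∈ C ∨ φ (par v) ∈ C)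
            ⊆ (univ \ Tm).filter (fun v => φ v ∈ insert c C ∨ φ (par v) ∈ insert c C) := by
          intro v hv
          obtain ⟨b1, b2⟩ := mem_filter.1 hv
          exact mem_filter.2 ⟨b1, b2.imp mem_insert_of_mem mem_insert_of_mem⟩
        have a5 := card_sdiff_add_card_eq_card a4
        have a6 : dg (un (img H univ φ) (img H' univ φ')) (univ \ C) c ≤
            ((univ \ Tm).filter (fun v => φ v ∈ insert c C ∨ φ (par v) ∈ insert c C) \
              (univ \ Tm).filter (fun v => φ v ∈ C ∨ φ (par v) ∈ C)).card := by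
          refine le_trans (card_le_card ?_)
            (card_image_le (f := fun v => if φ v = c then φ (par v) else φ v))
          intro y hy
          obtain ⟨b1, b2⟩ := mem_filter.1 hy
          have b3 := (mem_sdiff.1 b1).2
          rcases un_adj.1 b2 with ⟨hne, u, _, v, _, huv, e1, e2⟩ | ⟨_, u, _, _, _, _, e1, _⟩
          · rcases (R.adj _ _).1 huv with ⟨g1, g2⟩ | ⟨g1, g2⟩
            · refine mem_image.2 ⟨u, ?_, by rw [if_pos e1, g2, e2]⟩
              simp only [mem_sdiff, mem_filter, mem_univ, true_and, g2, e1, e2, mem_insert, true_or,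
                and_true, hc, b3, or_self, and_false, not_false_eq_true]
              exact fun h => hX3 u h (e1 ▸ hcX)
            · refine mem_image.2 ⟨v, ?_, by rw [if_neg (by rw [e2]; exact hne.symm), e2]⟩
              simp only [mem_sdiff, mem_filter, mem_univ, true_and, g2, e1, e2, mem_insert, true_or,
                or_true, and_true, hc, b3, or_self, and_false, not_false_eq_true]
              exact fun h => hX3 u (g2 ▸ hcl v h) (e1 ▸ hcX)
          · exact absurd (e1 ▸ hcX) (hX4 u)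
        omega)
    (by
      refine (card_filter_le _ _).trans ?_
      rw [card_sdiff_of_subset (subset_univ _), card_univ]; omega)
    (by
      intro C hC hne hle
      by_cases hex : ((univ \ Tm).filter (fun v => φ v ∈ C)).Nonempty
      · obtain ⟨v, hv, hmin⟩ := exists_min_image _ d hex
        obtain ⟨b1, b2⟩ := mem_filter.1 hv
        have hvr : v ≠ r := fun e => (mem_sdiff.1 b1).2 (e ▸ hr)
        refine ⟨φ v, b2, le_trans (Nat.succ_le_of_lt (card_lt_card ⟨?_, fun hs => ?_⟩)) hle⟩
        · intro w hw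
          obtain ⟨g1, g2⟩ := mem_filter.1 hw
          exact mem_filter.2 ⟨g1, g2.imp mem_of_mem_erase mem_of_mem_erase⟩
        · have := (mem_filter.1 (hs (mem_filter.2 ⟨b1, Or.inl b2⟩))).2
          rcases this with h | h
          · exact notMem_erase _ _ h
          · have g1 := mem_of_mem_erase h
            have g2 : par v ∉ Tm := fun h' => hX3 _ h' (hC g1)
            have g3 := hmin (par v) (mem_filter.2 ⟨mem_sdiff.2 ⟨mem_univ _, g2⟩, g1⟩)
            have g4 := R.lt v hvr
            omega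
      · obtain ⟨c, hc⟩ := hne
        refine ⟨c, hc, ?_⟩
        have : (univ \ Tm).filter (fun v => φ v ∈ C.erase c ∨ φ (par v) ∈ C.erase c) = ∅ := by
          rw [filter_eq_empty_iff]
          rintro v hv (h | h)
          · exact hex ⟨v, mem_filter.2 ⟨hv, mem_of_mem_erase h⟩⟩
          · have g1 := mem_of_mem_erase h
            exact hex ⟨par v, mem_filter.2
              ⟨mem_sdiff.2 ⟨mem_univ _, fun h' => hX3 _ h' (hC g1)⟩, g1⟩⟩
        rw [this]
        exact card_pos.2 ⟨c, hc⟩)
    l1 l2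
    (by
      intro x hx
      have := List.mem_toFinset.2 hx
      rw [l3] at this
      obtain ⟨v, hv, rfl⟩ := mem_image.1 this
      exact hX3 v (hS1 hv))
    (l4.trans hdef) hd1 (by rw [hlen]; exact hY)
  exact ⟨φ, φ', c, N, hE, hE', h1, h2⟩

theorem Rooted.two_le_dg [Fintype α] {H : SimpleGraph α} {r : α} {par : α → α} {d : α → ℕ}
    (R : Rooted H r par d) {v w : α} (hv : v ≠ r) (hw : w ≠ r) (h : par w = v) :
    2 ≤ dg H univ v := by
  refine one_lt_card.2 ⟨par v, mem_filter.2 ⟨mem_univ _, R.adj_par hv⟩, w,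
    mem_filter.2 ⟨mem_univ _, h ▸ (R.adj_par hw).symm⟩, fun e => ?_⟩
  have a1 := R.lt v hv
  have a2 := R.lt w hw
  rw [h] at a2
  rw [e] at a1
  omega

theorem Conn.internal [Fintype α] {H : SimpleGraph α} (hT : Tr H) {A : Finset α}
    (hA : Conn H A) : Conn H (A ∪ univ.filter (fun v => dg H univ v ≠ 1)) := by
  obtain ⟨r, hr⟩ := hA.nonempty
  obtain ⟨par, d, R⟩ := hT r
  refine conn_of_closed R (mem_union_left _ hr) (fun v _ hvr => ?_)
  by_cases h : par v = r
  · rw [h]; exact mem_union_left _ hr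
  · have := R.two_le_dg h hvr rfl
    exact mem_union_right _ (mem_filter.2 ⟨mem_univ _, by omega⟩)

theorem card_internal [Fintype α] (H : SimpleGraph α) (A : Finset α) :
    (A ∪ univ.filter (fun v => dg H univ v ≠ 1)).card
      + ((univ \ A).filter (fun v => dg H univ v = 1)).card = Fintype.card α := by
  rw [← card_union_of_disjoint, ← card_univ]
  · congr 1
    ext v
    by_cases h1 : v ∈ A <;> by_cases h2 : dg H univ v = 1 <;> simp [h1, h2]
  · rw [disjoint_left]
    intro v hv hv'
    obtain ⟨a1, a2⟩ := mem_filter.1 hv'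
    rcases mem_union.1 hv with h | h
    · exact (mem_sdiff.1 a1).2 h
    · exact (mem_filter.1 h).2 a2

theorem no_leaf_edge [Fintype α] {H : SimpleGraph α} (hT : Tr H) {u v w : α}
    (hu : dg H univ u = 1) (hv : dg H univ v = 1) (huv : H.Adj u v) (h1 : w ≠ u) (h2 : w ≠ v) :
    False := by
  obtain ⟨u', a1⟩ := lfAt_of_dg (mem_univ u) hu
  obtain ⟨v', a2⟩ := lfAt_of_dg (mem_univ v) hv
  rw [← a1.only v (mem_univ _) huv] at a1
  have := (conn_univ hT u).two_leaves hT a1 a2
  have := three_le (S := univ) (mem_univ u) (mem_univ v) (mem_univ w) huv.ne h1.symm h2.symm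
  omega

/-- Finishing the second tree after the first one. -/
theorem finish_second [Fintype β] [Fintype V] (G U : SimpleGraph V) {H' : SimpleGraph β}
    (hT' : Tr H') (b q : ℕ) (hdeg : ∀ x, b + q ≤ dg G univ x) (hβ : Fintype.card β = b)
    (X Bad : Finset V) (hX : X.card ≤ q) (S' : Finset β) (hS' : Conn H' S') (φ0 : β → V)
    (hE : Emb H' (fr G U) S' φ0) (hX0 : ∀ v ∈ S', φ0 v ∉ X)
    (hnew : ∀ x, x ∉ X → x ∉ S'.image φ0 → x ∉ Bad → dg U (univ \ (X ∪ S'.image φ0)) x ≤ 2)
    (hold : ∀ v ∈ S', dg U (univ \ (X ∪ S'.image φ0)) (φ0 v) ≤ 2)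
    {l c : β} (hc : c ∈ S') (hl : l ∉ S') (hL : LfAt H' univ l c)
    (hc1 : dg U (univ \ (X ∪ S'.image φ0)) (φ0 c) ≤ 1)
    (hBad : (∀ v, v ∉ S' → dg H' univ v = 1) ∨
      Bad.card + 1 ≤ ((univ \ S').filter (fun v => dg H' univ v = 1)).card) :
    ∃ φ', Emb H' (fr G U) univ φ' ∧ (∀ v ∈ S', φ' v = φ0 v) ∧ ∀ v, φ' v ∉ X := by
  set B1 := S' ∪ univ.filter (fun v => dg H' univ v ≠ 1) with hB1
  have c1 : Conn H' B1 := hS'.internal hT'
  have c2 := card_internal H' S'
  rw [← hB1] at c2
  have c3 : S'.card ≤ B1.card := card_le_card subset_union_left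
  have c4 : (∀ v, v ∉ S' → dg H' univ v = 1) → B1.card ≤ S'.card := fun h =>
    card_le_card (fun v hv => by
      by_contra hn
      rcases mem_union.1 hv with h' | h'
      · exact hn h'
      · exact (mem_filter.1 h').2 (h v hn))
  have m1 : ∀ x, dg U (univ \ (X ∪ Bad ∪ S'.image φ0)) x ≤ dg U (univ \ (X ∪ S'.image φ0)) x :=
    fun x => dg_mono U (sdiff_subset_sdiff (Subset.refl _)
      (union_subset_union subset_union_left (Subset.refl _))) x
  have m2 := card_union_le X Bad
  obtain ⟨φ1, E1, a1, z1⟩ := ext_emb hT' (fr G U) (X ∪ Bad) B1 c1 (B1.card - S'.card) S' φ0 hS'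
    subset_union_left (by omega) hE
    (by
      intro u hu _
      have b1 := deg_split G U (X ∪ Bad ∪ S'.image φ0) (φ0 u)
      have b2 := card_union_erase_le (X ∪ Bad) (S'.image φ0) (φ0 u)
      have b3 := card_erase_add_one (mem_image_of_mem φ0 hu)
      have b4 := card_erase_le (s := X ∪ Bad) (a := φ0 u)
      have b5 := hE.card
      have b6 := hdeg (φ0 u)
      have b7 := m1 (φ0 u)
      have b8 := hold u hu
      rcases hBad with h | h
      · have := c4 h; omega
      · omega)
    (by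
      intro _ x hx hx'
      rw [mem_union, not_or] at hx
      have b1 := deg_split G U (X ∪ Bad ∪ S'.image φ0) x
      have b2 := card_union_erase_le (X ∪ Bad) (S'.image φ0) x
      have b3 := card_erase_le (s := S'.image φ0) (a := x)
      have b4 := card_erase_le (s := X ∪ Bad) (a := x)
      have b5 := hE.card
      have b6 := hdeg x
      have b7 := m1 x
      have b8 := hnew x hx.1 hx' hx.2
      rcases hBad with h | h
      · have := c4 h; omega
      · omega)
  have hlB : l ∉ B1 := by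
    intro h
    rcases mem_union.1 h with h | h
    · exact hl h
    · exact (mem_filter.1 h).2 hL.dg
  have c5 : Conn H' (univ.erase l) := (conn_univ hT' c).erase_leaf hT' hL
  have c6 : (univ.erase l).card + 1 = b := by rw [card_erase_add_one (mem_univ _), card_univ, hβ]
  have s1 : B1 ⊆ univ.erase l := fun v hv => mem_erase.2 ⟨fun e => hlB (e ▸ hv), mem_univ _⟩
  have c7 := card_le_card s1
  have i1 : S'.image φ0 ⊆ B1.image φ1 := by
    intro x hx
    obtain ⟨v, hv, rfl⟩ := mem_image.1 hx
    exact mem_image.2 ⟨v, mem_union_left _ hv, a1 v hv⟩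
  have d1 : ∀ u ∈ B1, dg U (univ \ (X ∪ S'.image φ0)) (φ1 u) ≤ 2 := by
    intro u hu
    by_cases h : u ∈ S'
    · rw [a1 u h]; exact hold u h
    · have := z1 u hu h
      rw [mem_union, not_or] at this
      refine hnew _ this.1 (fun h' => ?_) this.2
      obtain ⟨v, hv, e⟩ := mem_image.1 h'
      rw [← a1 v hv] at e
      exact h (E1.inj v (mem_union_left _ hv) u hu e ▸ hv)
  obtain ⟨φ2, E2, a2, z2⟩ := ext_emb hT' (fr G U) X (univ.erase l) c5
    ((univ.erase l).card - B1.card) B1 φ1 c1 s1 (by omega) E1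
    (by
      intro u hu _
      have b1 := deg_split G U (X ∪ B1.image φ1) (φ1 u)
      have b2 := card_union_erase_le X (B1.image φ1) (φ1 u)
      have b3 := card_erase_add_one (mem_image_of_mem φ1 hu)
      have b4 := card_erase_le (s := X) (a := φ1 u)
      have b5 := E1.card
      have b6 := hdeg (φ1 u)
      have b7 := dg_mono U (sdiff_subset_sdiff (Subset.refl univ)
        (union_subset_union (Subset.refl X) i1)) (φ1 u)
      have b8 := d1 u hu
      omega)
    (by
      rintro ⟨u, _, v, _, hu, hv, huv⟩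
      have g : ∀ w, w ∉ B1 → dg H' univ w = 1 ∧ c ≠ w := fun w hw =>
        ⟨by by_contra h; exact hw (mem_union_right _ (mem_filter.2 ⟨mem_univ _, h⟩)),
          fun e => hw (e ▸ mem_union_left _ hc)⟩
      exact (no_leaf_edge hT' (g u hu).1 (g v hv).1 huv (g u hu).2 (g v hv).2).elim)
  have i2 : S'.image φ0 ⊆ (univ.erase l).image φ2 := by
    intro x hx
    obtain ⟨v, hv, rfl⟩ := mem_image.1 hx
    exact mem_image.2 ⟨v, s1 (mem_union_left _ hv), by
      rw [a2 v (mem_union_left _ hv), a1 v hv]⟩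
  obtain ⟨φ3, E3, a3, z3⟩ := ext_emb hT' (fr G U) X univ (conn_univ hT' c) 1 (univ.erase l) φ2 c5
    (subset_univ _) (by rw [card_univ]; omega) E2
    (by
      rintro u hu ⟨v, _, hv, huv⟩
      have e : v = l := by
        by_contra h; exact hv (mem_erase.2 ⟨h, mem_univ _⟩)
      rw [e] at huv
      have e2 := hL.only u (mem_univ _) huv.symm
      have b1 := deg_split G U (X ∪ (univ.erase l).image φ2) (φ2 u)
      have b2 := card_union_erase_le X ((univ.erase l).image φ2) (φ2 u)
      have b3 := card_erase_add_one (mem_image_of_mem φ2 hu)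
      have b4 := card_erase_le (s := X) (a := φ2 u)
      have b5 := E2.card
      have b6 := hdeg (φ2 u)
      have b7 := dg_mono U (sdiff_subset_sdiff (Subset.refl univ)
        (union_subset_union (Subset.refl X) i2)) (φ2 u)
      rw [← a1 c hc, ← a2 c (mem_union_left _ hc), ← e2] at hc1
      omega)
    (fun _ _ _ _ => by omega)
  refine ⟨φ3, E3, fun v hv => ?_, fun v => ?_⟩
  · rw [a3 v (s1 (mem_union_left _ hv)), a2 v (mem_union_left _ hv), a1 v hv]
  · by_cases h3 : v ∈ univ.erase l
    · rw [a3 v h3]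
      by_cases h2 : v ∈ B1
      · rw [a2 v h2]
        by_cases h1 : v ∈ S'
        · rw [a1 v h1]; exact hX0 v h1
        · exact fun h => z1 v h2 h1 (mem_union_left _ h)
      · exact z2 v h3 h2
    · exact z3 v (mem_univ _) h3

/-- Finishing the second tree before the first one. -/
theorem finish_early [Fintype β] [Fintype V] (G U : SimpleGraph V) {H' : SimpleGraph β}
    (hT' : Tr H') (K : ℕ) (hdeg : ∀ x, K ≤ dg G univ x) (hβ : Fintype.card β ≤ K)
    (y0 a0 : V) (S' : Finset β) (hS' : Conn H' S') (φ0 : β → V)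
    (hE : Emb H' (fr G U) S' φ0) (hy : ∀ v ∈ S', φ0 v ≠ y0 ∧ φ0 v ≠ a0)
    (hU : ∀ x x', U.Adj x x' → x' ∈ ({y0, a0} : Finset V) ∪ S'.image φ0)
    {l c : β} (hl : l ∉ S') (hL : LfAt H' univ l c) (hc : c ∈ S' → ∀ x', ¬ U.Adj (φ0 c) x') :
    ∃ φ', Emb H' (fr G U) univ φ' ∧ (∀ v ∈ S', φ' v = φ0 v) ∧ (∀ v, φ' v ≠ y0) ∧
      ∀ v, v ≠ l → φ' v ≠ a0 := by
  have c5 : Conn H' (univ.erase l) := (conn_univ hT' c).erase_leaf hT' hL
  have c6 : (univ.erase l).card + 1 = Fintype.card β := by
    rw [card_erase_add_one (mem_univ _), card_univ]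
  have s1 : S' ⊆ univ.erase l := fun v hv => mem_erase.2 ⟨fun e => hl (e ▸ hv), mem_univ _⟩
  have c7 := card_le_card s1
  have m1 : ∀ x, dg U (univ \ (({y0, a0} : Finset V) ∪ S'.image φ0)) x = 0 :=
    fun x => dg_eq_zero (fun y hy h => (mem_sdiff.1 hy).2 (hU x y h))
  have m2 : ({y0, a0} : Finset V).card ≤ 2 := card_le_two
  obtain ⟨φ1, E1, a1, z1⟩ := ext_emb hT' (fr G U) {y0, a0} (univ.erase l) c5
    ((univ.erase l).card - S'.card) S' φ0 hS' s1 (by omega) hE
    (by
      intro u hu _
      have b1 := deg_split G U ({y0, a0} ∪ S'.image φ0) (φ0 u)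
      have b2 := card_union_erase_le {y0, a0} (S'.image φ0) (φ0 u)
      have b3 := card_erase_add_one (mem_image_of_mem φ0 hu)
      have b4 := card_erase_le (s := ({y0, a0} : Finset V)) (a := φ0 u)
      have b5 := hE.card
      have b6 := hdeg (φ0 u)
      have b7 := m1 (φ0 u)
      omega)
    (by
      intro _ x _ _
      have b1 := deg_split G U ({y0, a0} ∪ S'.image φ0) x
      have b2 := card_union_erase_le {y0, a0} (S'.image φ0) x
      have b3 := card_erase_le (s := S'.image φ0) (a := x)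
      have b4 := card_erase_le (s := ({y0, a0} : Finset V)) (a := x)
      have b5 := hE.card
      have b6 := hdeg x
      have b7 := m1 x
      omega)
  have g1 : ∀ v ∈ univ.erase l, φ1 v ≠ y0 ∧ φ1 v ≠ a0 := by
    intro v hv
    by_cases h : v ∈ S'
    · rw [a1 v h]; exact hy v h
    · simpa using z1 v hv h
  obtain ⟨φ3, E3, a3, z3⟩ := ext_emb hT' (fr G U) {y0} univ (conn_univ hT' c) 1 (univ.erase l) φ1
    c5 (subset_univ _) (by rw [card_univ]; omega) E1
    (by
      rintro u hu ⟨v, _, hv, huv⟩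
      have e : v = l := by
        by_contra h; exact hv (mem_erase.2 ⟨h, mem_univ _⟩)
      rw [e] at huv
      have e2 := hL.only u (mem_univ _) huv.symm
      have b1 := deg_split G U ({y0} ∪ (univ.erase l).image φ1) (φ1 u)
      have b2 := card_union_erase_le {y0} ((univ.erase l).image φ1) (φ1 u)
      have b3 := card_erase_add_one (mem_image_of_mem φ1 hu)
      have b4 := card_erase_le (s := ({y0} : Finset V)) (a := φ1 u)
      have b5 := E1.card
      have b6 := hdeg (φ1 u)
      have b7 : dg U (univ \ ({y0} ∪ (univ.erase l).image φ1)) (φ1 u) = 0 := by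
        refine dg_eq_zero (fun y _ h => ?_)
        by_cases hu' : u ∈ S'
        · rw [a1 u hu', e2] at h
          exact hc (e2 ▸ hu') y h
        · rcases mem_union.1 (hU _ _ h.symm) with h' | h'
          · exact z1 u hu hu' h'
          · obtain ⟨w, hw, e3⟩ := mem_image.1 h'
            rw [← a1 w hw] at e3
            exact hu' (E1.inj w (s1 hw) u hu e3 ▸ hw)
      rw [card_singleton] at b4
      omega)
    (fun _ _ _ _ => by omega)
  refine ⟨φ3, E3, fun v hv => by rw [a3 v (s1 hv), a1 v hv], fun v => ?_, fun v hv => ?_⟩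
  · by_cases h3 : v ∈ univ.erase l
    · rw [a3 v h3]; exact (g1 v h3).1
    · simpa using z3 v (mem_univ _) h3
  · rw [a3 v (mem_erase.2 ⟨hv, mem_univ _⟩)]; exact (g1 v (mem_erase.2 ⟨hv, mem_univ _⟩)).2

end Pool.Agent.Lib.MP_2b1ae8_co.TN
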