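import Mathlib
import Pool.Agent.Lib.MP_2b1ae8_co.TNFin

set_option autoImplicit false

namespace Pool.Agent.Lib.MP_2b1ae8_co.TN

open Finset
open scoped Classical

variable {α V : Type}

theorem free_ge [Fintype α] [Fintype V] (G U : SimpleGraph V) (K : ℕ)
    (hdeg : ∀ x, K ≤ dg G univ x) (hα : Fintype.card α = K + 1) {H : SimpleGraph α}
    {I : Finset α} {ψ : α → V} (hE : Emb H (fr G U) I ψ) {v : α} (hv : v ∈ I) :
    (univ \ I).card ≤ dg (fr G U) (univ \ I.image ψ) (ψ v) + dg U (univ \ I.image ψ) (ψ v) := by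
  have b1 := deg_split G U (I.image ψ) (ψ v)
  have b3 := card_erase_add_one (mem_image_of_mem ψ hv)
  have b5 := hE.card
  have b6 := hdeg (ψ v)
  have b7 := card_sdiff_add_card_eq_card (subset_univ I)
  rw [card_univ] at b7
  omega

theorem hall_fail [Fintype α] [Fintype V] (G U : SimpleGraph V) (K : ℕ)
    (hdeg : ∀ x, K ≤ dg G univ x) (hα : Fintype.card α = K + 1) {H : SimpleGraph α}
    {I : Finset α} {ψ : α → V} (hE : Emb H (fr G U) I ψ) (p : α → α)
    (hp : ∀ l, l ∉ I → p l ∈ I ∧ ∀ w, H.Adj l w → w = p l)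
    (hf : ¬ ∃ φ, Emb H (fr G U) univ φ ∧ ∀ u ∈ I, φ u = ψ u) :
    ∃ (Q : Finset α) (β0 : ℕ) (Fq : Finset V), Q ⊆ univ \ I ∧ Q.Nonempty ∧
      (∀ l ∈ Q, β0 ≤ dg U (univ \ I.image ψ) (ψ (p l))) ∧ ((univ \ I) \ Q).card + 1 ≤ β0 ∧
      Fq.card < Q.card ∧ ∀ l ∈ Q, (univ \ I.image ψ).filter ((fr G U).Adj (ψ (p l))) ⊆ Fq := by
  have : ¬ ∀ Q ⊆ univ \ I, Q.card ≤
      (Q.biUnion (fun l => (univ \ I.image ψ).filter ((fr G U).Adj (ψ (p l))))).card :=
    fun h => hf (leaf_emb hE p hp h)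
  push Not at this
  obtain ⟨Q, hQ, hlt⟩ := this
  have hne : Q.Nonempty := card_pos.1 (by omega)
  obtain ⟨l0, hl0, hmin⟩ := exists_min_image Q (fun l => dg U (univ \ I.image ψ) (ψ (p l))) hne
  have hsub : ∀ l ∈ Q, (univ \ I.image ψ).filter ((fr G U).Adj (ψ (p l))) ⊆
      Q.biUnion (fun l => (univ \ I.image ψ).filter ((fr G U).Adj (ψ (p l)))) :=
    fun l hl => subset_biUnion_of_mem (fun l => (univ \ I.image ψ).filter
      ((fr G U).Adj (ψ (p l)))) hl
  refine ⟨Q, _, _, hQ, hne, hmin, ?_, hlt, hsub⟩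
  have a1 := free_ge G U K hdeg hα hE (hp l0 (mem_sdiff.1 (hQ hl0)).2).1
  have a2 := card_le_card (hsub l0 hl0)
  have a3 := card_sdiff_add_card_eq_card hQ
  unfold dg at a1 ⊢
  omega

theorem count_big [Fintype V] (U : SimpleGraph V) (L : ℕ)
    (hsum : ∑ x, (dg U univ x - 2) + 2 ≤ L) {P : Finset α} {ψ : α → V}
    (hinj : ∀ u ∈ P, ∀ v ∈ P, ψ u = ψ v → u = v) (m : ℕ) (h : ∀ v ∈ P, m + 2 ≤ dg U univ (ψ v)) :
    P.card * m + 2 ≤ L := by
  have a1 : ∑ x ∈ P.image ψ, (dg U univ x - 2) ≤ ∑ x, (dg U univ x - 2) :=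
    sum_le_sum_of_subset (subset_univ _)
  rw [sum_image (fun u hu v hv e => hinj u hu v hv e)] at a1
  have a2 := card_nsmul_le_sum P (fun v => dg U univ (ψ v) - 2) m (fun v hv => by
    have := h v hv; omega)
  rw [smul_eq_mul] at a2
  omega

theorem count_branch [Fintype V] (U : SimpleGraph V) (L : ℕ)
    (hsum : ∑ x, (dg U univ x - 2) + 2 ≤ L) (x : V) :
    dg U univ x + ((univ.filter (fun z => 3 ≤ dg U univ z)).erase x).card ≤ L := by
  have a1 := add_sum_erase univ (fun x => dg U univ x - 2) (mem_univ x)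
  have a2 : ∑ z ∈ (univ.filter (fun z => 3 ≤ dg U univ z)).erase x, (dg U univ z - 2)
      ≤ ∑ z ∈ univ.erase x, (dg U univ z - 2) :=
    sum_le_sum_of_subset (erase_subset_erase _ (filter_subset _ _))
  have a3 := card_nsmul_le_sum ((univ.filter (fun z => 3 ≤ dg U univ z)).erase x)
    (fun z => dg U univ z - 2) 1 (fun z hz => by
      have := (mem_filter.1 (mem_of_mem_erase hz)).2; omega)
  simp only [smul_eq_mul, mul_one] at a1 a3
  omega

theorem fail_one [Fintype α] [Fintype V] (G U : SimpleGraph V) (K L : ℕ)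
    (hdeg : ∀ x, K ≤ dg G univ x) (hα : Fintype.card α = K + 1)
    (hsum : ∑ x, (dg U univ x - 2) + 2 ≤ L) {H : SimpleGraph α}
    {I : Finset α} {ψ : α → V} (hE : Emb H (fr G U) I ψ) (p : α → α)
    (hp : ∀ l, l ∉ I → p l ∈ I ∧ ∀ w, H.Adj l w → w = p l)
    (y : α) (hy : dg U univ (ψ y) = 0) (ly : α) (hly : ly ∉ I) (hpy : p ly = y)
    (B : Finset α) (hB : B ⊆ univ \ I) (hBL : L + 1 ≤ B.card)
    (hBi : ∀ l ∈ B, ∀ l' ∈ B, p l = p l' → l = l')
    (hf : ¬ ∃ φ, Emb H (fr G U) univ φ ∧ ∀ u ∈ I, φ u = ψ u) :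
    ∃ Fq : Finset V, Fq.card + 2 ≤ (univ \ I).card ∧
      ∀ l, l ∉ I → p l ≠ y → (univ \ I.image ψ).filter ((fr G U).Adj (ψ (p l))) ⊆ Fq := by
  obtain ⟨Q, β0, Fq, q1, q2, q3, q4, q5, q6⟩ := hall_fail G U K hdeg hα hE p hp hf
  have hlyQ : ly ∈ (univ \ I) \ Q := by
    refine mem_sdiff.2 ⟨mem_sdiff.2 ⟨mem_univ _, hly⟩, fun h => ?_⟩
    have a1 := q3 ly h
    have a2 := dg_mono U (sdiff_subset (s := univ) (t := I.image ψ)) (ψ (p ly))
    rw [hpy] at a1 a2
    omega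
  have c1 := card_pos.2 ⟨_, hlyQ⟩
  have hβ : β0 ≤ 2 := by
    by_contra hlt
    obtain ⟨m, rfl⟩ : ∃ m, β0 = m + 3 := ⟨β0 - 3, by omega⟩
    have a1 := count_big U L hsum (P := Q.image p) (ψ := ψ) (fun u hu v hv => by
      obtain ⟨l, hl, rfl⟩ := mem_image.1 hu
      obtain ⟨l', hl', rfl⟩ := mem_image.1 hv
      exact hE.inj _ (hp l (mem_sdiff.1 (q1 hl)).2).1 _ (hp l' (mem_sdiff.1 (q1 hl')).2).1)
      (m + 1) (fun v hv => by
        obtain ⟨l, hl, rfl⟩ := mem_image.1 hv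
        exact (q3 l hl).trans (dg_mono U sdiff_subset _))
    have a2 : (B ∩ Q).card ≤ (Q.image p).card :=
      card_le_card_of_injOn p (fun l hl => mem_coe.2 (mem_image_of_mem p (mem_inter.1 hl).2))
        (fun l hl l' hl' => hBi l (mem_inter.1 hl).1 l' (mem_inter.1 hl').1)
    have a3 : (B \ Q).card ≤ ((univ \ I) \ Q).card :=
      card_le_card (sdiff_subset_sdiff hB (Subset.refl _))
    have a4 := card_inter_add_card_sdiff B Q
    have a5 : 1 ≤ (Q.image p).card := card_pos.2 (q2.image p)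
    have a6 : m ≤ (Q.image p).card * m := Nat.le_mul_of_pos_left _ a5
    have a7 : (Q.image p).card * (m + 1) = (Q.image p).card * m + (Q.image p).card := by ring
    omega
  have a3 := card_sdiff_add_card_eq_card q1
  refine ⟨Fq, by omega, fun l hl hne => q6 l ?_⟩
  by_contra hn
  have := card_le_one.1 (by omega : ((univ \ I) \ Q).card ≤ 1) l
    (mem_sdiff.2 ⟨mem_sdiff.2 ⟨mem_univ _, hl⟩, hn⟩) ly hlyQ
  exact hne (this ▸ hpy)

theorem tight [Fintype α] [Fintype V] (G U : SimpleGraph V) (K : ℕ)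
    (hdeg : ∀ x, K ≤ dg G univ x) (hα : Fintype.card α = K + 1) {H : SimpleGraph α}
    {I : Finset α} {ψ : α → V} (hE : Emb H (fr G U) I ψ) {v : α} (hv : v ∈ I)
    (h2 : dg U univ (ψ v) ≤ 2) (Fq : Finset V) (hF : Fq.card + 2 ≤ (univ \ I).card)
    (hs : (univ \ I.image ψ).filter ((fr G U).Adj (ψ v)) ⊆ Fq) :
    (∀ w ∈ I, w ≠ v → (fr G U).Adj (ψ v) (ψ w)) ∧
    (univ \ I.image ψ).filter ((fr G U).Adj (ψ v)) = Fq ∧ Fq.card + 2 = (univ \ I).card ∧
    dg U univ (ψ v) = 2 ∧ ∀ x, U.Adj (ψ v) x → x ∉ I.image ψ := by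
  have a1 := free_ge G U K hdeg hα hE hv
  have a2 := card_le_card hs
  have a3 := dg_mono U (sdiff_subset (s := univ) (t := I.image ψ)) (ψ v)
  have a4 : dg (fr G U) (univ \ I.image ψ) (ψ v)
      = ((univ \ I.image ψ).filter ((fr G U).Adj (ψ v))).card := rfl
  refine ⟨?_, eq_of_subset_of_card_le hs (by omega), by omega, by omega, ?_⟩
  · have b1 := deg_split G U ∅ (ψ v)
    rw [sdiff_empty, erase_empty, card_empty] at b1
    have b2 : dg (fr G U) univ (ψ v) ≤ dg (fr G U) (univ \ I.image ψ) (ψ v)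
        + dg (fr G U) ((I.image ψ).erase (ψ v)) (ψ v) := by
      unfold dg
      refine le_trans (card_le_card ?_) (card_union_le _ _)
      intro x hx
      have g := (mem_filter.1 hx).2
      by_cases h : x ∈ I.image ψ
      · exact mem_union_right _ (mem_filter.2 ⟨mem_erase.2 ⟨g.ne.symm, h⟩, g⟩)
      · exact mem_union_left _ (mem_filter.2 ⟨mem_sdiff.2 ⟨mem_univ _, h⟩, g⟩)
    have b3 := card_erase_add_one (mem_image_of_mem ψ hv)
    have b5 := hE.card
    have b6 := hdeg (ψ v)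
    have b7 := card_sdiff_add_card_eq_card (subset_univ I)
    rw [card_univ] at b7
    have b8 : ((I.image ψ).erase (ψ v)).filter ((fr G U).Adj (ψ v)) = (I.image ψ).erase (ψ v) :=
      eq_of_subset_of_card_le (filter_subset _ _) (by unfold dg at *; omega)
    intro w hw hwv
    have : ψ w ∈ (I.image ψ).erase (ψ v) :=
      mem_erase.2 ⟨fun e => hwv (hE.inj w hw v hv e), mem_image_of_mem _ hw⟩
    rw [← b8] at this
    exact (mem_filter.1 this).2
  · have b8 : (univ \ I.image ψ).filter (U.Adj (ψ v)) = univ.filter (U.Adj (ψ v)) :=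
      eq_of_subset_of_card_le (filter_subset_filter _ sdiff_subset) (by unfold dg at *; omega)
    intro x hx
    have : x ∈ univ.filter (U.Adj (ψ v)) := mem_filter.2 ⟨mem_univ _, hx⟩
    rw [← b8] at this
    exact (mem_sdiff.1 (mem_filter.1 this).1).2

theorem Emb.move {H : SimpleGraph α} {Γ : SimpleGraph V} {I : Finset α} {ψ : α → V}
    (hE : Emb H Γ I ψ) {w u : α} (hL : LfAt H I w u) {x : V} (hx : x ∉ I.image ψ)
    (hadj : Γ.Adj (ψ u) x) : Emb H Γ I (Function.update ψ w x) ∧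
      I.image (Function.update ψ w x) = Insert.insert x ((I.erase w).image ψ) := by
  have h1 := (hE.mono (erase_subset w I)).insert (notMem_erase w I) (x := x)
    (fun h => hx (image_subset_image (erase_subset _ _) h))
    (fun v hv h => by rw [hL.only v (mem_of_mem_erase hv) h.symm]; exact hadj)
  have h2 := image_update_insert (φ := ψ) (notMem_erase w I) x
  rw [insert_erase hL.mem] at h1 h2
  exact ⟨h1, h2⟩

theorem Emb.exch {H : SimpleGraph α} {Γ : SimpleGraph V} {I : Finset α} {ψ : α → V}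
    (hE : Emb H Γ I ψ) {w u v : α} (hL : LfAt H I w u) (hv : v ∈ I) (hvu : v ≠ u) (hvw : v ≠ w)
    (h1 : ∀ s ∈ I, s ≠ w → Γ.Adj (ψ w) (ψ s)) (h2 : ∀ s ∈ I, s ≠ u → Γ.Adj (ψ u) (ψ s)) :
    Emb H Γ I (fun s => ψ (Equiv.swap v w s)) ∧
      I.image (fun s => ψ (Equiv.swap v w s)) = I.image ψ := by
  have hm : ∀ s ∈ I, Equiv.swap v w s ∈ I := by
    intro s hs
    rw [Equiv.swap_apply_def]
    split_ifs
    · exact hL.mem
    · exact hv
    · exact hs
  have key : ∀ s ∈ I, ∀ s' ∈ I, H.Adj s s' → (s = w ∨ s = v) →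
      Γ.Adj (ψ (Equiv.swap v w s)) (ψ (Equiv.swap v w s')) := by
    intro s hs s' hs' h hc
    rcases hc with rfl | rfl
    · rw [hL.only s' hs' h, Equiv.swap_apply_right,
        Equiv.swap_apply_of_ne_of_ne hvu.symm hL.adj.ne.symm]
      exact (h2 v hv hvu).symm
    · have n1 : s' ≠ w := fun e => hvu (hL.only s hs (e ▸ h.symm))
      rw [Equiv.swap_apply_left, Equiv.swap_apply_of_ne_of_ne h.ne.symm n1]
      exact h1 s' hs' n1
  refine ⟨⟨fun a ha b hb e => (Equiv.swap v w).injective (hE.inj _ (hm a ha) _ (hm b hb) e),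
    fun a ha b hb h => ?_⟩, ?_⟩
  · by_cases c1 : a = w ∨ a = v
    · exact key a ha b hb h c1
    by_cases c2 : b = w ∨ b = v
    · exact (key b hb a ha h.symm c2).symm
    rw [not_or] at c1 c2
    rw [Equiv.swap_apply_of_ne_of_ne c1.2 c1.1, Equiv.swap_apply_of_ne_of_ne c2.2 c2.1]
    exact hE.hom a ha b hb h
  · ext x
    simp only [mem_image]
    constructor
    · rintro ⟨s, hs, rfl⟩; exact ⟨_, hm s hs, rfl⟩
    · rintro ⟨s, hs, rfl⟩; exact ⟨_, hm s hs, by rw [Equiv.swap_apply_self]⟩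

/-- Finishing the first tree after the second one. -/
theorem finish_first [Fintype α] [Fintype V] (G U : SimpleGraph V) (K L q : ℕ)
    (hdeg : ∀ x, K ≤ dg G univ x) (hα : Fintype.card α = K + 1)
    (hsum : ∑ x, (dg U univ x - 2) + 2 ≤ L) {H : SimpleGraph α} (hT : Tr H)
    (S : Finset α) (hS : Conn H S) (φ : α → V) (hE : Emb H (fr G U) S φ)
    (y : α) (hyS : y ∈ S) (hy : dg U univ (φ y) = 0)
    (hold : ∀ v ∈ S, dg U univ (φ v) ≤ 1 ∨ ∃ w ∈ S, U.Adj (φ v) (φ w))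
    (hsup : ((univ \ S.image φ).filter (fun x => 1 ≤ dg U univ x)).card + q + S.card ≤ K + 2)
    (hfor : ∀ x0, 1 ≤ dg U univ x0 → ∃ ch : V → V, ∀ x, x ≠ x0 → 2 ≤ dg U univ x →
      U.Adj x (ch x) ∧ ¬ U.Adj x0 (ch x) ∧
        ∀ x', x' ≠ x0 → 2 ≤ dg U univ x' → ch x = ch x' → x = x')
    (p : α → α) (hp : ∀ l, dg H univ l = 1 → LfAt H univ l (p l))
    (B : Finset α) (hB : ∀ l ∈ B, l ∉ S ∧ dg H univ l = 1) (hBL : L + 1 ≤ B.card)
    (hmode : ((∃ l1 l2, l1 ≠ l2 ∧ l1 ∈ B ∧ l2 ∈ B ∧ p l1 = y ∧ p l2 = y) ∧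
        ∀ v, v ≠ y → (B.filter (fun l => p l = v)).card ≤ 2) ∨
      ((∃ l ∈ B, p l = y) ∧ L + 2 ≤ B.card + q ∧ ∀ l ∈ B, ∀ l' ∈ B, p l = p l' → l = l')) :
    ∃ φ', Emb H (fr G U) univ φ' ∧ ∀ u ∈ S, φ' u = φ u := by
  set I := S ∪ univ.filter (fun v => dg H univ v ≠ 1) with hI
  have cI : Conn H I := hS.internal hT
  have hSI : S ⊆ I := subset_union_left
  have nI : ∀ l, l ∉ I ↔ l ∉ S ∧ dg H univ l = 1 := by
    intro l; simp only [hI, mem_union, mem_filter, mem_univ, true_and, not_or, not_not]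
  have hBI : B ⊆ univ \ I := fun l hl => mem_sdiff.2 ⟨mem_univ _, (nI l).2 (hB l hl)⟩
  have c1 := card_le_card hBI
  have c2 := card_sdiff_add_card_eq_card (subset_univ I)
  rw [card_univ] at c2
  have c3 := card_le_card hSI
  have hp' : ∀ l, l ∉ I → p l ∈ I ∧ ∀ w, H.Adj l w → w = p l := by
    intro l hl
    have a1 := hp l ((nI l).1 hl).2
    refine ⟨?_, fun w => a1.only w (mem_univ _)⟩
    by_contra hn
    exact no_leaf_edge hT ((nI l).1 hl).2 ((nI _).1 hn).2 a1.adj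
      (fun e => ((nI l).1 hl).1 (e ▸ hyS)) (fun e => ((nI _).1 hn).1 (e ▸ hyS))
  obtain ⟨ψ, E0, a0, z0⟩ := ext_emb hT (fr G U) (univ.filter (fun z => 3 ≤ dg U univ z)) I cI
    (I.card - S.card) S φ hS hSI (by omega) hE
    (by
      intro u hu _
      have b1 := deg_split G U (univ.filter (fun z => 3 ≤ dg U univ z) ∪ S.image φ) (φ u)
      have b2 := card_union_erase_le (univ.filter (fun z => 3 ≤ dg U univ z)) (S.image φ) (φ u)
      have b3 := card_erase_add_one (mem_image_of_mem φ hu)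
      have b4 := count_branch U L hsum (φ u)
      have b5 := hE.card
      have b6 := hdeg (φ u)
      have b7 := dg_mono U (sdiff_subset (s := univ)
        (t := univ.filter (fun z => 3 ≤ dg U univ z) ∪ S.image φ)) (φ u)
      omega)
    (by
      intro _ x _ _
      have b1 := deg_split G U (univ.filter (fun z => 3 ≤ dg U univ z) ∪ S.image φ) x
      have b2 := card_union_erase_le (univ.filter (fun z => 3 ≤ dg U univ z)) (S.image φ) x
      have b3 := card_erase_le (s := S.image φ) (a := x)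
      have b4 := count_branch U L hsum x
      have b5 := hE.card
      have b6 := hdeg x
      have b7 := dg_mono U (sdiff_subset (s := univ)
        (t := univ.filter (fun z => 3 ≤ dg U univ z) ∪ S.image φ)) x
      omega)
  have z1 : ∀ v ∈ I, v ∉ S → dg U univ (ψ v) ≤ 2 := by
    intro v hv hvS
    have := z0 v hv hvS
    simp only [mem_filter, mem_univ, true_and] at this
    omega
  have oldb : ∀ v ∈ S, 2 ≤ dg U (univ \ I.image ψ) (ψ v) →
      dg U (univ \ I.image ψ) (ψ v) + 1 ≤ dg U univ (ψ v) := by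
    intro v hv h2
    have b7 := dg_mono U (sdiff_subset (s := univ) (t := I.image ψ)) (ψ v)
    rcases hold v hv with h | ⟨w, hw, h⟩
    · rw [← a0 v hv] at h; omega
    · rw [← a0 v hv, ← a0 w hw] at h
      refine Nat.succ_le_of_lt (card_lt_card ⟨filter_subset_filter _ sdiff_subset, fun hs => ?_⟩)
      exact (mem_sdiff.1 (mem_filter.1 (hs (mem_filter.2 ⟨mem_univ _, h⟩))).1).2
        (mem_image_of_mem _ (hSI hw))
  by_contra hcon
  have nf : ∀ ψ' : α → V, (∀ u ∈ S, ψ' u = φ u) →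
      ¬ ∃ φ', Emb H (fr G U) univ φ' ∧ ∀ u ∈ I, φ' u = ψ' u := by
    rintro ψ' h ⟨φ', h1, h2⟩
    exact hcon ⟨φ', h1, fun u hu => by rw [h2 u (hSI hu), h u hu]⟩
  rcases hmode with ⟨⟨l1, l2, n12, m1, m2, p1, p2⟩, hB2⟩ | ⟨⟨ly, hly, hpy⟩, hBq, hBi⟩
  · obtain ⟨Q, β0, Fq, q1, q2, q3, q4, _, _⟩ := hall_fail G U K hdeg hα E0 p hp' (nf ψ a0)
    have hQy : ∀ l ∈ Q, p l ≠ y := by
      intro l hl e
      have a1 := q3 l hl
      have a2 := dg_mono U (sdiff_subset (s := univ) (t := I.image ψ)) (ψ (p l))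
      rw [e, a0 y hyS] at a1 a2
      omega
    have a1 : 2 ≤ ((univ \ I) \ Q).card :=
      one_lt_card.2 ⟨l1, mem_sdiff.2 ⟨hBI m1, fun h => hQy _ h p1⟩, l2,
        mem_sdiff.2 ⟨hBI m2, fun h => hQy _ h p2⟩, n12⟩
    obtain ⟨m, rfl⟩ : ∃ m, β0 = m + 3 := ⟨β0 - 3, by omega⟩
    have a2 := count_big U L hsum (P := Q.image p) (ψ := ψ) (fun u hu v hv => by
      obtain ⟨l, hl, rfl⟩ := mem_image.1 hu
      obtain ⟨l', hl', rfl⟩ := mem_image.1 hv
      exact E0.inj _ (hp' l (mem_sdiff.1 (q1 hl)).2).1 _ (hp' l' (mem_sdiff.1 (q1 hl')).2).1)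
      (m + 2) (fun v hv => by
        obtain ⟨l, hl, rfl⟩ := mem_image.1 hv
        have b1 := q3 l hl
        have b2 := dg_mono U (sdiff_subset (s := univ) (t := I.image ψ)) (ψ (p l))
        by_cases h : p l ∈ S
        · have := oldb _ h (by omega); omega
        · have := z1 _ (hp' l (mem_sdiff.1 (q1 hl)).2).1 h; omega)
    have a3 : (B ∩ Q).card ≤ 2 * (Q.image p).card := by
      refine (card_le_mul_card_image (f := p) (B ∩ Q) 2 (fun v hv => ?_)).trans
        (Nat.mul_le_mul_left _ (card_le_card (image_subset_image inter_subset_right)))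
      obtain ⟨l, hl, rfl⟩ := mem_image.1 hv
      exact le_trans (card_le_card (filter_subset_filter _ inter_subset_left))
        (hB2 _ (hQy l (mem_inter.1 hl).2))
    have a4 : (B \ Q).card ≤ ((univ \ I) \ Q).card :=
      card_le_card (sdiff_subset_sdiff hBI (Subset.refl _))
    have a5 := card_inter_add_card_sdiff B Q
    have a6 : 1 ≤ (Q.image p).card := card_pos.2 (q2.image p)
    have a7 : m ≤ (Q.image p).card * m := Nat.le_mul_of_pos_left _ a6
    have a8 : (Q.image p).card * (m + 2) = (Q.image p).card * m + 2 * (Q.image p).card := by ring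
    omega
  have FAIL : ∀ ψ' : α → V, Emb H (fr G U) I ψ' → (∀ u ∈ S, ψ' u = φ u) →
      ∃ Fq : Finset V, Fq.card + 2 ≤ (univ \ I).card ∧
        ∀ l, l ∉ I → p l ≠ y → (univ \ I.image ψ').filter ((fr G U).Adj (ψ' (p l))) ⊆ Fq :=
    fun ψ' h1 h2 => fail_one G U K L hdeg hα hsum h1 p hp' y (by rw [h2 y hyS]; exact hy) ly
      (mem_sdiff.1 (hBI hly)).2 hpy B hBI hBL hBi (nf ψ' h2)
  obtain ⟨Fq, F1, F2⟩ := FAIL ψ E0 a0
  set LP := (I \ S).filter (fun u => ∃ l, l ∉ I ∧ p l = u) with hLP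
  have F3 : ∀ u ∈ LP, (univ \ I.image ψ).filter ((fr G U).Adj (ψ u)) ⊆ Fq := by
    intro u hu
    obtain ⟨b1, l, b2, rfl⟩ := mem_filter.1 hu
    exact F2 l b2 (fun e => (mem_sdiff.1 b1).2 (e ▸ hyS))
  have Pr := fun v (hv : v ∈ I \ S) (hs : (univ \ I.image ψ).filter ((fr G U).Adj (ψ v)) ⊆ Fq) =>
    tight G U K hdeg hα E0 (mem_sdiff.1 hv).1 (z1 v (mem_sdiff.1 hv).1 (mem_sdiff.1 hv).2) Fq F1 hs
  have cLP : B.card + 1 ≤ LP.card + L := by
    have a1 : (B.image p).card = B.card := card_image_of_injOn (fun l hl l' hl' => hBi l hl l' hl')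
    have a2 : B.image p ⊆ insert y (LP ∪ S.filter (fun v => 3 ≤ dg U univ (ψ v))) := by
      intro v hv
      obtain ⟨l, hl, rfl⟩ := mem_image.1 hv
      have b1 := (mem_sdiff.1 (hBI hl)).2
      by_cases h : p l = y
      · rw [h]; exact mem_insert_self _ _
      refine mem_insert_of_mem ?_
      by_cases h' : p l ∈ S
      · refine mem_union_right _ (mem_filter.2 ⟨h', ?_⟩)
        have b2 := free_ge G U K hdeg hα E0 (hSI h')
        have b3 := card_le_card (F2 l b1 h)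
        have b4 := oldb _ h' (by unfold dg at b2 ⊢; omega)
        unfold dg at b2 b4 ⊢
        omega
      · exact mem_union_left _ (mem_filter.2 ⟨mem_sdiff.2 ⟨(hp' l b1).1, h'⟩, l, b1, rfl⟩)
    have a3 := card_le_card a2
    have a4 := card_insert_le y (LP ∪ S.filter (fun v => 3 ≤ dg U univ (ψ v)))
    have a5 := card_union_le LP (S.filter (fun v => 3 ≤ dg U univ (ψ v)))
    have a6 := count_big U L hsum (P := S.filter (fun v => 3 ≤ dg U univ (ψ v))) (ψ := ψ)
      (fun u hu v hv => E0.inj _ (hSI (mem_filter.1 hu).1) _ (hSI (mem_filter.1 hv).1)) 1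
      (fun v hv => (mem_filter.1 hv).2)
    omega
  obtain ⟨par, d, R⟩ := hT y
  have clS := hS.closed R hyS
  have clI := cI.closed R (hSI hyS)
  have newleaf : ∀ w ∈ I \ S, (∀ c ∈ I, c ≠ y → par c ≠ w) → w ∈ LP ∧ LfAt H I w (par w) := by
    intro w hw hc
    obtain ⟨w1, w2⟩ := mem_sdiff.1 hw
    have hwy : w ≠ y := fun e => w2 (e ▸ hyS)
    have hL := lfAt_of_no_child R w1 (clI w w1) hwy hc
    refine ⟨mem_filter.2 ⟨hw, ?_⟩, hL⟩
    by_contra hn
    have : dg H univ w = 1 := by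
      refine dg_eq_one (mem_univ _) hL.adj (fun v _ hv => hL.only v ?_ hv)
      by_contra hvI
      exact hn ⟨v, hvI, ((hp' v hvI).2 w hv.symm).symm⟩
    exact (nI w).2 ⟨w2, this⟩ w1
  have mv : ∀ w ∈ LP, ∀ u, LfAt H I w u → ∀ x ∈ (univ \ I.image ψ).filter ((fr G U).Adj (ψ u)),
      x ∈ Fq ∧ 1 ≤ dg U univ x := by
    intro w hw u hL x hx
    obtain ⟨x1, x2⟩ := mem_filter.1 hx
    have x3 := (mem_sdiff.1 x1).2
    obtain ⟨w1, lw, w2, w3⟩ := mem_filter.1 hw
    obtain ⟨E1, e1⟩ := E0.move hL x3 x2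
    obtain ⟨Fq', G1, G2⟩ := FAIL _ E1 (fun s hs => by
      rw [Function.update_of_ne (fun (e : s = w) => (mem_sdiff.1 w1).2 (e ▸ hs)), a0 s hs])
    constructor
    · by_contra hxF
      obtain ⟨u', hu'⟩ : (LP.erase w).Nonempty := by
        rw [← card_pos, card_erase_of_mem hw]; omega
      obtain ⟨n1, hu'⟩ := mem_erase.1 hu'
      obtain ⟨u1, lu, u2, u3⟩ := mem_filter.1 hu'
      obtain ⟨t1, t2, t3, _, _⟩ := Pr u' u1 (F3 u' hu')
      have g1 := G2 lu u2 (fun e => (mem_sdiff.1 u1).2 (u3 ▸ e ▸ hyS))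
      rw [u3, Function.update_of_ne n1, e1] at g1
      have g2 : insert (ψ w) Fq ⊆ Fq' := by
        refine Subset.trans (fun f hf => ?_) g1
        rcases mem_insert.1 hf with rfl | hf
        · refine mem_filter.2 ⟨mem_sdiff.2 ⟨mem_univ _, fun h => ?_⟩, t1 w hL.mem n1.symm⟩
          rcases mem_insert.1 h with h | h
          · exact x3 (h ▸ mem_image_of_mem _ hL.mem)
          · obtain ⟨s, hs, e⟩ := mem_image.1 h
            exact ne_of_mem_erase hs (E0.inj s (mem_of_mem_erase hs) w hL.mem e)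
        · have hf' := hf
          rw [← t2] at hf'
          obtain ⟨f1, f2⟩ := mem_filter.1 hf'
          refine mem_filter.2 ⟨mem_sdiff.2 ⟨mem_univ _, fun h => ?_⟩, f2⟩
          rcases mem_insert.1 h with h | h
          · exact hxF (h ▸ hf)
          · exact (mem_sdiff.1 f1).2 (image_subset_image (erase_subset _ _) h)
      have g3 := card_le_card g2
      rw [card_insert_of_notMem (by
        rw [← t2]
        exact fun h => (mem_sdiff.1 (mem_filter.1 h).1).2 (mem_image_of_mem _ hL.mem))] at g3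
      omega
    · have g1 := card_le_card (G2 lw w2 (fun e => (mem_sdiff.1 w1).2 (w3 ▸ e ▸ hyS)))
      have g2 := free_ge G U K hdeg hα E1 hL.mem
      have g3 := dg_mono U (sdiff_subset (s := univ) (t := I.image (Function.update ψ w x))) x
      rw [w3] at g1
      rw [Function.update_self] at g1 g2
      unfold dg at g2 g3 ⊢
      omega
  have allin : ∀ v ∈ I \ S, 1 ≤ dg U univ (ψ v) := by
    intro v hv
    by_cases hc : ∀ c ∈ I, c ≠ y → par c ≠ v
    · have := (Pr v hv (F3 v (newleaf v hv hc).1)).2.2.2.1; omega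
    push Not at hc
    obtain ⟨c, c1, _, c3⟩ := hc
    obtain ⟨w, hw, hmax⟩ := exists_max_image ((I \ S).filter (fun w => par w ∉ S)) d
      ⟨c, mem_filter.2 ⟨mem_sdiff.2 ⟨c1, fun h => (mem_sdiff.1 hv).2 (c3 ▸ clS c h)⟩,
        c3 ▸ (mem_sdiff.1 hv).2⟩⟩
    obtain ⟨w1, w2⟩ := mem_filter.1 hw
    obtain ⟨w3, hL⟩ := newleaf w w1 (fun c' g1 g2 g3 => by
      have b1 := hmax c' (mem_filter.2 ⟨mem_sdiff.2 ⟨g1,
        fun h => (mem_sdiff.1 w1).2 (g3 ▸ clS c' h)⟩, g3 ▸ (mem_sdiff.1 w1).2⟩)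
      have b2 := R.lt c' g2
      rw [g3] at b2
      omega)
    have Pw := Pr w w1 (F3 w w3)
    have Pq := Pr (par w) (mem_sdiff.2 ⟨hL.mem', w2⟩) (fun x hx => (mv w w3 _ hL x hx).1)
    by_cases h1 : v = par w
    · rw [h1]; have := Pq.2.2.2.1; omega
    by_cases h2 : v = w
    · rw [h2]; have := Pw.2.2.2.1; omega
    obtain ⟨E1, e1⟩ := E0.exch hL (mem_sdiff.1 hv).1 h1 h2 Pw.1 Pq.1
    obtain ⟨Fq', G1, G2⟩ := FAIL _ E1 (fun s hs => by
      rw [Equiv.swap_apply_of_ne_of_ne (fun (e : s = v) => (mem_sdiff.1 hv).2 (e ▸ hs))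
        (fun (e : s = w) => (mem_sdiff.1 w1).2 (e ▸ hs)), a0 s hs])
    obtain ⟨_, lw, w4, w5⟩ := mem_filter.1 w3
    have g1 := card_le_card (G2 lw w4 (fun e => (mem_sdiff.1 w1).2 (w5 ▸ e ▸ hyS)))
    have g2 := free_ge G U K hdeg hα E1 hL.mem
    have g3 := dg_mono U (sdiff_subset (s := univ) (t := I.image ψ)) (ψ v)
    rw [w5] at g1
    rw [e1, Equiv.swap_apply_right] at g1 g2
    unfold dg at g2 g3 ⊢
    omega
  obtain ⟨w, w1, hmax⟩ := exists_max_image (I \ S) d (by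
    obtain ⟨u, hu⟩ : LP.Nonempty := card_pos.1 (by omega)
    exact ⟨u, (mem_filter.1 hu).1⟩)
  obtain ⟨w3, hL⟩ := newleaf w w1 (fun c' g1 g2 g3 => by
    have b1 := hmax c' (mem_sdiff.2 ⟨g1, fun h => (mem_sdiff.1 w1).2 (g3 ▸ clS c' h)⟩)
    have b2 := R.lt c' g2
    rw [g3] at b2
    omega)
  have hmv := mv w w3 _ hL
  have g1 := free_ge G U K hdeg hα E0 hL.mem'
  have g2 : ((univ \ I.image ψ).filter ((fr G U).Adj (ψ (par w)))).card ≤ Fq.card :=
    card_le_card (fun x hx => (hmv x hx).1)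
  have g3 := dg_mono U (sdiff_subset (s := univ) (t := I.image ψ)) (ψ (par w))
  obtain ⟨ch, hch⟩ := hfor (ψ (par w)) (by unfold dg at g1 g3 ⊢; omega)
  have adjdg : ∀ x x', U.Adj x x' → 1 ≤ dg U univ x' :=
    fun x x' h => card_pos.2 ⟨x, mem_filter.2 ⟨mem_univ _, h.symm⟩⟩
  set Ω := (univ \ I.image ψ).filter (fun x => 1 ≤ dg U univ x) with hΩ
  have k1 : Ω.card + (I \ S).card
      ≤ ((univ \ S.image φ).filter (fun x => 1 ≤ dg U univ x)).card := by
    rw [← (E0.mono (sdiff_subset (s := I) (t := S))).card, ← card_union_of_disjoint]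
    · refine card_le_card (fun x hx => ?_)
      rcases mem_union.1 hx with h | h
      · obtain ⟨b1, b2⟩ := mem_filter.1 h
        refine mem_filter.2 ⟨mem_sdiff.2 ⟨mem_univ _, fun h' => (mem_sdiff.1 b1).2 ?_⟩, b2⟩
        obtain ⟨s, hs, rfl⟩ := mem_image.1 h'
        exact mem_image.2 ⟨s, hSI hs, a0 s hs⟩
      · obtain ⟨v, hv, rfl⟩ := mem_image.1 h
        refine mem_filter.2 ⟨mem_sdiff.2 ⟨mem_univ _, fun h' => ?_⟩, allin v hv⟩
        obtain ⟨s, hs, e⟩ := mem_image.1 h'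
        rw [← a0 s hs] at e
        exact (mem_sdiff.1 hv).2 (E0.inj s (hSI hs) v (mem_sdiff.1 hv).1 e ▸ hs)
    · rw [disjoint_left]
      intro x hx hx'
      exact (mem_sdiff.1 (mem_filter.1 hx).1).2 (image_subset_image sdiff_subset hx')
  have hP : ∀ u ∈ LP.erase (par w), ψ u ≠ ψ (par w) ∧ 2 ≤ dg U univ (ψ u) := by
    intro u hu
    have b1 := (mem_filter.1 (mem_of_mem_erase hu)).1
    refine ⟨fun e => ne_of_mem_erase hu (E0.inj _ (mem_sdiff.1 b1).1 _ hL.mem' e), ?_⟩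
    have := (Pr u b1 (F3 u (mem_of_mem_erase hu))).2.2.2.1
    omega
  have k2 : ((univ \ I.image ψ).filter ((fr G U).Adj (ψ (par w)))).card
      + ((univ \ I.image ψ).filter (U.Adj (ψ (par w)))).card + (LP.erase (par w)).card
      ≤ Ω.card := by
    have e1 : ((LP.erase (par w)).image (fun u => ch (ψ u))).card = (LP.erase (par w)).card := by
      refine card_image_of_injOn (fun u hu v hv e => ?_)
      exact E0.inj _ (mem_sdiff.1 (mem_filter.1 (mem_of_mem_erase hu)).1).1 _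
        (mem_sdiff.1 (mem_filter.1 (mem_of_mem_erase hv)).1).1
        ((hch _ (hP u hu).1 (hP u hu).2).2.2 _ (hP v hv).1 (hP v hv).2 e)
    rw [← e1, ← card_union_of_disjoint, ← card_union_of_disjoint]
    · refine card_le_card (fun x hx => ?_)
      rcases mem_union.1 hx with h | h
      · rcases mem_union.1 h with h | h
        · exact mem_filter.2 ⟨(mem_filter.1 h).1, (hmv x h).2⟩
        · exact mem_filter.2 ⟨(mem_filter.1 h).1, adjdg _ _ (mem_filter.1 h).2⟩
      · obtain ⟨u, hu, rfl⟩ := mem_image.1 h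
        have b1 := (hch _ (hP u hu).1 (hP u hu).2).1
        have b2 := Pr u (mem_filter.1 (mem_of_mem_erase hu)).1 (F3 u (mem_of_mem_erase hu))
        exact mem_filter.2 ⟨mem_sdiff.2 ⟨mem_univ _, b2.2.2.2.2 _ b1⟩, adjdg _ _ b1⟩
    · rw [disjoint_left]
      intro x hx hx'
      obtain ⟨u, hu, rfl⟩ := mem_image.1 hx'
      have b1 := hch _ (hP u hu).1 (hP u hu).2
      have b2 := Pr u (mem_filter.1 (mem_of_mem_erase hu)).1 (F3 u (mem_of_mem_erase hu))
      rcases mem_union.1 hx with h | h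
      · have b3 := (hmv _ h).1
        rw [← b2.2.1] at b3
        exact (fr_adj.1 (mem_filter.1 b3).2).2 b1.1
      · exact b1.2.1 (mem_filter.1 h).2
    · rw [disjoint_left]
      intro x hx hx'
      exact (fr_adj.1 (mem_filter.1 hx).2).2 (mem_filter.1 hx').2
  have k3 := pred_card_le_card_erase (s := LP) (a := par w)
  have k4 := card_sdiff_add_card_eq_card hSI
  unfold dg at g1
  omega

end Pool.Agent.Lib.MP_2b1ae8_co.TN
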