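import Mathlib
import Pool.Agent.Lib.MP_2b1ae8_co.TNHall

set_option autoImplicit false

namespace Pool.Agent.Lib.MP_2b1ae8_co.TN

open Finset
open scoped Classical

variable {α β V : Type}

theorem greedy [Fintype α] [Fintype V] (G U : SimpleGraph V) (K : ℕ)
    (hdeg : ∀ x, K ≤ dg G univ x) (hα : Fintype.card α = K + 1) {H : SimpleGraph α} (hT : Tr H)
    {S B : Finset α} (hS : Conn H S) (hB : Conn H B) (hSB : S ⊆ B) {φ : α → V}
    (hE : Emb H (fr G U) S φ) (hU : ∀ x x', U.Adj x x' → x' ∈ S.image φ) :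
    ∃ ψ, Emb H (fr G U) B ψ ∧ ∀ u ∈ S, ψ u = φ u := by
  have c1 := card_le_card hSB
  have c2 : B.card ≤ K + 1 := hα ▸ card_le_univ B
  have m1 : ∀ x, dg U (univ \ (∅ ∪ S.image φ)) x = 0 :=
    fun x => dg_eq_zero (fun y hy h => (mem_sdiff.1 hy).2 (mem_union_right _ (hU x y h)))
  obtain ⟨ψ, h1, h2, _⟩ := ext_emb hT (fr G U) ∅ B hB (B.card - S.card) S φ hS hSB (by omega) hE
    (by
      intro u hu _
      have b1 := deg_split G U (∅ ∪ S.image φ) (φ u)
      have b2 := card_union_erase_le ∅ (S.image φ) (φ u)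
      have b3 := card_erase_add_one (mem_image_of_mem φ hu)
      have b5 := hE.card
      have b6 := hdeg (φ u)
      have b7 := m1 (φ u)
      rw [erase_empty, card_empty] at b2
      omega)
    (by
      intro _ x _ _
      have b1 := deg_split G U (∅ ∪ S.image φ) x
      have b2 := card_union_erase_le ∅ (S.image φ) x
      have b3 := card_erase_le (s := S.image φ) (a := x)
      have b5 := hE.card
      have b6 := hdeg x
      have b7 := m1 x
      rw [erase_empty, card_empty] at b2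
      omega)
  exact ⟨ψ, h1, h2⟩

theorem emb_single {H : SimpleGraph α} (Γ : SimpleGraph V) (v : α) (φ : α → V) :
    Emb H Γ {v} φ :=
  ⟨fun a ha b hb _ => by rw [mem_singleton.1 ha, mem_singleton.1 hb],
    fun a ha b hb h => by rw [mem_singleton.1 ha, mem_singleton.1 hb] at h; exact absurd h H.irrefl⟩

theorem hov_of_avoid [Fintype α] [Fintype β] [Fintype V] {G : SimpleGraph V} {H : SimpleGraph α}
    {φ : α → V} (hE : Emb H G univ φ) (Tm : Finset α) (φ' : β → V)
    (h : ∀ v, φ' v ∉ (univ \ Tm).image φ) :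
    (Tm.image φ ∪ univ.image φ').card + Fintype.card α ≤ Fintype.card V + Tm.card := by
  have a1 : Tm.image φ ∪ univ.image φ' ⊆ univ \ (univ \ Tm).image φ := by
    intro x hx
    refine mem_sdiff.2 ⟨mem_univ _, fun h' => ?_⟩
    rcases mem_union.1 hx with h1 | h1
    · obtain ⟨u, hu, rfl⟩ := mem_image.1 h1
      obtain ⟨v, hv, e⟩ := mem_image.1 h'
      exact (mem_sdiff.1 hv).2 (hE.inj v (mem_univ _) u (mem_univ _) e ▸ hu)
    · obtain ⟨u, _, rfl⟩ := mem_image.1 h1
      exact h u h'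
  have a2 := card_le_card a1
  have a3 := card_sdiff_add_card_eq_card (subset_univ ((univ \ Tm).image φ))
  have a4 := (hE.mono (subset_univ (univ \ Tm))).card
  have a5 := card_sdiff_add_card_eq_card (subset_univ Tm)
  rw [card_univ] at a3 a5
  omega

theorem dmg_le [Fintype α] [Fintype V] {G : SimpleGraph V} {H : SimpleGraph α}
    {φ : α → V} (hE : Emb H G univ φ) (A : Finset α) (Y : Finset V) (h : ∀ w, w ∉ A → φ w ∈ Y)
    (v : α) : dg (img H univ φ) (univ \ Y) (φ v) ≤ dg H A v := by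
  rw [hE.dg_img _ (mem_univ v)]
  refine card_le_card (fun w hw => ?_)
  obtain ⟨_, h1, h2⟩ := mem_filter.1 hw
  exact mem_filter.2 ⟨by by_contra hn; exact (mem_sdiff.1 h2).2 (h w hn), h1⟩

section main

variable [Fintype α] [Fintype β] [Fintype V] [Nonempty V] (G : SimpleGraph V)
  {H : SimpleGraph α} {H' : SimpleGraph β} (hT : Tr H) (hT' : Tr H') (b q t : ℕ) (hb : 2 ≤ b)
  (hn : Fintype.card V = b + 1 + q + t) (hdeg : ∀ x, b + q ≤ dg G univ x)
  (hα : Fintype.card α = b + 1 + q) (hβ : Fintype.card β = b)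

omit [Fintype V] [Nonempty V] in
theorem aligned_def {a : α} {par : α → α} {d : α → ℕ} (R : Rooted H a par d) {O S : Finset α}
    {S' : Finset β} {σ : β → α} {ρ : α → ℕ} {r' : β} (hcl : ∀ v ∈ S, par v ∈ S)
    (A : Al par a H' O S S' σ ρ r') (hO : O ⊆ S) (haO : a ∈ O) (hc : S'.card + O.card = S.card)
    {φ : α → V} {φ' : β → V} (hE : Emb H G univ φ) (hE' : Emb H' G univ φ')
    (he : ∀ v ∈ S', φ' v = φ (σ v)) :
    ∑ v ∈ S, (2 - (S.filter (fun u => ρ u < ρ v ∧
      (un (img H univ φ) (img H' univ φ')).Adj (φ v) (φ u))).card) ≤ O.card + 2 :=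
  base_def hcl A hO haO hc _ φ
    (fun v _ hva => un_adj.2 (Or.inl (hE.img_adj (mem_univ _) (mem_univ _) (R.adj_par hva))))
    (fun u hu v hv huv => by
      rw [← he u hu, ← he v hv]
      exact un_adj.2 (Or.inr (hE'.img_adj (mem_univ _) (mem_univ _) huv)))

include hT hT' hb hn hdeg hα hβ

theorem case_zero (hq : t ≤ q) : Goal G H H' b q := by
  obtain ⟨r⟩ : Nonempty α := Fintype.card_pos_iff.1 (by omega)
  obtain ⟨r0⟩ : Nonempty β := Fintype.card_pos_iff.1 (by omega)
  obtain ⟨S, hS, s1, _, s3⟩ := (Conn.single r).grow hT (conn_univ hT r) (subset_univ _) (b + 1)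
    (by simp) (by rw [card_univ]; omega)
  obtain ⟨y, a, _, hL⟩ := hS.exists_leaf hT (s1 (mem_singleton_self r)) (by omega)
  obtain ⟨par, d, R⟩ := hT a
  have hcl := hS.closed R hL.mem'
  have hya : y ≠ a := hL.adj.ne
  obtain ⟨σ, ρ, r', A⟩ := (al_main (par := par) (d := d) (a := a) (y := y) hT' _ S univ rfl
    ⟨hL.mem', fun v hv hva => ⟨hcl v hv, R.lt v hva⟩, ⟨hL.mem, hya, hL.no_child R hcl hya⟩,
      hL.par_eq R hcl hya, conn_univ hT' r0, by rw [card_univ]; omega⟩).1
  obtain ⟨φ0, E0, E0'⟩ := base_emb G (b + q) hdeg R hcl A (by omega)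
  obtain ⟨φ, E, e⟩ := greedy G (img H' univ (fun v => φ0 (σ v))) (b + q) hdeg (by omega) hT hS
    (conn_univ hT r) (subset_univ _) (E0'.swap E0) (by
      rintro x x' ⟨_, u, _, v, hv, _, _, rfl⟩
      exact mem_image_of_mem _ (A.maps v hv).1)
  refine fin_lemma G hT hT' b q t 3 hb hn hdeg hα hβ E.of_fr (E.swap E0'.of_fr) S hS s3 ?_ S
    (Subset.refl _) ρ A.rinj ?_ (by omega) (by omega)
  · have : S.image φ ∪ univ.image (fun v => φ0 (σ v)) ⊆ S.image φ := by
      refine union_subset (Subset.refl _) (fun x hx => ?_)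
      obtain ⟨v, hv, rfl⟩ := mem_image.1 hx
      exact mem_image.2 ⟨σ v, (A.maps v hv).1, e _ (A.maps v hv).1⟩
    have a1 := card_le_card this
    have a2 : (S.image φ).card ≤ S.card := card_image_le
    omega
  · exact aligned_def G R hcl A (singleton_subset_iff.2 hL.mem') (mem_singleton_self _)
      (by rw [card_univ, card_singleton]; omega) E.of_fr E0'.of_fr
      (fun v hv => (e _ (A.maps v hv).1).symm)

theorem case_one (hk : b ≤ 3 * t + 4) (Tm : Finset α) (hTm : Conn H Tm) (hTc : Tm.card = b + 1)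
    {l c : β} (hL : LfAt H' univ l c)
    (hBad : (∀ v, v ≠ c → dg H' univ v = 1) ∨ (dg H' univ c ≠ 1 ∧
      (Tm.filter (fun v => 3 ≤ dg H Tm v)).card + 1
        ≤ (univ.filter (fun v => dg H' univ v = 1)).card)) : Goal G H H' b q := by
  obtain ⟨r, hr⟩ := hTm.nonempty
  obtain ⟨x0⟩ := (inferInstance : Nonempty V)
  obtain ⟨φ, E, _⟩ := greedy G ⊥ (b + q) hdeg (by omega) hT (Conn.single r)
    (conn_univ hT r) (subset_univ _) (emb_single _ r (fun _ => x0)) (fun _ _ h => h.elim)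
  have E1 := E.of_fr
  obtain ⟨l0, u0, _, hL0⟩ := hTm.exists_leaf hT hr (by omega)
  have hd : ∀ v, dg (img H univ φ)
      (univ \ ((univ \ Tm).image φ ∪ ({c} : Finset β).image (fun _ => φ l0))) (φ v) ≤ dg H Tm v :=
    dmg_le E1 Tm _ (fun w hw => mem_union_left _ (mem_image_of_mem _ (mem_sdiff.2 ⟨mem_univ _, hw⟩)))
  have hl0 := hL0.dg
  obtain ⟨φ', E', _, z'⟩ := finish_second G (img H univ φ) hT' b q hdeg hβ ((univ \ Tm).image φ)
    ((Tm.filter (fun v => 3 ≤ dg H Tm v)).image φ)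
    (card_image_le.trans (by rw [card_sdiff_of_subset (subset_univ _), card_univ]; omega))
    {c} (Conn.single c) (fun _ => φ l0) (emb_single _ _ _)
    (by
      intro _ _ h
      obtain ⟨v, hv, e⟩ := mem_image.1 h
      exact (mem_sdiff.1 hv).2 (E1.inj v (mem_univ _) l0 (mem_univ _) e ▸ hL0.mem))
    (by
      intro x h1 _ h3
      by_cases hx : x ∈ univ.image φ
      · obtain ⟨v, _, rfl⟩ := mem_image.1 hx
        have a1 : v ∈ Tm := by
          by_contra hn; exact h1 (mem_image_of_mem _ (mem_sdiff.2 ⟨mem_univ _, hn⟩))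
        have a2 := hd v
        by_contra hn
        exact h3 (mem_image_of_mem _ (mem_filter.2 ⟨a1, by omega⟩))
      · rw [dg_img_zero _ hx]; omega)
    (fun _ _ => by have := hd l0; omega) (mem_singleton_self c)
    (by simpa using hL.adj.ne) hL (by have := hd l0; omega)
    (by
      rcases hBad with h | ⟨h1, h2⟩
      · exact Or.inl (fun v hv => h v (by simpa using hv))
      · right
        have a1 : ((Tm.filter (fun v => 3 ≤ dg H Tm v)).image φ).card
          ≤ (Tm.filter (fun v => 3 ≤ dg H Tm v)).card := card_image_le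
        have a2 : (univ.filter (fun v => dg H' univ v = 1)).card
            ≤ ((univ \ {c}).filter (fun v => dg H' univ v = 1)).card := by
          refine card_le_card (fun v hv => mem_filter.2 ⟨mem_sdiff.2 ⟨mem_univ _, fun h => ?_⟩,
            (mem_filter.1 hv).2⟩)
          exact h1 (mem_singleton.1 h ▸ (mem_filter.1 hv).2)
        omega)
  have := hov_of_avoid E1 Tm φ' z'
  exact fin_lemma G hT hT' b q t 0 hb hn hdeg hα hβ E1 E' Tm hTm hTc (by omega) ∅
    (empty_subset _) (fun _ => 0) (by simp) (by simp) (by omega) (by rw [card_empty]; omega)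

omit hT' hb hn hdeg hα hβ [Fintype α] [Fintype β] [Fintype V] [Nonempty V] in
theorem contract_root {S : Finset α} (hS : Conn H S) (h3 : 3 ≤ S.card) {z : α} (hz : z ∈ S) :
    ∃ a y par d, Rooted H a par d ∧ a ∈ S ∧ z ≠ a ∧
      SL (fun v => if par v = z then par z else par v) a (S.erase z) y ∧
      (if par y = z then par z else par y) = a ∧
      (SL (fun v => if par v = z then par z else par v) a (S.erase z) (par z) → par z = y) := by
  by_cases hz1 : dg H S z = 1
  · obtain ⟨u, hL⟩ := lfAt_of_dg hz hz1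
    have hS' := hS.erase_leaf hT hL
    have hu : u ∈ S.erase z := mem_erase.2 ⟨hL.adj.ne.symm, hL.mem'⟩
    obtain ⟨y, a, hLy, hyu⟩ : ∃ y a, LfAt H (S.erase z) y a ∧
        (dg H (S.erase z) u = 1 → u = y) := by
      by_cases h : dg H (S.erase z) u = 1
      · obtain ⟨a, ha⟩ := lfAt_of_dg hu h
        exact ⟨u, a, ha, fun _ => rfl⟩
      · obtain ⟨y, a, _, ha⟩ := hS'.exists_leaf hT hu (by rw [card_erase_of_mem hz]; omega)
        exact ⟨y, a, ha, fun h' => absurd h' h⟩
    obtain ⟨par, d, R⟩ := hT a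
    have haS := mem_of_mem_erase hLy.mem'
    have hza : z ≠ a := (ne_of_mem_erase hLy.mem').symm
    have cl := hS.closed R haS
    have cl' := hS'.closed R hLy.mem'
    have hya : y ≠ a := hLy.adj.ne
    have np : ∀ w ∈ S.erase z, par w ≠ z := fun w hw => ne_of_mem_erase (cl' w hw)
    refine ⟨a, y, par, d, R, haS, hza, ⟨hLy.mem, hya, fun w hw hwa => ?_⟩, ?_, fun h => ?_⟩
    · simp only [if_neg (np w hw)]; exact hLy.no_child R cl' hya w hw hwa
    · rw [if_neg (np y hLy.mem)]; exact hLy.par_eq R cl' hya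
    · rw [hL.par_eq R cl hza] at h ⊢
      refine hyu (lfAt_of_no_child R hu (cl' u hu) h.ne (fun w hw hwa => ?_)).dg
      have := h.no w hw hwa
      simpa only [if_neg (np w hw)] using this
  · have hz2 : 2 ≤ dg H S z := by have := hS.dg_pos hT (by omega) hz; omega
    obtain ⟨y, a', hyz, hL⟩ := hS.exists_leaf hT hz (by omega)
    obtain ⟨a, haS, hza, hya, ha⟩ : ∃ a ∈ S, z ≠ a ∧ y ≠ a ∧
        ((a' ≠ z ∧ a = a') ∨ (a' = z ∧ H.Adj z a)) := by
      by_cases h : a' = z
      · obtain ⟨a, ha, hne⟩ := exists_mem_ne hz2 y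
        exact ⟨a, (mem_filter.1 ha).1, (mem_filter.1 ha).2.ne, hne.symm,
          Or.inr ⟨h, (mem_filter.1 ha).2⟩⟩
      · exact ⟨a', hL.mem', Ne.symm h, hL.adj.ne, Or.inl ⟨h, rfl⟩⟩
    obtain ⟨par, d, R⟩ := hT a
    have cl := hS.closed R haS
    have p1 := hL.par_eq R cl hya
    have p2 := hL.no_child R cl hya
    refine ⟨a, y, par, d, R, haS, hza, ⟨mem_erase.2 ⟨hyz, hL.mem⟩, hya, fun w hw hwa => ?_⟩, ?_,
      fun h => ?_⟩
    · split_ifs
      · exact p2 z hz hza
      · exact p2 w (mem_of_mem_erase hw) hwa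
    · rcases ha with ⟨h1, h2⟩ | ⟨h1, h2⟩
      · rw [p1, if_neg h1, h2]
      · rw [p1, if_pos h1]
        rcases (R.adj _ _).1 h2 with ⟨_, h⟩ | ⟨h, _⟩
        · exact h
        · exact absurd rfl h
    · exfalso
      obtain ⟨c, hc, hne⟩ := exists_mem_ne hz2 (par z)
      obtain ⟨c1, c2⟩ := mem_filter.1 hc
      rcases (R.adj _ _).1 c2 with ⟨_, h'⟩ | ⟨h1, h'⟩
      · exact hne h'.symm
      · exact h.no c (mem_erase.2 ⟨c2.ne.symm, c1⟩) h1 (by simp only [if_pos h'])

omit hT hb hn hdeg hα hβ [Fintype α] [Fintype V] [Nonempty V] in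
theorem nonstar_leaves (hns : ∀ u, ¬ ∀ w, w ≠ u → H'.Adj u w) (r : β) :
    ∃ l1 c1 l2 c2, LfAt H' univ l1 c1 ∧ LfAt H' univ l2 c2 ∧ c1 ≠ c2 ∧ dg H' univ c1 ≠ 1 ∧
      dg H' univ c2 ≠ 1 := by
  have key : ∀ l c, LfAt H' univ l c → dg H' univ c ≠ 1 := by
    intro l c hL h
    refine hns c (fun w hw => ?_)
    by_contra hn
    exact no_leaf_edge hT' hL.dg h hL.adj (fun (e : w = l) => hn (e ▸ hL.adj.symm)) hw
  obtain ⟨l1, c1, h1, _, _⟩ := (conn_univ hT' r).nonstar hT' (mem_univ r)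
    (fun h => hns r (fun w => h w (mem_univ _)))
  obtain ⟨l2, c2, h2, n, _⟩ := (conn_univ hT' r).nonstar hT' (mem_univ c1)
    (fun h => hns c1 (fun w => h w (mem_univ _)))
  exact ⟨l1, c1, l2, c2, h1, h2, n.symm, key _ _ h1, key _ _ h2⟩

omit hT hb hn hdeg hα hβ [Fintype α] [Fintype V] [Nonempty V] in
theorem conn_inner {c : β} (hc : dg H' univ c ≠ 1) :
    Conn H' (univ.filter (fun v => dg H' univ v ≠ 1)) := by
  have := (Conn.single (H := H') c).internal hT'
  have h : ({c} : Finset β) ⊆ univ.filter (fun v => dg H' univ v ≠ 1) :=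
    singleton_subset_iff.2 (mem_filter.2 ⟨mem_univ _, hc⟩)
  rwa [union_eq_right.2 h] at this

omit hT hT' hb hn hdeg hα hβ [Fintype α] [Fintype V] [Nonempty V] in
theorem inner_leaf {c u : β} (hL : LfAt H' (univ.filter (fun v => dg H' univ v ≠ 1)) c u) :
    ∃ l, LfAt H' univ l c := by
  by_contra hn
  refine (mem_filter.1 hL.mem).2 (dg_eq_one (mem_univ u) hL.adj (fun w _ hw => hL.only w ?_ hw))
  refine mem_filter.2 ⟨mem_univ _, fun h => hn ⟨w, ?_⟩⟩
  obtain ⟨v, hv⟩ := lfAt_of_dg (mem_univ w) h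
  rwa [← hv.only c (mem_univ _) hw.symm] at hv

theorem case_two (hq : q < t) (hns : ∀ u, ¬ ∀ w, w ≠ u → H'.Adj u w) (z : α) (R0 : Finset α)
    (hz : z ∉ R0) (hS : Conn H (univ \ R0)) (hcut : ∀ u, u ∉ R0 → ∀ v ∈ R0, H.Adj u v → u = z)
    (h1 : t ≤ R0.card) (h2 : R0.card ≤ t ∨ R0.card + 2 ≤ 2 * t) (h3 : R0.card + 4 ≤ b + 1 + q)
    (hM : (R0.filter (fun v => 3 ≤ dg H univ v)).card + (if 2 ≤ dg H R0 z then 1 else 0) + 1
      ≤ (univ.filter (fun v => dg H' univ v = 1)).card) : Goal G H H' b q := by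
  set S := univ \ R0 with hSdef
  have cS : S.card + R0.card = b + 1 + q := by
    rw [hSdef, card_sdiff_add_card_eq_card (subset_univ _), card_univ, hα]
  have hzS : z ∈ S := mem_sdiff.2 ⟨mem_univ _, hz⟩
  obtain ⟨a, y, par, d, R, haS, hza, hy1, hy2, hy3⟩ := contract_root hT hS (by omega) hzS
  have cl := hS.closed R haS
  have cz := card_erase_add_one hzS
  obtain ⟨r0⟩ : Nonempty β := Fintype.card_pos_iff.1 (by omega)
  obtain ⟨l1, c1, l2, c2, L1, L2, n12, d1, d2⟩ := nonstar_leaves hT' hns r0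
  have cI := conn_inner hT' d1
  have mkH : ∀ S' : Finset β, Conn H' S' → S'.card + 2 = S.card →
      Hyp (fun v => if par v = z then par z else par v) d a y H' (S.erase z) S' := by
    intro S' h1 h2
    refine ⟨mem_erase.2 ⟨hza.symm, haS⟩, fun v hv hva => ?_, hy1, hy2, h1, by omega⟩
    have b1 := R.lt v hva
    have b2 := R.lt z hza
    split_ifs with h
    · rw [h] at b1
      exact ⟨mem_erase.2 ⟨R.par_ne hza, cl z hzS⟩, by omega⟩
    · exact ⟨mem_erase.2 ⟨h, cl v (mem_of_mem_erase hv)⟩, b1⟩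
  obtain ⟨S', σ, ρ, r', l, c, hS', cS', A, hc, hl, hL, hcz, hB⟩ :
      ∃ (S' : Finset β) (σ : β → α) (ρ : α → ℕ) (r' l c : β), Conn H' S' ∧ S'.card + 2 = S.card ∧
      Al (fun v => if par v = z then par z else par v) a H' {a} (S.erase z) S' σ ρ r' ∧
      c ∈ S' ∧ l ∉ S' ∧ LfAt H' univ l c ∧ σ c ≠ par z ∧
      ((∀ v, v ∉ S' → dg H' univ v = 1) ∨ ∀ v, dg H' univ v = 1 → v ∉ S') := by
    by_cases hc : S.card - 2 ≤ (univ.filter (fun v => dg H' univ v ≠ 1)).card
    · obtain ⟨c, u, _, hL⟩ := cI.exists_leaf hT' (mem_filter.2 ⟨mem_univ _, d1⟩) (by omega)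
      obtain ⟨l, hl⟩ := inner_leaf hL
      obtain ⟨S', s1, s2, s3, s4⟩ := (Conn.single c).grow hT' cI (singleton_subset_iff.2 hL.mem)
        (S.card - 2) (by rw [card_singleton]; omega) hc
      have hcS := s2 (mem_singleton_self c)
      obtain ⟨w, hw⟩ := card_pos.1 (s1.dg_pos hT' (by omega) hcS)
      have hL' : LfAt H' S' c u := hL.mono s3 hcS
        (hL.only w (s3 (mem_filter.1 hw).1) (mem_filter.1 hw).2 ▸ (mem_filter.1 hw).1)
      obtain ⟨σ, ρ, r', A, m1, m2⟩ := (al_main hT' _ _ S' rfl (mkH S' s1 (by omega))).2 c u hL'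
      refine ⟨S', σ, ρ, r', l, c, s1, by omega, A, hcS, fun h => (mem_filter.1 (s3 h)).2 hl.dg, hl,
        fun e => m2 (e.trans (hy3 (e ▸ m1))), Or.inr (fun v hv h => (mem_filter.1 (s3 h)).2 hv)⟩
    · have n1 : l1 ≠ l2 := fun e => n12 (L2.only c1 (mem_univ _) (e ▸ L1.adj))
      have n2 : c2 ≠ l1 := fun e => d2 (e ▸ L1.dg)
      have hC := ((conn_univ hT' r0).erase_leaf hT' L1).erase_leaf hT'
        (L2.mono (erase_subset l1 _) (mem_erase.2 ⟨n1.symm, mem_univ _⟩)
          (mem_erase.2 ⟨n2, mem_univ _⟩))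
      obtain ⟨S', s1, s2, s3, s4⟩ := cI.grow hT' hC
        (fun v hv => mem_erase.2 ⟨fun e => (mem_filter.1 hv).2 (e ▸ L2.dg),
          mem_erase.2 ⟨fun e => (mem_filter.1 hv).2 (e ▸ L1.dg), mem_univ _⟩⟩)
        (S.card - 2) (by omega) (by
          rw [card_erase_of_mem (mem_erase.2 ⟨n1.symm, mem_univ _⟩),
            card_erase_of_mem (mem_univ _), card_univ]
          omega)
      obtain ⟨σ, ρ, r', A⟩ := (al_main hT' _ _ S' rfl (mkH S' s1 (by omega))).1
      have m1 : c1 ∈ S' := s2 (mem_filter.2 ⟨mem_univ _, d1⟩)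
      have m2 : c2 ∈ S' := s2 (mem_filter.2 ⟨mem_univ _, d2⟩)
      have hB : ∀ v, v ∉ S' → dg H' univ v = 1 := fun v hv => by
        by_contra h; exact hv (s2 (mem_filter.2 ⟨mem_univ _, h⟩))
      by_cases e : σ c1 = par z
      · exact ⟨S', σ, ρ, r', l2, c2, s1, by omega, A, m2, fun h => notMem_erase _ _ (s3 h), L2,
          fun e' => n12 (A.inj _ m1 _ m2 (e.trans e'.symm)), Or.inl hB⟩
      · exact ⟨S', σ, ρ, r', l1, c1, s1, by omega, A, m1,
          fun h => notMem_erase _ _ (mem_of_mem_erase (s3 h)), L1, e, Or.inl hB⟩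
  have A' := A.uncontract hzS hza (fun v hv hva => ⟨cl v hv, R.par_ne hva⟩)
  obtain ⟨φ0, E0, E0'⟩ := base_emb G (b + q) hdeg R cl A' (by omega)
  obtain ⟨φ, E, e⟩ := greedy G (img H' S' (fun v => φ0 (σ v))) (b + q) hdeg (by omega) hT hS
    (conn_univ hT a) (subset_univ _) (E0'.swap E0) (by
      rintro x x' ⟨_, u, _, v, hv, _, _, rfl⟩
      exact mem_image_of_mem _ (A'.maps v hv).1)
  have E1 := E.of_fr
  obtain ⟨Tm, hTm, t1, _, t3⟩ := hS.grow hT (conn_univ hT a) (subset_univ _) (b + 1) (by omega)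
    (by rw [card_univ]; omega)
  have hO : ({a, z} : Finset α) ⊆ S := insert_subset haS (singleton_subset_iff.2 hzS)
  have cO : ({a, z} : Finset α).card = 2 := card_pair hza.symm
  have hsurj : S'.image σ = S \ {a, z} := by
    refine eq_of_subset_of_card_le (fun v hv => ?_) ?_
    · obtain ⟨w, hw, rfl⟩ := mem_image.1 hv
      exact mem_sdiff.2 (A'.maps w hw)
    · rw [card_image_of_injOn (fun u hu v hv e => A'.inj u hu v hv e), card_sdiff_of_subset hO]
      omega
  have him : ∀ w ∈ S, w ∉ ({a, z} : Finset α) → φ w ∈ S'.image (fun v => φ0 (σ v)) := by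
    intro w hw hw'
    obtain ⟨v, hv, rfl⟩ := mem_image.1 (hsurj ▸ mem_sdiff.2 ⟨hw, hw'⟩ : w ∈ S'.image σ)
    exact mem_image.2 ⟨v, hv, (e _ hw).symm⟩
  have hd : ∀ v, dg (img H univ φ)
      (univ \ ((univ \ Tm).image φ ∪ S'.image (fun v => φ0 (σ v)))) (φ v)
        ≤ dg H ({a, z} ∪ R0) v :=
    dmg_le E1 _ _ (fun w hw => mem_union_right _ (him w
      (mem_sdiff.2 ⟨mem_univ _, fun h => hw (mem_union_right _ h)⟩)
      (fun h => hw (mem_union_left _ h))))
  have hd2 : ∀ v ∈ S, v ≠ z → dg H ({a, z} ∪ R0) v ≤ dg H {a, z} v := by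
    intro v hv hvz
    refine card_le_card (fun w hw => ?_)
    obtain ⟨b1, b2⟩ := mem_filter.1 hw
    refine mem_filter.2 ⟨(mem_union.1 b1).resolve_right (fun h => ?_), b2⟩
    exact hvz (hcut v (mem_sdiff.1 hv).2 w h b2)
  have hd3 : ∀ v, dg H {a, z} v ≤ 2 := fun v => (card_filter_le _ _).trans cO.le
  have hm : ∀ v ∈ S', σ v ∈ S ∧ σ v ≠ z := fun v hv =>
    ⟨(A'.maps v hv).1, fun e => (A'.maps v hv).2 (by simp [e])⟩
  obtain ⟨φ', E', a', z'⟩ := finish_second G (img H univ φ) hT' b q hdeg hβ ((univ \ Tm).image φ)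
    ((R0.filter (fun v => 3 ≤ dg H univ v) ∪ if 2 ≤ dg H R0 z then {z} else ∅).image φ)
    (card_image_le.trans (by rw [card_sdiff_of_subset (subset_univ _), card_univ]; omega))
    S' hS' (fun v => φ0 (σ v)) (E.swap E0'.of_fr)
    (by
      intro v hv h
      obtain ⟨w, hw, e'⟩ := mem_image.1 h
      rw [← e _ (hm v hv).1] at e'
      exact (mem_sdiff.1 hw).2 (E1.inj w (mem_univ _) _ (mem_univ _) e' ▸ t1 (hm v hv).1))
    (by
      intro x _ _ h3
      by_cases hx : x ∈ univ.image φ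
      · obtain ⟨v, _, rfl⟩ := mem_image.1 hx
        have a2 := hd v
        by_cases hv : v ∈ R0
        · have := dg_mono H (subset_univ ({a, z} ∪ R0)) v
          by_contra hn
          exact h3 (mem_image_of_mem _ (mem_union_left _ (mem_filter.2 ⟨hv, by omega⟩)))
        by_cases hvz : v = z
        · subst hvz
          have b1 := dg_insert_le H (insert v R0) a v
          rw [dg_insert_self] at b1
          rw [show ({a, v} ∪ R0 : Finset α) = insert a (insert v R0) by ext; simp] at a2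
          by_contra hn
          exact h3 (mem_image_of_mem _ (mem_union_right _ (by
            rw [if_pos (by omega)]; exact mem_singleton_self _)))
        · have b1 := hd2 v (mem_sdiff.2 ⟨mem_univ _, hv⟩) hvz
          have b2 := hd3 v
          omega
      · rw [dg_img_zero _ hx]; omega)
    (by
      intro v hv
      have b0 := hd (σ v)
      have b1 := hd2 _ (hm v hv).1 (hm v hv).2
      have b2 := hd3 (σ v)
      rw [e _ (hm v hv).1] at b0
      omega)
    hc hl hL
    (by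
      have b0 := hd (σ c)
      have b1 := hd2 _ (hm c hc).1 (hm c hc).2
      rw [e _ (hm c hc).1] at b0
      have b2 : dg H {a, z} (σ c) ≤ 1 := by
        by_contra hn
        have b3 : ({a, z} : Finset α).filter (H.Adj (σ c)) = {a, z} :=
          eq_of_subset_of_card_le (filter_subset _ _) (by unfold dg at hn; omega)
        have b4 : H.Adj (σ c) a := (mem_filter.1 (b3.symm ▸ (by simp : a ∈ ({a, z} : Finset α)))).2
        have b5 : H.Adj (σ c) z := (mem_filter.1 (b3.symm ▸ (by simp : z ∈ ({a, z} : Finset α)))).2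
        rcases (R.adj _ _).1 b5 with ⟨_, g2⟩ | ⟨_, g2⟩
        · rcases (R.adj _ _).1 b4 with ⟨_, g3⟩ | ⟨g3, _⟩
          · exact hza (g2.symm.trans g3)
          · exact g3 rfl
        · exact hcz g2.symm
      omega)
    (by
      rcases hB with h | h
      · exact Or.inl h
      · right
        have a1 := card_image_le (f := φ)
          (s := R0.filter (fun v => 3 ≤ dg H univ v) ∪ if 2 ≤ dg H R0 z then {z} else ∅)
        have a2 := card_union_le (R0.filter (fun v => 3 ≤ dg H univ v))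
          (if 2 ≤ dg H R0 z then {z} else ∅)
        have a3 : (univ.filter (fun v => dg H' univ v = 1)).card
            ≤ ((univ \ S').filter (fun v => dg H' univ v = 1)).card :=
          card_le_card (fun v hv => mem_filter.2 ⟨mem_sdiff.2 ⟨mem_univ _,
            h v (mem_filter.1 hv).2⟩, (mem_filter.1 hv).2⟩)
        split_ifs at hM a1 a2 ⊢ <;> simp only [card_singleton, card_empty] at a2 <;> omega)
  have := hov_of_avoid E1 Tm φ' z'
  refine fin_lemma G hT hT' b q t 4 hb hn hdeg hα hβ E1 E' Tm hTm t3 (by omega) S t1 _ A'.rinj ?_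
    (by omega) (by omega)
  have := aligned_def G R cl A' hO (by simp) (by omega) E1 E'.of_fr
    (fun v hv => by rw [a' v hv, e _ (hm v hv).1])
  rw [cO] at this
  exact this

end main

end Pool.Agent.Lib.MP_2b1ae8_co.TN
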