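import Mathlib
import Pool.Agent.Lib.MP_2b1ae8_co.TNCase

set_option autoImplicit false

namespace Pool.Agent.Lib.MP_2b1ae8_co.TN

open Finset
open scoped Classical

variable {α β V : Type}

theorem Rooted.exists_child [Fintype α] {H : SimpleGraph α} {r : α} {par : α → α} {d : α → ℕ}
    (R : Rooted H r par d) {v : α} (h : 2 ≤ dg H univ v) : ∃ c, c ≠ r ∧ par c = v := by
  obtain ⟨c, hc, hne⟩ := exists_mem_ne h (par v)
  rcases (R.adj _ _).1 (mem_filter.1 hc).2 with ⟨_, h'⟩ | h'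
  · exact absurd h'.symm hne
  · exact ⟨c, h'⟩

theorem img_forest [Fintype β] [Fintype V] {G : SimpleGraph V} {H' : SimpleGraph β} (hT' : Tr H')
    {φ' : β → V} (hE : Emb H' G univ φ') (x0 : V) (h0 : 1 ≤ dg (img H' univ φ') univ x0) :
    ∃ ch : V → V, ∀ x, x ≠ x0 → 2 ≤ dg (img H' univ φ') univ x →
      (img H' univ φ').Adj x (ch x) ∧ ¬ (img H' univ φ').Adj x0 (ch x) ∧
        ∀ x', x' ≠ x0 → 2 ≤ dg (img H' univ φ') univ x' → ch x = ch x' → x = x' := by
  have him : ∀ x, 1 ≤ dg (img H' univ φ') univ x → ∃ v, φ' v = x := by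
    intro x hx
    by_contra hn
    rw [dg_img_zero _ (fun h => by
      obtain ⟨v, _, e⟩ := mem_image.1 h
      exact hn ⟨v, e⟩)] at hx
    omega
  obtain ⟨r, rfl⟩ := him x0 h0
  obtain ⟨par, d, R⟩ := hT' r
  have : ∀ x, ∃ z, 2 ≤ dg (img H' univ φ') univ x → ∃ c, c ≠ r ∧ φ' (par c) = x ∧ z = φ' c := by
    intro x
    by_cases hx : 2 ≤ dg (img H' univ φ') univ x
    · obtain ⟨v, rfl⟩ := him x (by omega)
      rw [hE.dg_img_univ (mem_univ v)] at hx
      obtain ⟨c, h1, h2⟩ := R.exists_child hx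
      exact ⟨φ' c, fun _ => ⟨c, h1, by rw [h2], rfl⟩⟩
    · exact ⟨x, fun h => absurd h hx⟩
  choose ch hch using this
  refine ⟨ch, fun x hx h2 => ?_⟩
  obtain ⟨c, c1, c2, c3⟩ := hch x h2
  refine ⟨?_, ?_, fun x' _ h2' e => ?_⟩
  · rw [c3, ← c2]; exact hE.img_adj (mem_univ _) (mem_univ _) (R.adj_par c1).symm
  · rw [c3]
    rintro ⟨_, u, _, v, _, huv, e1, e2⟩
    rw [hE.inj u (mem_univ _) r (mem_univ _) e1, hE.inj v (mem_univ _) c (mem_univ _) e2] at huv
    rcases (R.adj _ _).1 huv with ⟨h, _⟩ | ⟨_, h⟩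
    · exact h rfl
    · exact hx (by rw [← c2, h])
  · obtain ⟨c', _, d2, d3⟩ := hch x' h2'
    rw [c3, d3] at e
    rw [← c2, ← d2, hE.inj c (mem_univ _) c' (mem_univ _) e]

theorem dg_split [Fintype α] {H : SimpleGraph α} (p : α → α)
    (hp : ∀ l, dg H univ l = 1 → LfAt H univ l (p l)) (v : α) :
    dg H univ v = dg H (univ.filter (fun v => dg H univ v ≠ 1)) v
      + (univ.filter (fun l => dg H univ l = 1 ∧ p l = v)).card := by
  have := card_filter_add_card_filter_not (s := univ.filter (H.Adj v)) (fun w => dg H univ w ≠ 1)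
  have e1 : (univ.filter (H.Adj v)).filter (fun w => dg H univ w ≠ 1)
      = (univ.filter (fun v => dg H univ v ≠ 1)).filter (H.Adj v) := filter_comm _ _ _
  have e2 : (univ.filter (H.Adj v)).filter (fun w => ¬ dg H univ w ≠ 1)
      = univ.filter (fun l => dg H univ l = 1 ∧ p l = v) := by
    ext w
    simp only [mem_filter, mem_univ, true_and, not_not]
    constructor
    · rintro ⟨h1, h2⟩; exact ⟨h2, ((hp w h2).only v (mem_univ _) h1.symm).symm⟩
    · rintro ⟨h1, h2⟩; exact ⟨h2 ▸ (hp w h1).adj.symm, h1⟩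
  rw [e1, e2] at this
  exact this.symm

theorem exists_spread [Fintype α] {H : SimpleGraph α} (hT : Tr H) (p : α → α)
    (hp : ∀ l, dg H univ l = 1 → LfAt H univ l (p l)) {y py : α}
    (hy : LfAt H (univ.filter (fun v => dg H univ v ≠ 1)) y py) (κ : ℕ)
    (hκ : κ = 2 ∨ (κ = 1 ∧ ∀ v u, LfAt H (univ.filter (fun v => dg H univ v ≠ 1)) v u →
      (univ.filter (fun l => dg H univ l = 1 ∧ p l = v)).card ≤ 1)) :
    ∃ B : Finset α, (∀ l ∈ B, dg H univ l = 1) ∧
      univ.filter (fun l => dg H univ l = 1 ∧ p l = y) ⊆ B ∧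
      (∀ v, v ≠ y → (B.filter (fun l => p l = v)).card ≤ κ) ∧
      (univ.filter (fun v => 3 ≤ dg H univ v)).card + 2 ≤ B.card := by
  have : ∀ v, ∃ s, s ⊆ univ.filter (fun l => dg H univ l = 1 ∧ p l = v) ∧
      min κ (univ.filter (fun l => dg H univ l = 1 ∧ p l = v)).card ≤ s.card ∧
      (v ≠ y → s.card ≤ κ) ∧ (v = y → s = univ.filter (fun l => dg H univ l = 1 ∧ p l = v)) := by
    intro v
    by_cases hv : v = y
    · exact ⟨_, Subset.refl _, min_le_right _ _, fun h => absurd hv h, fun _ => rfl⟩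
    · obtain ⟨s, h1, h2⟩ := exists_subset_card_eq
        (min_le_right κ (univ.filter (fun l => dg H univ l = 1 ∧ p l = v)).card)
      exact ⟨s, h1, h2.ge, fun _ => h2 ▸ min_le_left _ _, fun h => absurd h hv⟩
  choose sel s1 s2 s3 s4 using this
  set I := univ.filter (fun v => dg H univ v ≠ 1) with hI
  have cI : Conn H I := conn_inner hT (mem_filter.1 hy.mem).2
  have c2 : 2 ≤ I.card := one_lt_card.2 ⟨y, hy.mem, py, hy.mem', hy.adj.ne⟩
  refine ⟨I.biUnion sel, fun l hl => ?_, ?_, fun v hv => ?_, ?_⟩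
  · obtain ⟨v, _, h⟩ := mem_biUnion.1 hl
    exact (mem_filter.1 (s1 v h)).2.1
  · rw [← s4 y rfl]; exact subset_biUnion_of_mem sel hy.mem
  · refine le_trans (card_le_card (fun l hl => ?_)) (s3 v hv)
    obtain ⟨h1, h2⟩ := mem_filter.1 hl
    obtain ⟨w, _, h⟩ := mem_biUnion.1 h1
    rwa [← h2, (mem_filter.1 (s1 w h)).2.2]
  · rw [card_biUnion (fun u _ v _ huv => by
      rw [Function.onFun, disjoint_left]
      intro l h1 h2
      exact huv ((mem_filter.1 (s1 u h1)).2.2.symm.trans (mem_filter.1 (s1 v h2)).2.2))]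
    have a1 := cI.ee_eq hT
    have a2 : ∑ v ∈ I, (2 + if 3 ≤ dg H univ v then 1 else 0)
        ≤ ∑ v ∈ I, ((sel v).card + dg H I v) := by
      refine sum_le_sum (fun v hv => ?_)
      have b1 := dg_split p hp v
      rw [← hI] at b1
      have b2 := cI.dg_pos hT c2 hv
      have b3 := (mem_filter.1 hv).2
      have b4 := s2 v
      rcases hκ with h | ⟨h, h'⟩
      · split_ifs <;> omega
      · by_cases b5 : dg H I v = 1
        · obtain ⟨u, hu⟩ := lfAt_of_dg hv b5
          have := h' v u hu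
          split_ifs <;> omega
        · split_ifs <;> omega
    rw [sum_add_distrib, sum_add_distrib, ← card_filter, sum_const, smul_eq_mul] at a2
    have a3 : (univ.filter (fun v => 3 ≤ dg H univ v)).card
        ≤ (I.filter (fun v => 3 ≤ dg H univ v)).card := by
      refine card_le_card (fun v hv => ?_)
      have := (mem_filter.1 hv).2
      exact mem_filter.2 ⟨mem_filter.2 ⟨mem_univ _, by omega⟩, this⟩
    unfold ee at a1
    omega

theorem exists_cut [Fintype α] {H : SimpleGraph α} (hT : Tr H) (t : ℕ)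
    (hk : t + 1 ≤ Fintype.card α) :
    ∃ (z : α) (R0 : Finset α), z ∉ R0 ∧ Conn H (univ \ R0) ∧ Conn H (insert z R0) ∧
      (∀ u, u ∉ R0 → ∀ v ∈ R0, H.Adj u v → u = z) ∧ t ≤ R0.card ∧
      (R0.card ≤ t ∨ R0.card + 2 ≤ 2 * t) := by
  obtain ⟨r⟩ : Nonempty α := Fintype.card_pos_iff.1 (by omega)
  obtain ⟨par, d, R⟩ := hT r
  let Hang : α → Finset α → Prop := fun z A => z ∉ A ∧ r ∉ A ∧
    (∀ v ∈ A, par v ∈ A ∨ par v = z) ∧ ∀ v, par v ∈ A → v ∈ A
  have hex : ∃ n, ∃ z A, Hang z A ∧ t ≤ A.card ∧ A.card = n := by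
    refine ⟨_, r, univ.erase r, ⟨notMem_erase _ _, notMem_erase _ _, fun v _ => ?_, fun v hv => ?_⟩,
      by rw [card_erase_of_mem (mem_univ _), card_univ]; omega, rfl⟩
    · by_cases h : par v = r
      · exact Or.inr h
      · exact Or.inl (mem_erase.2 ⟨h, mem_univ _⟩)
    · exact mem_erase.2 ⟨fun e => ne_of_mem_erase hv (by rw [e, R.root]), mem_univ _⟩
  obtain ⟨z, A, ⟨h1, h2, h3, h4⟩, h5, h6⟩ := Nat.find_spec hex
  have hmin : ∀ z' A', Hang z' A' → A'.card < A.card → A'.card < t := by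
    intro z' A' hA hlt
    by_contra hn
    exact Nat.find_min hex (h6 ▸ hlt) ⟨z', A', hA, by omega, rfl⟩
  refine ⟨z, A, h1, ?_, ?_, ?_, h5, ?_⟩
  · refine conn_of_closed R (mem_sdiff.2 ⟨mem_univ _, h2⟩) (fun v hv _ => ?_)
    exact mem_sdiff.2 ⟨mem_univ _, fun h => (mem_sdiff.1 hv).2 (h4 v h)⟩
  · refine conn_of_top R z _ _ rfl (mem_insert_self _ _) (fun v hv hvz => ?_)
    have hvA := (mem_insert.1 hv).resolve_left hvz
    refine ⟨fun e => h2 (e ▸ hvA), ?_⟩
    rcases h3 v hvA with h | h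
    · exact mem_insert_of_mem h
    · rw [h]; exact mem_insert_self _ _
  · intro u hu v hv huv
    rcases (R.adj _ _).1 huv with ⟨_, h⟩ | ⟨_, h⟩
    · exact absurd (h4 u (h ▸ hv)) hu
    · rcases h3 v hv with h' | h'
      · exact absurd (h ▸ h') hu
      · exact h ▸ h'
  · by_contra hn
    push Not at hn
    obtain ⟨c, hc, hcmin⟩ := exists_min_image A d (card_pos.1 (by omega))
    have hcr : c ≠ r := fun e => h2 (e ▸ hc)
    have hpc : par c ∉ A := fun h => by
      have a1 := hcmin _ h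
      have a2 := R.lt c hcr
      omega
    let D := univ.filter (fun v => ∃ n, par^[n] v = c)
    have d1 : c ∈ D := mem_filter.2 ⟨mem_univ _, 0, rfl⟩
    have d2 : ∀ v ∈ D, v ≠ c → par v ∈ D := by
      intro v hv hvc
      obtain ⟨n, hn⟩ := (mem_filter.1 hv).2
      cases n with
      | zero => exact absurd hn hvc
      | succ n => exact mem_filter.2 ⟨mem_univ _, n, hn⟩
    have d3 : ∀ v, par v ∈ D → v ∈ D := by
      intro v hv
      obtain ⟨n, hn⟩ := (mem_filter.1 hv).2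
      exact mem_filter.2 ⟨mem_univ _, n + 1, hn⟩
    have d4 : D ⊆ A := by
      have : ∀ n v, par^[n] v = c → v ∈ A := by
        intro n
        induction n with
        | zero => intro v hv; exact (show v = c from hv) ▸ hc
        | succ n ih => intro v hv; exact h4 v (ih _ hv)
      intro v hv
      obtain ⟨n, hn⟩ := (mem_filter.1 hv).2
      exact this n v hn
    have c1 := card_sdiff_add_card_eq_card d4
    have c2 := card_pos.2 ⟨c, d1⟩
    have c3 := card_erase_add_one d1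
    have g1 : Hang z (A \ D) := by
      refine ⟨fun h => h1 (mem_sdiff.1 h).1, fun h => h2 (mem_sdiff.1 h).1, fun v hv => ?_,
        fun v hv => ?_⟩
      · rcases h3 v (mem_sdiff.1 hv).1 with h | h
        · exact Or.inl (mem_sdiff.2 ⟨h, fun h' => (mem_sdiff.1 hv).2 (d3 v h')⟩)
        · exact Or.inr h
      · refine mem_sdiff.2 ⟨h4 v (mem_sdiff.1 hv).1, fun h => ?_⟩
        by_cases e : v = c
        · exact hpc (e ▸ (mem_sdiff.1 hv).1)
        · exact (mem_sdiff.1 hv).2 (d2 v h e)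
    have g2 : Hang z D := by
      refine ⟨fun h => h1 (d4 h), fun h => h2 (d4 h), fun v hv => ?_, d3⟩
      by_cases e : v = c
      · exact Or.inr (e ▸ (h3 c hc).resolve_left hpc)
      · exact Or.inl (d2 v hv e)
    have g3 : Hang c (D.erase c) := by
      refine ⟨notMem_erase _ _, fun h => h2 (d4 (mem_of_mem_erase h)), fun v hv => ?_,
        fun v hv => ?_⟩
      · by_cases e : par v = c
        · exact Or.inr e
        · exact Or.inl (mem_erase.2 ⟨e, d2 v (mem_of_mem_erase hv) (ne_of_mem_erase hv)⟩)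
      · exact mem_erase.2 ⟨fun e => hpc (e ▸ d4 (mem_of_mem_erase hv)), d3 v (mem_of_mem_erase hv)⟩
    have k1 := hmin _ _ g1
    have k2 := hmin _ _ g2
    have k3 := hmin _ _ g3
    omega

section main

variable [Fintype α] [Fintype β] [Fintype V] [Nonempty V] (G : SimpleGraph V)
  {H : SimpleGraph α} {H' : SimpleGraph β} (hT : Tr H) (hT' : Tr H') (b q t : ℕ) (hb : 2 ≤ b)
  (hn : Fintype.card V = b + 1 + q + t) (hdeg : ∀ x, b + q ≤ dg G univ x)
  (hα : Fintype.card α = b + 1 + q) (hβ : Fintype.card β = b)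

include hT hT' hb hn hdeg hα hβ

theorem three_core (S : Finset α) (hS : Conn H S) (y a : α) (hyS : y ∉ S) (_haS : a ∈ S)
    (hSy : Conn H (insert y S)) (S' : Finset β) (hS' : Conn H' S') (φ1 : α → V) (φ0 : β → V)
    (E1 : Emb H G (insert y S) φ1) (E0 : Emb H' (fr G (img H (insert y S) φ1)) S' φ0)
    (h1 : ∀ v ∈ S', φ0 v ≠ φ1 y ∧ φ0 v ≠ φ1 a)
    (h2 : ∀ s ∈ S, s ≠ a → ∃ v ∈ S', φ0 v = φ1 s ∧
      (dg H' univ v ≤ 1 ∨ ∃ u ∈ S', H'.Adj v u ∧ φ0 u ∈ S.image φ1))
    (h3 : (univ.filter (fun v => v ∉ S' ∨ φ0 v ∉ S.image φ1)).card + S.card ≤ b + 1)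
    {l c : β} (hl : l ∉ S') (hL : LfAt H' univ l c) (hc : c ∈ S' → φ0 c ∉ S.image φ1)
    (ρ : α → ℕ) (hρ : ∀ u ∈ S, ∀ v ∈ S, ρ u = ρ v → u = v)
    (hdef : ∀ (φ : α → V) (φ' : β → V), Emb H G univ φ → Emb H' G univ φ' →
      (∀ s ∈ S, φ s = φ1 s) → (∀ v ∈ S', φ' v = φ0 v) →
      ∑ v ∈ S, (2 - (S.filter (fun u => ρ u < ρ v ∧
        (un (img H univ φ) (img H' univ φ')).Adj (φ v) (φ u))).card) ≤ 3)
    (hj1 : b + 1 < S.card + 3 * t) (hj2 : q = 0 ∨ b + 1 ≤ S.card + t)
    (p : α → α) (hp : ∀ l, dg H univ l = 1 → LfAt H univ l (p l))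
    (B : Finset α) (hB : ∀ l ∈ B, l ∉ insert y S ∧ dg H univ l = 1)
    (hBL : (univ.filter (fun v => dg H' univ v = 1)).card + 1 ≤ B.card)
    (hmode : ((∃ l1 l2, l1 ≠ l2 ∧ l1 ∈ B ∧ l2 ∈ B ∧ p l1 = y ∧ p l2 = y) ∧
        ∀ v, v ≠ y → (B.filter (fun l => p l = v)).card ≤ 2) ∨
      ((∃ l ∈ B, p l = y) ∧ (univ.filter (fun v => dg H' univ v = 1)).card + 2 ≤ B.card + q ∧
        ∀ l ∈ B, ∀ l' ∈ B, p l = p l' → l = l')) : Goal G H H' b q := by
  obtain ⟨φ', E', a', y', z'⟩ := finish_early G (img H (insert y S) φ1) hT' (b + q) hdeg (by omega)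
    (φ1 y) (φ1 a) S' hS' φ0 E0 h1
    (by
      rintro x x' ⟨_, _, _, v, hv, _, _, rfl⟩
      rcases mem_insert.1 hv with rfl | hv
      · simp
      by_cases e : v = a
      · simp [e]
      obtain ⟨w, hw, e', _⟩ := h2 v hv e
      exact mem_union_right _ (mem_image.2 ⟨w, hw, e'⟩))
    hl hL
    (by
      rintro hcS x' ⟨_, v, hv, _, _, _, e, _⟩
      rcases mem_insert.1 hv with rfl | hv
      · exact (h1 c hcS).1 e.symm
      · exact hc hcS (mem_image.2 ⟨v, hv, e⟩))
  have hsub : ∀ x, x ∉ S.image φ1 → x ∈ univ.image φ' →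
      x ∈ (univ.filter (fun v => v ∉ S' ∨ φ0 v ∉ S.image φ1)).image φ' := by
    intro x hx hx'
    obtain ⟨v, _, rfl⟩ := mem_image.1 hx'
    refine mem_image_of_mem _ (mem_filter.2 ⟨mem_univ _, ?_⟩)
    by_cases h : v ∈ S'
    · exact Or.inr (a' v h ▸ hx)
    · exact Or.inl h
  have cim := card_image_le (f := φ') (s := univ.filter (fun v => v ∉ S' ∨ φ0 v ∉ S.image φ1))
  have dy : dg (img H' univ φ') univ (φ1 y) = 0 := dg_img_zero _ (fun h => by
    obtain ⟨v, _, e⟩ := mem_image.1 h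
    exact y' v e)
  obtain ⟨φ, E, e⟩ := finish_first G (img H' univ φ') (b + q)
    (univ.filter (fun v => dg H' univ v = 1)).card q hdeg (by omega)
    (by
      rw [E'.sum_img (fun n => n - 2) rfl]
      exact ((conn_univ hT' c).leaves hT' (by rw [card_univ]; omega)).le)
    hT (insert y S) hSy φ1 (E'.swap E1) y (mem_insert_self _ _) dy
    (by
      intro v hv
      rcases mem_insert.1 hv with rfl | hv
      · left; omega
      by_cases e : v = a
      · left
        by_cases h : φ1 v ∈ univ.image φ'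
        · obtain ⟨w, _, e'⟩ := mem_image.1 h
          have : w = l := by by_contra hn; exact z' w hn (e ▸ e')
          rw [← e', E'.dg_img_univ (mem_univ _), this, hL.dg]
        · rw [dg_img_zero _ h]; omega
      obtain ⟨w, hw, e', h⟩ := h2 v hv e
      rw [← e', ← a' w hw]
      rcases h with h | ⟨u, hu, huw, h⟩
      · left; rw [E'.dg_img_univ (mem_univ _)]; exact h
      · right
        obtain ⟨s, hs, e2⟩ := mem_image.1 h
        refine ⟨s, mem_insert_of_mem hs, ?_⟩
        rw [e2, ← a' u hu]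
        exact E'.img_adj (mem_univ _) (mem_univ _) huw)
    (by
      have : (univ \ (insert y S).image φ1).filter (fun x => 1 ≤ dg (img H' univ φ') univ x)
          ⊆ (univ.filter (fun v => v ∉ S' ∨ φ0 v ∉ S.image φ1)).image φ' := by
        intro x hx
        obtain ⟨b1, b2⟩ := mem_filter.1 hx
        refine hsub x (fun h => (mem_sdiff.1 b1).2
          (image_subset_image (subset_insert _ _) h)) ?_
        by_contra hn
        rw [dg_img_zero _ hn] at b2
        omega
      have a1 := card_le_card this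
      rw [card_insert_of_notMem hyS]
      omega)
    (img_forest hT' E'.of_fr) p hp B hB hBL hmode
  obtain ⟨Tm, hTm, t1, _, t3⟩ := hS.grow hT (conn_univ hT a) (subset_univ _) (b + 1) (by omega)
    (by rw [card_univ]; omega)
  refine fin_lemma G hT hT' b q t 3 hb hn hdeg hα hβ E.of_fr (E.swap E'.of_fr) Tm hTm t3 ?_ S t1
    ρ hρ (hdef φ φ' E.of_fr E'.of_fr (fun s hs => e s (mem_insert_of_mem hs)) a') (by omega)
    (by omega)
  rcases hj2 with h | h
  · have := card_le_univ (Tm.image φ ∪ univ.image φ')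
    omega
  · have : Tm.image φ ∪ univ.image φ' ⊆ Tm.image φ ∪
        (univ.filter (fun v => v ∉ S' ∨ φ0 v ∉ S.image φ1)).image φ' := by
      intro x hx
      by_cases h' : x ∈ Tm.image φ
      · exact mem_union_left _ h'
      · refine mem_union_right _ (hsub x (fun h => h' ?_) ((mem_union.1 hx).resolve_left h'))
        obtain ⟨s, hs, rfl⟩ := mem_image.1 h
        exact mem_image.2 ⟨s, t1 hs, e s (mem_insert_of_mem hs)⟩
    have a1 := card_le_card this
    have a2 := card_union_le (Tm.image φ)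
      ((univ.filter (fun v => v ∉ S' ∨ φ0 v ∉ S.image φ1)).image φ')
    have a3 : (Tm.image φ).card ≤ Tm.card := card_image_le
    omega

theorem case_three (hL1 : (univ.filter (fun v => dg H' univ v = 1)).card + 1 ≤ t)
    (hL2 : (univ.filter (fun v => dg H' univ v = 1)).card
      ≤ (univ.filter (fun v => 3 ≤ dg H univ v)).card)
    (p : α → α) (hp : ∀ l, dg H univ l = 1 → LfAt H univ l (p l)) {y py : α}
    (hy : LfAt H (univ.filter (fun v => dg H univ v ≠ 1)) y py)
    (hmax : ∀ v u, LfAt H (univ.filter (fun v => dg H univ v ≠ 1)) v u →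
      (univ.filter (fun l => dg H univ l = 1 ∧ p l = v)).card
        ≤ (univ.filter (fun l => dg H univ l = 1 ∧ p l = y)).card)
    (hm : (univ.filter (fun l => dg H univ l = 1 ∧ p l = y)).card ≤ t) : Goal G H H' b q := by
  set L := (univ.filter (fun v => dg H' univ v = 1)).card with hLdef
  set m := (univ.filter (fun l => dg H univ l = 1 ∧ p l = y)).card with hmdef
  obtain ⟨r0⟩ : Nonempty β := Fintype.card_pos_iff.1 (by omega)
  have hL0 : 2 ≤ L := by
    have := (conn_univ hT' r0).leaves hT' (by rw [card_univ]; omega)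
    omega
  have hm1 : 1 ≤ m := by
    have a1 := dg_split p hp y
    have a2 := hy.dg
    have a3 := (mem_filter.1 hy.mem).2
    omega
  obtain ⟨B0, b1, b2, b3, b4⟩ := exists_spread hT p hp hy (if 2 ≤ m then 2 else 1) (by
    split_ifs with h
    · exact Or.inl rfl
    · exact Or.inr ⟨rfl, fun v u h' => by have := hmax v u h'; omega⟩)
  obtain ⟨B, c1, c2, c3⟩ := exists_subsuperset_card_eq
    (n := max m (L + 1 + if q = 0 then 1 else 0)) b2 (le_max_left _ _)
    (max_le (card_le_card b2) (by split_ifs <;> omega))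
  have c4 : L + 1 + (if q = 0 then 1 else 0) ≤ B.card := c3 ▸ le_max_right _ _
  have c5 : B.card ≤ t + (if q = 0 then 1 else 0) := c3 ▸ max_le (by omega) (by omega)
  have hyB : y ∉ B := fun h => (mem_filter.1 hy.mem).2 (b1 y (c2 h))
  have hpyB : py ∉ B := fun h => (mem_filter.1 hy.mem').2 (b1 py (c2 h))
  have hA0 : Conn H ((univ \ B).erase y) := by
    obtain ⟨par, d, R⟩ := hT py
    refine conn_of_closed R (mem_erase.2 ⟨hy.adj.ne.symm, mem_sdiff.2 ⟨mem_univ _, hpyB⟩⟩)
      (fun v hv hvr => mem_erase.2 ⟨fun e => ?_, mem_sdiff.2 ⟨mem_univ _, fun h => ?_⟩⟩)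
    · have a1 : H.Adj y v := e ▸ (R.adj_par hvr).symm
      have a2 : dg H univ v = 1 := by
        by_contra h; exact hvr (hy.only v (mem_filter.2 ⟨mem_univ _, h⟩) a1)
      exact (mem_sdiff.1 (mem_of_mem_erase hv)).2 (c1 (mem_filter.2 ⟨mem_univ _, a2,
        ((hp v a2).only y (mem_univ _) a1.symm).symm⟩))
    · have a1 := R.two_le_dg (fun e => hpyB (e ▸ h)) hvr rfl
      have a2 := b1 _ (c2 h)
      omega
  have cA0 : ((univ \ B).erase y).card + 1 + B.card = b + 1 + q := by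
    rw [card_erase_add_one (mem_sdiff.2 ⟨mem_univ _, hyB⟩),
      card_sdiff_add_card_eq_card (subset_univ _), card_univ, hα]
  have mA0 : py ∈ (univ \ B).erase y :=
    mem_erase.2 ⟨hy.adj.ne.symm, mem_sdiff.2 ⟨mem_univ _, hpyB⟩⟩
  have hmode : ((∃ l1 l2, l1 ≠ l2 ∧ l1 ∈ B ∧ l2 ∈ B ∧ p l1 = y ∧ p l2 = y) ∧
        ∀ v, v ≠ y → (B.filter (fun l => p l = v)).card ≤ 2) ∨
      ((∃ l ∈ B, p l = y) ∧ L + 2 ≤ B.card + q ∧ ∀ l ∈ B, ∀ l' ∈ B, p l = p l' → l = l') := by
    have g : ∀ v, v ≠ y → (B.filter (fun l => p l = v)).card ≤ if 2 ≤ m then 2 else 1 :=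
      fun v hv => (card_le_card (filter_subset_filter _ c2)).trans (b3 v hv)
    by_cases h : 2 ≤ m
    · left
      obtain ⟨l1, h1, l2, h2, hne⟩ := one_lt_card.1 h
      refine ⟨⟨l1, l2, hne, c1 h1, c1 h2, (mem_filter.1 h1).2.2, (mem_filter.1 h2).2.2⟩,
        fun v hv => ?_⟩
      have := g v hv
      rwa [if_pos h] at this
    · right
      obtain ⟨l1, h1⟩ := card_pos.1 hm1
      refine ⟨⟨l1, c1 h1, (mem_filter.1 h1).2.2⟩, by split_ifs at c4 <;> omega,
        fun l hl l' hl' e => ?_⟩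
      by_cases h' : p l' = y
      · exact card_le_one.1 (by omega : m ≤ 1) l
          (mem_filter.2 ⟨mem_univ _, b1 l (c2 hl), e.trans h'⟩) l'
          (mem_filter.2 ⟨mem_univ _, b1 l' (c2 hl'), h'⟩)
      · have := g _ h'
        rw [if_neg h] at this
        exact card_le_one.1 this l (mem_filter.2 ⟨hl, e⟩) l' (mem_filter.2 ⟨hl', rfl⟩)
  obtain ⟨l0, c0, _, hL0'⟩ := (conn_univ hT' r0).exists_leaf hT' (mem_univ r0)
    (by rw [card_univ]; omega)
  by_cases hsmall : (q = 0 ∧ b + 1 ≤ t + 3) ∨ (q ≠ 0 ∧ b ≤ t)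
  · obtain ⟨x0⟩ := (inferInstance : Nonempty V)
    have hSy : Conn H (insert y {py}) :=
      Conn.add _ py y (Conn.single py) (mem_singleton_self _) hy.adj.symm
    obtain ⟨φ1, E1, _⟩ := greedy G ⊥ (b + q) hdeg (by omega) hT (Conn.single py)
      hSy (subset_insert _ _) (emb_single _ py (fun _ => x0)) (fun _ _ h => h.elim)
    obtain ⟨x, _, hx⟩ : ∃ x ∈ (univ : Finset V), x ∉ ({φ1 y, φ1 py} : Finset V) :=
      exists_mem_notMem_of_card_lt_card (by
        have := card_le_two (a := φ1 y) (b := φ1 py)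
        rw [card_univ]; omega)
    simp only [mem_insert, mem_singleton, not_or] at hx
    refine three_core G hT hT' b q t hb hn hdeg hα hβ {py} (Conn.single py) y py
      (by simpa using hy.adj.ne) (mem_singleton_self _) hSy {c0} (Conn.single c0) φ1 (fun _ => x)
      E1.of_fr (emb_single _ _ _) (fun _ _ => hx) (fun s hs h => absurd (mem_singleton.1 hs) h)
      (by
        have := card_le_univ (univ.filter (fun v : β => v ∉ ({c0} : Finset β) ∨
          x ∉ ({py} : Finset α).image φ1))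
        rw [card_singleton]; omega)
      (by simpa using hL0'.adj.ne) hL0' (fun _ => by simpa using hx.2) (fun _ => 0)
      (fun u hu v hv _ => by rw [mem_singleton.1 hu, mem_singleton.1 hv])
      (fun _ _ _ _ _ _ => by rw [sum_singleton]; omega)
      (by rw [card_singleton]; omega) (by rw [card_singleton]; omega) p hp B
      (fun l hl => ⟨?_, b1 l (c2 hl)⟩) (by omega) hmode
    simp only [mem_insert, mem_singleton, not_or]
    exact ⟨fun e => hyB (e ▸ hl), fun e => hpyB (e ▸ hl)⟩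
  obtain ⟨j, j1, j2, j3, j4, j5, j6⟩ : ∃ j, 2 ≤ j ∧ j + t ≤ b + 1 + q ∧
      j + 1 + B.card ≤ b + 1 + q ∧ b + 1 < j + 3 * t ∧ (q = 0 ∨ b + 1 ≤ j + t) ∧
      j + L ≤ b := by
    by_cases h : q = 0
    · refine ⟨b + 1 - t - 2, ?_⟩
      rw [if_pos h] at c5; omega
    · refine ⟨b + 1 - t, ?_⟩
      rw [if_neg h] at c5; omega
  obtain ⟨S, hS, s1, s2, s3⟩ := (Conn.single py).grow hT hA0 (singleton_subset_iff.2 mA0) j
    (by rw [card_singleton]; omega) (by omega)
  have hpS := s1 (mem_singleton_self py)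
  have hyS : y ∉ S := fun h => notMem_erase _ _ (s2 h)
  have hSy : Conn H (insert y S) := Conn.add _ py y hS hpS hy.adj.symm
  obtain ⟨S', hS', u1, _, u3⟩ := (Conn.single l0).grow hT' (conn_univ hT' r0) (subset_univ _)
    (j - 1) (by rw [card_singleton]; omega) (by rw [card_univ]; omega)
  have hl0 := u1 (mem_singleton_self l0)
  obtain ⟨y', a, _, hL⟩ := hS.exists_leaf hT hpS (by omega)
  obtain ⟨par, d, R⟩ := hT a
  have hcl := hS.closed R hL.mem'
  have hya : y' ≠ a := hL.adj.ne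
  obtain ⟨σ, ρ, r', A⟩ := (al_main (par := par) (d := d) (a := a) (y := y') hT' _ S S' rfl
    ⟨hL.mem', fun v hv hva => ⟨hcl v hv, R.lt v hva⟩, ⟨hL.mem, hya, hL.no_child R hcl hya⟩,
      hL.par_eq R hcl hya, hS', by omega⟩).1
  obtain ⟨φ0, E0, E0'⟩ := base_emb G (b + q) hdeg R hcl A (by omega)
  obtain ⟨φ1, E1, e⟩ := greedy G (img H' S' (fun v => φ0 (σ v))) (b + q) hdeg (by omega) hT hS
    hSy (subset_insert _ _) (E0'.swap E0) (by
      rintro x x' ⟨_, u, _, v, hv, _, _, rfl⟩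
      exact mem_image_of_mem _ (A.maps v hv).1)
  have hsurj : S'.image σ = S \ {a} := by
    refine eq_of_subset_of_card_le (fun v hv => ?_) ?_
    · obtain ⟨w, hw, rfl⟩ := mem_image.1 hv
      exact mem_sdiff.2 (A.maps w hw)
    · rw [card_image_of_injOn (fun u hu v hv e => A.inj u hu v hv e),
        card_sdiff_of_subset (singleton_subset_iff.2 hL.mem'), card_singleton]
      omega
  have him : ∀ v ∈ S', φ0 (σ v) ∈ S.image φ1 :=
    fun v hv => mem_image.2 ⟨σ v, (A.maps v hv).1, e _ (A.maps v hv).1⟩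
  obtain ⟨l, c, hl, hc, hLl⟩ : ∃ l c, l ∉ S' ∧ c ∉ S' ∧ LfAt H' univ l c := by
    obtain ⟨par', d', R'⟩ := hT' l0
    have cl' := hS'.closed R' hl0
    obtain ⟨v, hv, hv'⟩ : ∃ v ∈ univ \ S', v ∉ univ.filter (fun v => dg H' univ v = 1) :=
      exists_mem_notMem_of_card_lt_card (by
        rw [card_sdiff_of_subset (subset_univ _), card_univ]; omega)
    have a1 := (conn_univ hT' r0).dg_pos hT' (by rw [card_univ]; omega) (mem_univ v)
    simp only [mem_filter, mem_univ, true_and] at hv'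
    obtain ⟨c', _, g2⟩ := R'.exists_child (v := v) (by omega)
    obtain ⟨w, hw, hmx⟩ := exists_max_image (univ.filter (fun w => w ∉ S' ∧ par' w ∉ S')) d'
      ⟨c', mem_filter.2 ⟨mem_univ _, fun h => (mem_sdiff.1 hv).2 (g2 ▸ cl' c' h),
        g2 ▸ (mem_sdiff.1 hv).2⟩⟩
    obtain ⟨_, w1, w2⟩ := mem_filter.1 hw
    refine ⟨w, par' w, w1, w2, lfAt_of_no_child R' (mem_univ _) (mem_univ _)
      (fun e => w1 (e ▸ hl0)) (fun u _ hu e => ?_)⟩
    have b1 := hmx u (mem_filter.2 ⟨mem_univ _, fun h => w1 (e ▸ cl' u h), e ▸ w1⟩)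
    have b2 := R'.lt u hu
    rw [e] at b2
    omega
  refine three_core G hT hT' b q t hb hn hdeg hα hβ S hS y a hyS hL.mem' hSy S' hS' φ1
    (fun v => φ0 (σ v)) E1.of_fr (E1.swap E0'.of_fr) (fun v hv => ?_) (fun s hs hsa => ?_) ?_
    hl hLl (fun h => absurd h hc) ρ A.rinj (fun φ φ' E E' e1 e2 => ?_) (by omega) (by omega)
    p hp B (fun l hl => ⟨?_, b1 l (c2 hl)⟩) (by omega) hmode
  · rw [← e _ (A.maps v hv).1]
    constructor
    · intro h
      exact hyS (E1.inj _ (mem_insert_of_mem (A.maps v hv).1) _ (mem_insert_self _ _) h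
        ▸ (A.maps v hv).1)
    · intro h
      exact (A.maps v hv).2 (mem_singleton.2 (E1.inj _ (mem_insert_of_mem (A.maps v hv).1) _
        (mem_insert_of_mem hL.mem') h))
  · obtain ⟨v, hv, rfl⟩ := mem_image.1
      (hsurj ▸ mem_sdiff.2 ⟨hs, by simpa using hsa⟩ : s ∈ S'.image σ)
    refine ⟨v, hv, (e _ hs).symm, ?_⟩
    by_cases h : 2 ≤ S'.card
    · obtain ⟨u, hu⟩ := card_pos.1 (hS'.dg_pos hT' h hv)
      exact Or.inr ⟨u, (mem_filter.1 hu).1, (mem_filter.1 hu).2, him u (mem_filter.1 hu).1⟩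
    · left
      rw [card_le_one.1 (by omega : S'.card ≤ 1) v hv l0 hl0, hL0'.dg]
  · have : univ.filter (fun v => v ∉ S' ∨ φ0 (σ v) ∉ S.image φ1) ⊆ univ \ S' := by
      intro v hv
      exact mem_sdiff.2 ⟨mem_univ _, fun h => (mem_filter.1 hv).2.elim (fun h' => h' h)
        (fun h' => h' (him v h))⟩
    have a1 := card_le_card this
    rw [card_sdiff_of_subset (subset_univ _), card_univ] at a1
    omega
  · exact aligned_def G R hcl A (singleton_subset_iff.2 hL.mem') (mem_singleton_self _)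
      (by rw [card_singleton]; omega) E E'
      (fun v hv => by rw [e2 v hv, e1 _ (A.maps v hv).1, e _ (A.maps v hv).1])
  · intro h
    rcases mem_insert.1 h with h | h
    · exact hyB (h ▸ hl)
    · exact (mem_sdiff.1 (mem_of_mem_erase (s2 h))).2 hl

end main

end Pool.Agent.Lib.MP_2b1ae8_co.TN
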