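import Mathlib
import Pool.Agent.Lib.MP_2b1ae8_co.TNThree

set_option autoImplicit false

namespace Pool.Agent.Lib.MP_2b1ae8_co.TN

open Finset
open scoped Classical

variable {α β V : Type}

theorem two_trees [Fintype α] [Fintype β] [Fintype V] [Nonempty V] (G : SimpleGraph V)
    {H : SimpleGraph α} {H' : SimpleGraph β} (hT : Tr H) (hT' : Tr H') (b q t : ℕ) (hb : 2 ≤ b)
    (hn : Fintype.card V = b + 1 + q + t) (hdeg : ∀ x, b + q ≤ dg G univ x)
    (hα : Fintype.card α = b + 1 + q) (hβ : Fintype.card β = b)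
    (hns : ∀ u, ¬ ∀ w, w ≠ u → H.Adj u w) (hns' : b = 2 ∨ ∀ u, ¬ ∀ w, w ≠ u → H'.Adj u w) :
    Goal G H H' b q := by
  obtain ⟨r⟩ : Nonempty α := Fintype.card_pos_iff.1 (by omega)
  obtain ⟨r0⟩ : Nonempty β := Fintype.card_pos_iff.1 (by omega)
  obtain ⟨Tm, hTm, _, _, t3⟩ := (Conn.single r).grow hT (conn_univ hT r) (subset_univ _) (b + 1)
    (by simp) (by rw [card_univ]; omega)
  rcases hns' with hb2 | hns'
  · obtain ⟨l, c, _, hL⟩ := (conn_univ hT' r0).exists_leaf hT' (mem_univ r0)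
      (by rw [card_univ]; omega)
    refine case_one G hT hT' b q t hb hn hdeg hα hβ (by omega) Tm hTm t3 hL
      (Or.inl (fun v hv => ?_))
    by_cases e : v = l
    · rw [e]; exact hL.dg
    · have := three_le (S := univ) (mem_univ v) (mem_univ c) (mem_univ l) hv e hL.adj.ne.symm
      rw [card_univ] at this
      omega
  by_cases hq : t ≤ q
  · exact case_zero G hT hT' b q t hb hn hdeg hα hβ hq
  obtain ⟨l1, c1, l2, c2, L1, L2, n12, d1, d2⟩ := nonstar_leaves hT' hns' r0
  have hb4 : 4 ≤ b := by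
    have := four_le (S := univ) (mem_univ l1) (mem_univ l2) (mem_univ c1) (mem_univ c2)
      (fun e => n12 (L2.only c1 (mem_univ _) (e ▸ L1.adj))) L1.adj.ne
      (fun e => d2 (e ▸ L1.dg)) (fun e => d1 (e ▸ L2.dg)) L2.adj.ne n12
    rw [card_univ] at this
    omega
  have hL0 : 2 ≤ (univ.filter (fun v => dg H' univ v = 1)).card := by
    have := (conn_univ hT' r0).leaves hT' (by rw [card_univ]; omega)
    omega
  have final : (univ.filter (fun v => dg H' univ v = 1)).card + 1 ≤ t →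
      (univ.filter (fun v => dg H' univ v = 1)).card
        ≤ (univ.filter (fun v => 3 ≤ dg H univ v)).card → Goal G H H' b q := by
    intro h1 h2
    have : ∀ l, ∃ u, dg H univ l = 1 → LfAt H univ l u := by
      intro l
      by_cases h : dg H univ l = 1
      · obtain ⟨u, hu⟩ := lfAt_of_dg (mem_univ l) h
        exact ⟨u, fun _ => hu⟩
      · exact ⟨l, fun h' => absurd h' h⟩
    choose p hp using this
    obtain ⟨_, e1, _, e2, _, _, m12, f1, f2⟩ := nonstar_leaves hT hns r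
    have cI := conn_inner hT f1
    obtain ⟨y0, u0, _, hy0⟩ := cI.exists_leaf hT (mem_filter.2 ⟨mem_univ _, f1⟩)
      (one_lt_card.2 ⟨e1, mem_filter.2 ⟨mem_univ _, f1⟩, e2, mem_filter.2 ⟨mem_univ _, f2⟩, m12⟩)
    obtain ⟨y, hy, hmax⟩ := exists_max_image
      (univ.filter (fun v => ∃ u, LfAt H (univ.filter (fun v => dg H univ v ≠ 1)) v u))
      (fun v => (univ.filter (fun l => dg H univ l = 1 ∧ p l = v)).card)
      ⟨y0, mem_filter.2 ⟨mem_univ _, u0, hy0⟩⟩
    obtain ⟨py, hy⟩ := (mem_filter.1 hy).2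
    by_cases hm : (univ.filter (fun l => dg H univ l = 1 ∧ p l = y)).card ≤ t
    · exact case_three G hT hT' b q t hb hn hdeg hα hβ h1 h2 p hp hy
        (fun v u h => hmax v (mem_filter.2 ⟨mem_univ _, u, h⟩)) hm
    obtain ⟨R0, r1, r2⟩ := exists_subset_card_eq
      (s := univ.filter (fun l => dg H univ l = 1 ∧ p l = y)) (n := t) (by omega)
    have hyR : y ∉ R0 := fun h => (mem_filter.1 hy.mem).2 (mem_filter.1 (r1 h)).2.1
    have hS : Conn H (univ \ R0) := by
      obtain ⟨par, d, R⟩ := hT y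
      refine conn_of_closed R (mem_sdiff.2 ⟨mem_univ _, hyR⟩)
        (fun v _ hvr => mem_sdiff.2 ⟨mem_univ _, fun h => ?_⟩)
      have a1 := R.two_le_dg (fun e => hyR (e ▸ h)) hvr rfl
      have a2 := (mem_filter.1 (r1 h)).2.1
      omega
    have hcut : ∀ u, u ∉ R0 → ∀ v ∈ R0, H.Adj u v → u = y := fun u _ v hv huv =>
      ((hp v (mem_filter.1 (r1 hv)).2.1).only u (mem_univ _) huv.symm).trans
        (mem_filter.1 (r1 hv)).2.2
    refine case_two G hT hT' b q t hb hn hdeg hα hβ (by omega) hns' y R0 hyR hS hcut r2.ge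
      (Or.inl r2.le) ?_ ?_
    · obtain ⟨v, hv, hvy⟩ := exists_mem_ne
        (by omega : 1 < (univ.filter (fun v => 3 ≤ dg H univ v)).card) y
      have a1 := (mem_filter.1 hv).2
      have a2 : v ∉ R0 := fun h => by have := (mem_filter.1 (r1 h)).2.1; omega
      have a3 : dg H univ v ≤ dg H (univ \ R0) v := card_le_card (fun w hw =>
        mem_filter.2 ⟨mem_sdiff.2 ⟨mem_univ _, fun h => hvy (hcut v a2 w h (mem_filter.1 hw).2)⟩,
          (mem_filter.1 hw).2⟩)
      have a4 := hS.branch hT (one_lt_card.2 ⟨v, mem_sdiff.2 ⟨mem_univ _, a2⟩, y,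
        mem_sdiff.2 ⟨mem_univ _, hyR⟩, hvy⟩)
      have a5 : 0 < ((univ \ R0).filter (fun v => 3 ≤ dg H (univ \ R0) v)).card :=
        card_pos.2 ⟨v, mem_filter.2 ⟨mem_sdiff.2 ⟨mem_univ _, a2⟩, by omega⟩⟩
      have a6 := card_sdiff_add_card_eq_card (subset_univ R0)
      rw [card_univ] at a6
      omega
    · have : R0.filter (fun v => 3 ≤ dg H univ v) = ∅ := by
        rw [filter_eq_empty_iff]
        intro v hv
        have := (mem_filter.1 (r1 hv)).2.1
        omega
      rw [this, card_empty]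
      split_ifs <;> omega
  by_cases hk : b ≤ 2 * t
  · by_cases h : (Tm.filter (fun v => 3 ≤ dg H Tm v)).card + 1
        ≤ (univ.filter (fun v => dg H' univ v = 1)).card
    · exact case_one G hT hT' b q t hb hn hdeg hα hβ (by omega) Tm hTm t3 L1 (Or.inr ⟨d1, h⟩)
    · have a1 := hTm.branch hT (by omega)
      have a2 : (Tm.filter (fun v => 3 ≤ dg H Tm v)).card
          ≤ (univ.filter (fun v => 3 ≤ dg H univ v)).card :=
        card_le_card (fun v hv => mem_filter.2 ⟨mem_univ _,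
          (mem_filter.1 hv).2.trans (dg_mono H (subset_univ _) v)⟩)
      exact final (by omega) (by omega)
  obtain ⟨z, R0, z1, z2, z3, z4, z5, z6⟩ := exists_cut hT t (by omega)
  by_cases h : (R0.filter (fun v => 3 ≤ dg H univ v)).card + (if 2 ≤ dg H R0 z then 1 else 0) + 1
      ≤ (univ.filter (fun v => dg H' univ v = 1)).card
  · exact case_two G hT hT' b q t hb hn hdeg hα hβ (by omega) hns' z R0 z1 z2 z4 z5 z6
      (by omega) h
  have a6 := card_sdiff_add_card_eq_card (subset_univ R0)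
  rw [card_univ] at a6
  obtain ⟨u, hu⟩ := card_pos.1 (z2.dg_pos hT (by omega) (mem_sdiff.2 ⟨mem_univ _, z1⟩))
  obtain ⟨u1, u2⟩ := mem_filter.1 hu
  have u3 : u ∉ insert z R0 := by
    simp only [mem_insert, not_or]; exact ⟨u2.ne.symm, (mem_sdiff.1 u1).2⟩
  have hA := Conn.add _ z u z3 (mem_insert_self _ _) u2
  have cA : (insert u (insert z R0)).card = R0.card + 2 := by
    rw [card_insert_of_notMem u3, card_insert_of_notMem z1]
  have a1 := hA.branch hT (by omega)
  have a2 : ((insert u (insert z R0)).filter (fun v => 3 ≤ dg H (insert u (insert z R0)) v)).card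
      ≤ (univ.filter (fun v => 3 ≤ dg H univ v)).card :=
    card_le_card (fun v hv => mem_filter.2 ⟨mem_univ _,
      (mem_filter.1 hv).2.trans (dg_mono H (subset_univ _) v)⟩)
  have a3 : R0.filter (fun v => 3 ≤ dg H univ v) ⊆
      ((insert u (insert z R0)).filter (fun v => 3 ≤ dg H (insert u (insert z R0)) v)).erase z := by
    intro v hv
    obtain ⟨b1, b2⟩ := mem_filter.1 hv
    refine mem_erase.2 ⟨fun e => z1 (e ▸ b1), mem_filter.2
      ⟨mem_insert_of_mem (mem_insert_of_mem b1), b2.trans (card_le_card (fun w hw => ?_))⟩⟩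
    refine mem_filter.2 ⟨mem_insert_of_mem ?_, (mem_filter.1 hw).2⟩
    by_cases hw' : w ∈ R0
    · exact mem_insert_of_mem hw'
    · rw [z4 w hw' v b1 (mem_filter.1 hw).2.symm]; exact mem_insert_self _ _
  have a4 := card_le_card a3
  have a5 : (R0.filter (fun v => 3 ≤ dg H univ v)).card + (if 2 ≤ dg H R0 z then 1 else 0) ≤
      ((insert u (insert z R0)).filter (fun v => 3 ≤ dg H (insert u (insert z R0)) v)).card := by
    split_ifs with h2
    · have : z ∈ (insert u (insert z R0)).filter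
          (fun v => 3 ≤ dg H (insert u (insert z R0)) v) := by
        refine mem_filter.2 ⟨mem_insert_of_mem (mem_insert_self _ _), ?_⟩
        rw [dg_insert H u3, dg_insert_self, if_pos u2]; omega
      have := card_erase_add_one this
      omega
    · exact a4.trans card_erase_le
  exact final (by omega) (by omega)

theorem star_emb [Fintype α] {H : SimpleGraph α} (hT : Tr H) {c : α} (hc : ∀ v, v ≠ c → H.Adj c v)
    (G : SimpleGraph V) (x : V) (N : Finset V) (hN : N.card + 1 = Fintype.card α)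
    (hx : ∀ y ∈ N, G.Adj x y) :
    ∃ g : α → V, Function.Injective g ∧ ∀ a b, H.Adj a b → G.Adj (g a) (g b) ∧
      ∃ y ∈ N, s(g a, g b) = s(x, y) := by
  obtain ⟨e⟩ : Nonempty ((univ.erase c : Finset α) ≃ N) := by
    refine ⟨Fintype.equivOfCardEq ?_⟩
    rw [Fintype.card_coe, Fintype.card_coe, card_erase_of_mem (mem_univ _), card_univ]; omega
  let g : α → V := fun v => if h : v = c then x else (e ⟨v, mem_erase.2 ⟨h, mem_univ _⟩⟩ : V)
  have g1 : g c = x := dif_pos rfl
  have g2 : ∀ v, v ≠ c → g v ∈ N := fun v hv => by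
    simp only [g, dif_neg hv]; exact (e _).2
  refine ⟨g, fun u v h => ?_, ?_⟩
  · by_cases h1 : u = c <;> by_cases h2 : v = c
    · rw [h1, h2]
    · rw [h1, g1] at h; exact absurd h (hx _ (g2 v h2)).ne
    · rw [h2, g1] at h; exact absurd h.symm (hx _ (g2 u h1)).ne
    · simp only [g, dif_neg h1, dif_neg h2] at h
      exact congrArg Subtype.val (e.injective (Subtype.ext h))
  · intro a b hab
    by_cases h1 : a = c
    · have h2 : b ≠ c := h1 ▸ hab.ne.symm
      rw [h1, g1]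
      exact ⟨hx _ (g2 b h2), g b, g2 b h2, rfl⟩
    · have h2 : b = c := (star_leaf hT (mem_univ c) (mem_univ a) h1
        (fun w _ hw => hc w hw)).only b (mem_univ _) hab
      rw [h2, g1]
      exact ⟨(hx _ (g2 a h1)).symm, g a, g2 a h1, Sym2.eq_swap⟩

theorem pack_of_sets [Nonempty V] (G : SimpleGraph V) (k : ℕ) (T : (i : ℕ) → SimpleGraph (Fin i))
    (E : ℕ → Sym2 V → Prop)
    (h1 : ∀ i, 2 ≤ i → i ≤ k → ∃ g : Fin i → V, Function.Injective g ∧
      ∀ a b, (T i).Adj a b → G.Adj (g a) (g b) ∧ E i s(g a, g b))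
    (h2 : ∀ i j, 2 ≤ i → j ≤ k → i < j → ∀ e, E i e → E j e → False) :
    ∃ f : (i : ℕ) → Fin i → V,
      (∀ i, 2 ≤ i → i ≤ k → Function.Injective (f i) ∧
          ∀ a b : Fin i, (T i).Adj a b → G.Adj (f i a) (f i b)) ∧
      (∀ i j, 2 ≤ i → i ≤ k → 2 ≤ j → j ≤ k → i ≠ j →
          ∀ (a b : Fin i) (c d : Fin j), (T i).Adj a b → (T j).Adj c d →
            s(f i a, f i b) ≠ s(f j c, f j d)) := by
  obtain ⟨x⟩ := (inferInstance : Nonempty V)
  have : ∀ i, ∃ g : Fin i → V, 2 ≤ i → i ≤ k → Function.Injective g ∧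
      ∀ a b, (T i).Adj a b → G.Adj (g a) (g b) ∧ E i s(g a, g b) := by
    intro i
    by_cases h : 2 ≤ i ∧ i ≤ k
    · obtain ⟨g, hg⟩ := h1 i h.1 h.2
      exact ⟨g, fun _ _ => hg⟩
    · exact ⟨fun _ => x, fun a b => absurd ⟨a, b⟩ h⟩
  choose f hf using this
  refine ⟨f, fun i a b => ⟨(hf i a b).1, fun u v h => ((hf i a b).2 u v h).1⟩,
    fun i j i1 i2 j1 j2 hij a b c d hab hcd e => ?_⟩
  have a1 := ((hf i i1 i2).2 a b hab).2
  have a2 := ((hf j j1 j2).2 c d hcd).2
  rw [e] at a1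
  rcases lt_or_gt_of_ne hij with h | h
  · exact h2 i j i1 j2 h _ a1 a2
  · exact h2 j i j1 i2 h _ a2 a1

theorem main : ∀ (k : ℕ) (T : (i : ℕ) → SimpleGraph (Fin i)),
    (∀ i, 2 ≤ i → i ≤ k → Tr (T i)) → ∀ a b : ℕ,
    (∀ i, 2 ≤ i → i ≤ k → i ≠ a → i ≠ b → ∃ c, ∀ v, v ≠ c → (T i).Adj c v) →
    ∀ (V : Type) [Fintype V] [Nonempty V] (G : SimpleGraph V), (∀ x, k - 1 ≤ dg G univ x) →
    ∃ f : (i : ℕ) → Fin i → V,
      (∀ i, 2 ≤ i → i ≤ k → Function.Injective (f i) ∧
          ∀ a b : Fin i, (T i).Adj a b → G.Adj (f i a) (f i b)) ∧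
      (∀ i j, 2 ≤ i → i ≤ k → 2 ≤ j → j ≤ k → i ≠ j →
          ∀ (a b : Fin i) (c d : Fin j), (T i).Adj a b → (T j).Adj c d →
            s(f i a, f i b) ≠ s(f j c, f j d)) := by
  intro k
  induction k with
  | zero =>
    intro T _ _ _ _ V _ _ G _
    exact pack_of_sets G 0 T (fun _ _ => False) (fun i h1 h2 => by omega) (fun _ _ _ _ _ _ h _ => h)
  | succ k ih =>
    intro T hT a b hs V _ _ G hdeg
    by_cases hk : k = 0
    · exact pack_of_sets G _ T (fun _ _ => False) (fun i h1 h2 => by omega)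
        (fun _ _ _ _ _ _ h _ => h)
    obtain ⟨x0⟩ := (inferInstance : Nonempty V)
    have hdeg0 := hdeg x0
    by_cases hstar : ∃ c, ∀ v, v ≠ c → (T (k + 1)).Adj c v
    · obtain ⟨c, hc⟩ := hstar
      obtain ⟨N, N1, N2⟩ := exists_subset_card_eq (s := univ.filter (G.Adj x0)) (n := k) hdeg0
      obtain ⟨x1, hx1⟩ := card_pos.1 (by omega : 0 < N.card)
      have : Nonempty {v // v ≠ x0} := ⟨⟨x1, (mem_filter.1 (N1 hx1)).2.ne.symm⟩⟩
      obtain ⟨f, f1, f2⟩ := ih T (fun i h1 h2 => hT i h1 (by omega)) a b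
        (fun i h1 h2 => hs i h1 (by omega)) {v // v ≠ x0} (G.comap Subtype.val) (by
          intro v
          have a1 := hdeg v
          have a2 : ((univ.filter (G.Adj v)).erase x0).card
              ≤ dg (G.comap (Subtype.val : {v // v ≠ x0} → V)) univ v := by
            refine le_trans (card_le_card (fun w hw => ?_)) (card_image_le (f := Subtype.val))
            exact mem_image.2 ⟨⟨w, ne_of_mem_erase hw⟩, mem_filter.2 ⟨mem_univ _,
              (mem_filter.1 (mem_of_mem_erase hw)).2⟩, rfl⟩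
          have a3 := pred_card_le_card_erase (s := univ.filter (G.Adj v)) (a := x0)
          unfold dg at a1
          omega)
      refine pack_of_sets G _ T (fun i e => (i = k + 1 ∧ x0 ∈ e) ∨
        (i ≤ k ∧ ∃ u v, (T i).Adj u v ∧ e = s((f i u).1, (f i v).1))) (fun i h1 h2 => ?_) ?_
      · by_cases h : i = k + 1
        · subst h
          obtain ⟨g, g1, g2⟩ := star_emb (hT _ h1 h2) hc G x0 N (by simp [N2])
            (fun y hy => (mem_filter.1 (N1 hy)).2)
          refine ⟨g, g1, fun u v huv => ⟨(g2 u v huv).1, Or.inl ⟨rfl, ?_⟩⟩⟩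
          obtain ⟨y, _, e⟩ := (g2 u v huv).2
          rw [e]; exact Sym2.mem_mk_left _ _
        · exact ⟨fun u => (f i u).1, Subtype.val_injective.comp (f1 i h1 (by omega)).1,
            fun u v huv => ⟨(f1 i h1 (by omega)).2 u v huv, Or.inr ⟨by omega, u, v, huv, rfl⟩⟩⟩
      · rintro i j i1 j1 hij e (⟨h, _⟩ | ⟨i2, u, v, huv, rfl⟩) h'
        · omega
        rcases h' with ⟨_, h'⟩ | ⟨j2, u', v', huv', h'⟩
        · rcases Sym2.mem_iff.1 h' with h | h
          · exact (f i u).2 h.symm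
          · exact (f i v).2 h.symm
        · refine f2 i j i1 i2 (by omega) j2 (by omega) u v u' v' huv huv' ?_
          rcases Sym2.eq_iff.1 h' with ⟨p1, p2⟩ | ⟨p1, p2⟩
          · rw [Subtype.ext p1, Subtype.ext p2]
          · rw [Subtype.ext p1, Subtype.ext p2, Sym2.eq_swap]
    have hk2 : 2 ≤ k := by
      by_contra hlt
      have : k = 1 := by omega
      subst this
      obtain ⟨par, d, R⟩ := hT 2 le_rfl le_rfl 0
      refine hstar ⟨0, fun v hv => ?_⟩
      have h1 := R.adj_par hv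
      have h3 : ∀ v w : Fin 2, v ≠ 0 → w ≠ v → w = 0 := by decide
      have h2 : par v = 0 := h3 v _ hv (R.par_ne hv)
      rw [h2] at h1
      exact h1.symm
    obtain ⟨b', b1, b2, b3, b4⟩ : ∃ b', 2 ≤ b' ∧ b' ≤ k ∧
        (b' = 2 ∨ ∀ u, ¬ ∀ w, w ≠ u → (T b').Adj u w) ∧
        ∀ i, 2 ≤ i → i ≤ k → i ≠ b' → ∃ c, ∀ v, v ≠ c → (T i).Adj c v := by
      by_cases h : ∃ i, 2 ≤ i ∧ i ≤ k ∧ ¬ ∃ c, ∀ v, v ≠ c → (T i).Adj c v
      · obtain ⟨i, i1, i2, i3⟩ := h
        refine ⟨i, i1, i2, Or.inr (fun u hu => i3 ⟨u, hu⟩), fun j j1 j2 j3 => ?_⟩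
        have p1 := hs (k + 1) (by omega) le_rfl
        have p2 := hs i i1 (by omega)
        refine hs j j1 (by omega) (fun e => ?_) (fun e => ?_)
        · by_cases e1 : k + 1 = b
          · exact i3 (p2 (by omega) (by omega))
          · exact hstar (p1 (by omega) e1)
        · by_cases e1 : k + 1 = a
          · exact i3 (p2 (by omega) (by omega))
          · exact hstar (p1 e1 (by omega))
      · push Not at h
        exact ⟨2, le_rfl, hk2, Or.inl rfl, fun i i1 i2 _ => h i i1 i2⟩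
    have hn : k + 1 ≤ Fintype.card V := by
      have a1 : univ.filter (G.Adj x0) ⊆ univ.erase x0 := fun w hw =>
        mem_erase.2 ⟨(mem_filter.1 hw).2.ne.symm, mem_univ _⟩
      have a2 := card_le_card a1
      have a3 := card_erase_add_one (mem_univ x0)
      rw [card_univ] at a3
      unfold dg at hdeg0
      omega
    obtain ⟨φ, φ', c, N, E, E', s1, s2⟩ := two_trees G (hT (k + 1) (by omega) le_rfl)
      (hT b' b1 (by omega)) b' (k - b') (Fintype.card V - (k + 1)) b1 (by omega)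
      (fun x => by have := hdeg x; omega) (by rw [Fintype.card_fin]; omega) (Fintype.card_fin _)
      (fun u hu => hstar ⟨u, hu⟩) b3
    refine pack_of_sets G _ T (fun i e =>
      (i = k + 1 ∧ ∃ x y, (img (T (k + 1)) univ φ).Adj x y ∧ e = s(x, y)) ∨
      (i = b' ∧ ∃ x y, (img (T b') univ φ').Adj x y ∧ e = s(x, y)) ∨
      (i ≤ k ∧ i ≠ b' ∧ ∃ y ∈ N (k + 1 - i), e = s(c (k + 1 - i), y))) (fun i h1 h2 => ?_) ?_
    · by_cases h : i = k + 1
      · subst h
        exact ⟨φ, fun u v e => E.inj u (mem_univ _) v (mem_univ _) e, fun u v huv =>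
          ⟨E.hom u (mem_univ _) v (mem_univ _) huv,
            Or.inl ⟨rfl, _, _, E.img_adj (mem_univ _) (mem_univ _) huv, rfl⟩⟩⟩
      by_cases h' : i = b'
      · subst h'
        exact ⟨φ', fun u v e => E'.inj u (mem_univ _) v (mem_univ _) e, fun u v huv =>
          ⟨E'.of_fr.hom u (mem_univ _) v (mem_univ _) huv,
            Or.inr (Or.inl ⟨rfl, _, _, E'.img_adj (mem_univ _) (mem_univ _) huv, rfl⟩)⟩⟩
      obtain ⟨c0, hc0⟩ := b4 i h1 (by omega) h'
      obtain ⟨p1, p2⟩ := s1 (k + 1 - i) (by omega) (by omega) (by omega)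
      obtain ⟨g, g1, g2⟩ := star_emb (hT i h1 h2) hc0 G (c (k + 1 - i)) (N (k + 1 - i))
        (by rw [p1, Fintype.card_fin]; omega) (fun y hy => (fr_adj.1 (p2 y hy)).1)
      exact ⟨g, g1, fun u v huv => ⟨(g2 u v huv).1,
        Or.inr (Or.inr ⟨by omega, h', (g2 u v huv).2⟩)⟩⟩
    · have sw : ∀ (U : SimpleGraph V) (x y x' y' : V), U.Adj x y → s(x', y') = s(x, y) →
          U.Adj x' y' := by
        intro U x y x' y' h e
        rcases Sym2.eq_iff.1 e with ⟨rfl, rfl⟩ | ⟨rfl, rfl⟩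
        · exact h
        · exact h.symm
      have free : ∀ i, 2 ≤ i → i ≤ k → i ≠ b' → ∀ y ∈ N (k + 1 - i),
          ¬ (img (T (k + 1)) univ φ).Adj (c (k + 1 - i)) y ∧
          ¬ (img (T b') univ φ').Adj (c (k + 1 - i)) y := by
        intro i i1 i2 i3 y hy
        have := (fr_adj.1 ((s1 (k + 1 - i) (by omega) (by omega) (by omega)).2 y hy)).2
        rwa [un_adj, not_or] at this
      rintro i j i1 j1 hij e (⟨h, _⟩ | ⟨h, x, y, hxy, rfl⟩ | ⟨i2, i3, y, hy, rfl⟩) h'
      · omega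
      · rcases h' with ⟨_, x', y', h1, h2⟩ | ⟨h1, _⟩ | ⟨j2, j3, y', hy', h2⟩
        · obtain ⟨_, u, _, v, _, huv, rfl, rfl⟩ := hxy
          exact (fr_adj.1 (E'.hom u (mem_univ _) v (mem_univ _) huv)).2 (sw _ _ _ _ _ h1 h2)
        · omega
        · exact (free j (by omega) j2 j3 y' hy').2 (sw _ _ _ _ _ hxy h2.symm)
      · rcases h' with ⟨_, x', y', h1, h2⟩ | ⟨_, x', y', h1, h2⟩ | ⟨j2, j3, y', hy', h2⟩
        · exact (free i i1 i2 i3 y hy).1 (sw _ _ _ _ _ h1 h2)
        · exact (free i i1 i2 i3 y hy).2 (sw _ _ _ _ _ h1 h2)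
        · exact s2 (k + 1 - i) (k + 1 - j) (by omega) (by omega) (by omega) (by omega) (by omega)
            (by omega) (by omega) y hy y' hy' h2

end Pool.Agent.Lib.MP_2b1ae8_co.TN
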